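import Mathlib
import Pool.Agent.Lib.MP_12adaf_nt.OCont
import Pool.Agent.Lib.MP_12adaf_nt.Generic
import Pool.Agent.Lib.MP_12adaf_nt.Local

section

/-!
# Moving a polynomial along the fibres of the odd parametrisation

If `g` is monic of degree `N` (even), `h` and `f_t` are attached to `g` by the odd construction and
`f_t` has a root `a` in the ground field then `f_t / (X - a)` is monic of degree `N` with the same
discriminant as `g` up to squares.  We use the parameter `b = 1 / a`, so that `b = 0` gives back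
`g`.
-/

namespace Pool.Agent.Lib.MP_12adaf_nt

set_option linter.unusedSectionVars false
set_option linter.unusedVariables false

open Finset Polynomial

section Quo

variable {R : Type*} [CommRing R]

/-- The coefficients of the power series `p / (1 - b X)`. -/
def qc (p : R[X]) (b : R) (i : ℕ) : R := ∑ k ∈ range (i + 1), p.coeff k * b ^ (i - k)

/-- The truncated quotient `p / (1 - b X)`. -/
noncomputable def quoP (N : ℕ) (p : R[X]) (b : R) : R[X] := ∑ i ∈ range N, C (qc p b i) * X ^ i

lemma qc_zero (p : R[X]) (b : R) : qc p b 0 = p.coeff 0 := by simp [qc]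

lemma qc_succ (p : R[X]) (b : R) (i : ℕ) : qc p b (i + 1) = p.coeff (i + 1) + b * qc p b i := by
  rw [qc, Finset.sum_range_succ, qc, Finset.mul_sum, Nat.sub_self, pow_zero, mul_one, add_comm]
  congr 1
  refine Finset.sum_congr rfl fun k hk => ?_
  have hk' : k ≤ i := Nat.lt_succ_iff.mp (Finset.mem_range.mp hk)
  rw [show i + 1 - k = (i - k) + 1 by omega, pow_succ]
  ring

lemma qc_b_zero (p : R[X]) (i : ℕ) : qc p 0 i = p.coeff i := by
  cases i with
  | zero => exact qc_zero p 0
  | succ i => rw [qc_succ, zero_mul, add_zero]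

lemma qc_sub_C_mul (p q : R[X]) (r b : R) (i : ℕ) :
    qc (p - C r * q) b i = qc p b i - r * qc q b i := by
  simp only [qc, coeff_sub, coeff_C_mul, sub_mul, Finset.sum_sub_distrib, Finset.mul_sum]
  congr 1
  refine Finset.sum_congr rfl fun k _ => ?_
  ring

lemma one_sub_mul_quoP_aux (N : ℕ) (p : R[X]) (b : R) :
    (1 - C b * X) * quoP N p b = ∑ i ∈ range (N + 1), C (p.coeff i) * X ^ i -
      C (qc p b N) * X ^ N := by
  induction N with
  | zero => simp [quoP, qc_zero]
  | succ N ih =>
    rw [quoP, Finset.sum_range_succ, ← quoP, mul_add, ih, Finset.sum_range_succ _ (N + 1),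
      qc_succ]
    simp only [C_add, C_mul]
    ring

lemma one_sub_mul_quoP {N : ℕ} {p : R[X]} {b : R} (hp : p.natDegree ≤ N) (hq : qc p b N = 0) :
    (1 - C b * X) * quoP N p b = p := by
  rw [one_sub_mul_quoP_aux, hq, C_0, zero_mul, sub_zero]
  exact (as_sum_range_C_mul_X_pow' p (Nat.lt_succ_of_le hp)).symm

lemma degree_quoP_lt (N : ℕ) (p : R[X]) (b : R) : (quoP N p b).degree < (N : WithBot ℕ) := by
  rw [degree_lt_iff_coeff_zero]
  intro m hm
  rw [quoP, finsetSum_coeff]
  refine Finset.sum_eq_zero fun i hi => ?_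
  have hi' := Finset.mem_range.mp hi
  rw [coeff_C_mul, coeff_X_pow, if_neg (by omega), mul_zero]

variable {S : Type*} [CommRing S] (φ : R →+* S)

lemma map_qc (p : R[X]) (b : R) (i : ℕ) : φ (qc p b i) = qc (p.map φ) (φ b) i := by
  simp [qc, map_sum, coeff_map]

lemma map_quoP (N : ℕ) (p : R[X]) (b : R) :
    (quoP N p b).map φ = quoP N (p.map φ) (φ b) := by
  rw [quoP, quoP, Polynomial.map_sum]
  refine Finset.sum_congr rfl fun i _ => ?_
  rw [Polynomial.map_mul, Polynomial.map_pow, map_C, map_X, map_qc φ]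

end Quo

section QuoField

variable {K : Type*} [Field K]

lemma eval_inv_mul_pow {p : K[X]} {N : ℕ} (hp : p.natDegree ≤ N) {b : K} (hb : b ≠ 0) :
    p.eval b⁻¹ * b ^ N = qc p b N := by
  rw [eval_eq_sum_range' (Nat.lt_succ_of_le hp), qc, Finset.sum_mul]
  refine Finset.sum_congr rfl fun k hk => ?_
  have hk' : k ≤ N := Nat.lt_succ_iff.mp (Finset.mem_range.mp hk)
  obtain ⟨m, rfl⟩ := Nat.exists_eq_add_of_le hk'
  rw [Nat.add_sub_cancel_left, pow_add, inv_pow]
  field_simp

/-- The value `f1 (a) / g (a)`. -/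
noncomputable def dlt (N : ℕ) (g : K[X]) (b : K) : K := qc (f1polyO N g) b N / qc g b N

/-- The polynomial `f_t / (X - a)` in terms of `b = 1 / a`. -/
noncomputable def pmF (N : ℕ) (g : K[X]) (b : K) : K[X] :=
  g - C b * quoP N (f1polyO N g - C (dlt N g b) * g) b

/-- The factor by which the square root of the discriminant changes. -/
noncomputable def pmc (N : ℕ) (g : K[X]) (b : K) : K :=
  resultant (pmF N g b) (hpolyO N g) N N * qc g b N /
    (resultant g (hpolyO N g) N N * qc (hpolyO N g) b N)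

lemma pmF_zero (N : ℕ) (g : K[X]) : pmF N g 0 = g := by
  simp [pmF]

variable {N : ℕ} {g : K[X]}

lemma natDegree_f1polyO_le (hg : g.Monic) (hN : g.natDegree = N) :
    (f1polyO N g).natDegree ≤ N :=
  (natDegree_modByMonic_le _ hg).trans hN.le

lemma pmF_monic (hg : g.Monic) (hN : g.natDegree = N) (b : K) :
    (pmF N g b).Monic ∧ (pmF N g b).natDegree = N := by
  have h1 : (C b * quoP N (f1polyO N g - C (dlt N g b) * g) b).degree < g.degree := by
    rw [degree_eq_natDegree hg.ne_zero, hN]
    refine lt_of_le_of_lt ?_ (degree_quoP_lt N (f1polyO N g - C (dlt N g b) * g) b)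
    rw [← smul_eq_C_mul]
    exact degree_smul_le _ _
  refine ⟨hg.sub_of_left h1, ?_⟩
  rw [← hN]
  exact natDegree_eq_of_degree_eq (by rw [hN]; exact degree_sub_eq_left_of_degree_lt h1)

lemma qc_pm {b : K} (h : qc g b N ≠ 0) :
    qc (f1polyO N g - C (dlt N g b) * g) b N = 0 := by
  rw [qc_sub_C_mul, dlt, div_mul_cancel₀ _ h, sub_self]

lemma one_sub_mul_pmF (hg : g.Monic) (hN : g.natDegree = N) {b : K} (h : qc g b N ≠ 0) :
    (1 - C b * X) * pmF N g b =
      g * (1 + C (b * dlt N g b) - C b * X) - C b * f1polyO N g := by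
  have h1 : (f1polyO N g - C (dlt N g b) * g).natDegree ≤ N := by
    refine (natDegree_sub_le _ _).trans (max_le (natDegree_f1polyO_le hg hN) ?_)
    exact (natDegree_C_mul_le _ _).trans hN.le
  have h2 := one_sub_mul_quoP h1 (qc_pm h)
  rw [pmF, mul_sub, mul_left_comm (1 - C b * X) (C b), h2, C_mul]
  ring

lemma X_sub_mul_pmF (hg : g.Monic) (hN : g.natDegree = N) {b : K} (hb : b ≠ 0)
    (h : qc g b N ≠ 0) :
    (X - C b⁻¹) * pmF N g b = fpolyO N g (b⁻¹ + dlt N g b) := by
  have h1 := one_sub_mul_pmF hg hN h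
  have hCb : (C b : K[X]) * C b⁻¹ = 1 := by rw [← C_mul, mul_inv_cancel₀ hb, C_1]
  have hCb0 : (C b : K[X]) ≠ 0 := C_ne_zero.mpr hb
  apply mul_left_cancel₀ hCb0
  rw [fpolyO]
  simp only [C_mul, C_add] at h1 ⊢
  linear_combination (-1 : K[X]) * h1 + (g - pmF N g b) * hCb

variable {L : Type*} [Field L] (φ : K →+* L)

lemma map_dlt (hg : g.Monic) (b : K) : φ (dlt N g b) = dlt N (g.map φ) (φ b) := by
  rw [dlt, dlt, map_div₀, map_qc, map_qc, map_f1polyO φ hg]

lemma map_pmF (hg : g.Monic) (b : K) : (pmF N g b).map φ = pmF N (g.map φ) (φ b) := by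
  rw [pmF, pmF, Polynomial.map_sub, Polynomial.map_mul, map_C, map_quoP, Polynomial.map_sub,
    Polynomial.map_mul, map_C, map_f1polyO φ hg, map_dlt φ hg]

lemma map_pmc (hg : g.Monic) (b : K) : φ (pmc N g b) = pmc N (g.map φ) (φ b) := by
  rw [pmc, pmc, map_div₀, map_mul, map_mul, map_qc, map_qc, ← map_pmF φ hg, ← map_hpolyO φ hg,
    resultant_map_map, resultant_map_map]

end QuoField

section Disc

variable {K : Type*} [Field K] [CharZero K]

lemma resultant_linear_mul {F h : K[X]} {a : K} {N : ℕ} (hF : F.natDegree = N)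
    (hh : h.natDegree ≤ N) :
    resultant ((X - C a) * F) h (N + 1) N = h.eval a * resultant F h N N := by
  have h1 := resultant_mul_left (X - C a) F h N hh
  rw [natDegree_X_sub_C, hF, resultant_X_sub_C_left _ _ _ hh] at h1
  rw [add_comm N 1]
  exact h1

lemma discr_linear_mul {F : K[X]} (hF : F.Monic) {a : K} {N : ℕ} (hN : 0 < N)
    (hFN : F.natDegree = N) :
    ((X - C a) * F).discr = F.discr * F.eval a ^ 2 := by
  set f := (X - C a) * F with hf
  have hfm : f.Monic := (monic_X_sub_C a).mul hF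
  have hfN : f.natDegree = N + 1 := by
    rw [hf, (monic_X_sub_C a).natDegree_mul hF, natDegree_X_sub_C, hFN, add_comm]
  have hf' : derivative f = F + (X - C a) * derivative F := by
    rw [hf, derivative_mul, derivative_sub, derivative_X, derivative_C]; ring
  have hf'd : (derivative f).natDegree ≤ N := by
    have := natDegree_derivative_le f
    omega
  have hF'd : (derivative F).natDegree = N - 1 := by
    rw [natDegree_derivative, hFN]
  have e1 := resultant_deriv_monic hfm hfN
  have e2 := resultant_deriv_monic hF hFN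
  rw [show N + 1 - 1 = N by omega] at e1
  have k1 : resultant f (derivative f) (N + 1) N =
      (derivative f).eval a * resultant F (derivative f) N N :=
    resultant_linear_mul hFN hf'd
  have k2 : resultant F (derivative f) N N = resultant F ((X - C a) * derivative F) N N := by
    have h1 := resultant_add_mul_right F ((X - C a) * derivative F) 1 N N (by simp) hFN.le
    have h2 : derivative f = (X - C a) * derivative F + F * 1 := by rw [hf']; ring
    rw [h2]
    exact h1
  have k3 : resultant F ((X - C a) * derivative F) N N =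
      (-1) ^ N * F.eval a * resultant F (derivative F) N (N - 1) := by
    have h1 := resultant_mul_right F (X - C a) (derivative F) N hFN.le
    rw [natDegree_X_sub_C, hF'd, resultant_X_sub_C_right _ _ _ hFN.le,
      show 1 + (N - 1) = N by omega] at h1
    exact h1
  have k4 : (derivative f).eval a = F.eval a := by rw [hf']; simp
  rw [k1, k2, k3, k4, e2] at e1
  have hs : ((-1 : K)) ^ N * (-1) ^ (N * (N - 1) / 2) = (-1) ^ ((N + 1) * N / 2) := by
    rw [← pow_add]
    congr 1
    obtain ⟨M, rfl⟩ : ∃ M, N = M + 1 := ⟨N - 1, by omega⟩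
    have h1 : (M + 1 + 1) * (M + 1) = (M + 1) * (M + 1 - 1) + 2 * (M + 1) := by
      rw [Nat.add_sub_cancel]; ring
    rw [h1, Nat.add_mul_div_left _ _ (by norm_num : 0 < 2)]
    omega
  have hs0 : ((-1 : K)) ^ ((N + 1) * N / 2) ≠ 0 := pow_ne_zero _ (neg_ne_zero.mpr one_ne_zero)
  apply mul_left_cancel₀ hs0
  rw [← e1, ← hs]
  ring

theorem discr_of_linear_mul {N : ℕ} (hNe : Even N) (hN : 0 < N) {F g h : K[X]} {a : K}
    (hF : F.Monic) (hFN : F.natDegree = N) (hg : g.Monic) (hgN : g.natDegree = N)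
    (hhN : h.natDegree ≤ N)
    (hw : derivative ((X - C a) * F) * g - (X - C a) * F * derivative g = h ^ 2)
    (hh : h.eval a ≠ 0) :
    F.discr * (resultant g h N N * h.eval a) ^ 2 =
      g.discr * (resultant F h N N * g.eval a) ^ 2 := by
  have hfm : ((X - C a) * F).Monic := (monic_X_sub_C a).mul hF
  have hfN : ((X - C a) * F).natDegree = N + 1 := by
    rw [(monic_X_sub_C a).natDegree_mul hF, natDegree_X_sub_C, hFN, add_comm]
  obtain ⟨k1, k2⟩ := discr_O hNe hfm hg hfN hgN hhN hw
  rw [discr_linear_mul hF hN hFN, resultant_linear_mul hFN hhN] at k1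
  have k3 : F.eval a * g.eval a = h.eval a ^ 2 := by
    have := congrArg (eval a) hw
    simpa [derivative_mul] using this
  set R := resultant ((X - C a) * F) g (N + 1) N with hR
  set A := resultant F h N N with hA
  set B := resultant g h N N with hB
  have hs : ((-1 : K) ^ (N / 2)) ^ 2 = 1 := by
    rw [← pow_mul, mul_comm, pow_mul]; simp
  have k4 : F.discr * F.eval a ^ 2 * B ^ 2 = g.discr * (h.eval a * A) ^ 2 := by
    linear_combination g.discr * k1 - F.discr * F.eval a ^ 2 * k2
  apply mul_left_cancel₀ (pow_ne_zero 2 hh)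
  linear_combination (g.eval a) ^ 2 * k4 -
    F.discr * B ^ 2 * (F.eval a * g.eval a + h.eval a ^ 2) * k3

/-- The conditions under which the move is possible. -/
structure PMok (N : ℕ) (g : K[X]) (b : K) : Prop where
  det : (LmatO N g).det ≠ 0
  res : resultant g (hpolyO N g) N N ≠ 0
  qg : qc g b N ≠ 0
  qh : qc (hpolyO N g) b N ≠ 0
  resF : resultant (pmF N g b) (hpolyO N g) N N ≠ 0

lemma PMok.pmc_ne_zero {N : ℕ} {g : K[X]} {b : K} (h : PMok N g b) : pmc N g b ≠ 0 :=
  div_ne_zero (mul_ne_zero h.resF h.qg) (mul_ne_zero h.res h.qh)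

lemma PMok.map {L : Type*} [Field L] [CharZero L] (φ : K →+* L) {N : ℕ} {g : K[X]}
    (hg : g.Monic) {b : K} (h : PMok N g b) : PMok N (g.map φ) (φ b) where
  det := by
    rw [map_LmatO φ hg]
    have : ((LmatO N g).map φ).det = φ (LmatO N g).det := by rw [RingHom.map_det]; rfl
    rw [this]
    exact (_root_.map_ne_zero φ).mpr h.det
  res := by
    rw [← map_hpolyO φ hg, resultant_map_map]
    exact (_root_.map_ne_zero φ).mpr h.res
  qg := by
    rw [← map_qc]
    exact (_root_.map_ne_zero φ).mpr h.qg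
  qh := by
    rw [← map_hpolyO φ hg, ← map_qc]
    exact (_root_.map_ne_zero φ).mpr h.qh
  resF := by
    rw [← map_hpolyO φ hg, ← map_pmF φ hg, resultant_map_map]
    exact (_root_.map_ne_zero φ).mpr h.resF

lemma hpolyO_coeff {N : ℕ} {g : K[X]} (hg : g.Monic) (hN : g.natDegree = N) :
    (hpolyO N g).coeff N = 1 := by
  rw [hpolyO, coeff_add]
  have h1 : g.coeff N = 1 := by rw [← hN]; exact hg.coeff_natDegree
  have h2 : ((cpolyO N g * derivative g) %ₘ g).coeff N = 0 := by
    apply coeff_eq_zero_of_degree_lt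
    have := degree_modByMonic_lt (cpolyO N g * derivative g) hg
    rwa [degree_eq_natDegree hg.ne_zero, hN] at this
  rw [h1, h2, add_zero]

/-- At `b = 0` the move is the identity. -/
lemma pmc_zero {N : ℕ} {g : K[X]} (hg : g.Monic) (hN : g.natDegree = N)
    (hR : resultant g (hpolyO N g) N N ≠ 0) : pmc N g 0 = 1 := by
  rw [pmc, pmF_zero, qc_b_zero, qc_b_zero, hpolyO_coeff hg hN]
  have h1 : g.coeff N = 1 := by rw [← hN]; exact hg.coeff_natDegree
  rw [h1]
  exact div_self (mul_ne_zero hR one_ne_zero)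

lemma PMok_zero {N : ℕ} {g : K[X]} (hg : g.Monic) (hN : g.natDegree = N)
    (hL : (LmatO N g).det ≠ 0) (hR : resultant g (hpolyO N g) N N ≠ 0) : PMok N g 0 where
  det := hL
  res := hR
  qg := by
    rw [qc_b_zero, ← hN, hg.coeff_natDegree]
    exact one_ne_zero
  qh := by
    rw [qc_b_zero, hpolyO_coeff hg hN]
    exact one_ne_zero
  resF := by rwa [pmF_zero]

theorem discr_pmF {N : ℕ} (hNe : Even N) (hN0 : 0 < N) {g : K[X]} (hg : g.Monic)
    (hN : g.natDegree = N) (hsep : g.Separable) {b : K} (h : PMok N g b) :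
    (pmF N g b).discr = g.discr * pmc N g b ^ 2 := by
  by_cases hb : b = 0
  · subst hb
    rw [pmF_zero, pmc_zero hg hN h.res, one_pow, mul_one]
  have hhN := natDegree_hpolyO_le hg hN
  have hF := pmF_monic hg hN b
  have h1 := X_sub_mul_pmF hg hN hb h.qg
  have h2 := wronskian_fpolyO hg hN hsep h.det (b⁻¹ + dlt N g b)
  rw [← h1] at h2
  have e1 := eval_inv_mul_pow hhN hb
  have e2 := eval_inv_mul_pow hN.le hb
  have hbN : b ^ N ≠ 0 := pow_ne_zero _ hb
  have hh : (hpolyO N g).eval b⁻¹ ≠ 0 := by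
    intro h0
    apply h.qh
    rw [← e1, h0, zero_mul]
  have h3 := discr_of_linear_mul hNe hN0 hF.1 hF.2 hg hN hhN h2 hh
  have hres := h.res
  have hqh := h.qh
  rw [pmc, ← e1, ← e2]
  generalize (hpolyO N g).eval b⁻¹ = u at *
  generalize g.eval b⁻¹ = v at *
  generalize resultant g (hpolyO N g) N N = B at *
  generalize resultant (pmF N g b) (hpolyO N g) N N = A at *
  field_simp
  linear_combination h3

end Disc

end Pool.Agent.Lib.MP_12adaf_nt
end

section

section

/-!
# Continuity of the move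
-/

namespace Pool.Agent.Lib.MP_12adaf_nt

set_option linter.unusedSectionVars false
set_option linter.unusedVariables false

open Finset Polynomial Filter Topology

variable {α : Type*} {l : Filter α} {K : Type*} [NormedField K]

lemma tendsto_qc {p : α → K[X]} {p0 : K[X]} (hp : CT l p p0) {b : α → K} {b0 : K}
    (hb : Tendsto b l (𝓝 b0)) (i : ℕ) :
    Tendsto (fun a => qc (p a) (b a) i) l (𝓝 (qc p0 b0 i)) := by
  unfold qc
  exact tendsto_finsetSum _ fun k _ => (hp k).mul (hb.pow _)

lemma ctb_quoP (N : ℕ) {p : α → K[X]} {p0 : K[X]} (hp : CT l p p0) {b : α → K} {b0 : K}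
    (hb : Tendsto b l (𝓝 b0)) : CTB l (fun a => quoP N (p a) (b a)) (quoP N p0 b0) := by
  unfold quoP
  exact CTB.sum _ fun i _ => (CTB.C (tendsto_qc hp hb i)).mul (CTB.const _)

variable {N : ℕ} {g : α → K[X]} {g0 : K[X]} (hg : CTB l g g0)
    (hm : ∀ a, (g a).Monic) (hd : ∀ a, (g a).natDegree = N)
    (hm0 : g0.Monic) (hd0 : g0.natDegree = N)

include hg hm hd hm0 hd0

lemma tendsto_dlt (hL : (LmatO N g0).det ≠ 0) {b : α → K} {b0 : K}
    (hb : Tendsto b l (𝓝 b0)) (hq : qc g0 b0 N ≠ 0) :
    Tendsto (fun a => dlt N (g a) (b a)) l (𝓝 (dlt N g0 b0)) := by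
  unfold dlt
  exact (tendsto_qc (ctb_f1polyO hg hm hd hm0 hd0 hL).1 hb N).div (tendsto_qc hg.1 hb N) hq

lemma ctb_pmF (hL : (LmatO N g0).det ≠ 0) {b : α → K} {b0 : K}
    (hb : Tendsto b l (𝓝 b0)) (hq : qc g0 b0 N ≠ 0) :
    CTB l (fun a => pmF N (g a) (b a)) (pmF N g0 b0) := by
  unfold pmF
  refine hg.sub ((CTB.C hb).mul (ctb_quoP N ?_ hb))
  exact (ctb_f1polyO hg hm hd hm0 hd0 hL).1.sub
    ((CT.C (tendsto_dlt hg hm hd hm0 hd0 hL hb hq)).mul hg.1)

lemma tendsto_pmc (hL : (LmatO N g0).det ≠ 0) {b : α → K} {b0 : K}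
    (hb : Tendsto b l (𝓝 b0)) (hq : qc g0 b0 N ≠ 0)
    (hR : resultant g0 (hpolyO N g0) N N ≠ 0) (hqh : qc (hpolyO N g0) b0 N ≠ 0) :
    Tendsto (fun a => pmc N (g a) (b a)) l (𝓝 (pmc N g0 b0)) := by
  unfold pmc
  refine Tendsto.div ?_ ?_ (mul_ne_zero hR hqh)
  · exact (CT.resultant (ctb_pmF hg hm hd hm0 hd0 hL hb hq).1
      (ctb_hpolyO hg hm hd hm0 hd0 hL).1 N N).mul (tendsto_qc hg.1 hb N)
  · exact (tendsto_resultant_hpolyO hg hm hd hm0 hd0 hL).mul
      (tendsto_qc (ctb_hpolyO hg hm hd hm0 hd0 hL).1 hb N)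

end Pool.Agent.Lib.MP_12adaf_nt
end

section

/-!
# Families of local points which are approximable by global points
-/

namespace Pool.Agent.Lib.MP_12adaf_nt

set_option linter.unusedSectionVars false
set_option linter.unusedVariables false

open Finset Polynomial Filter Topology

/-- A point `(F, Y)` of `d Y ^ 2 = disc F`, `Y ≠ 0`. -/
structure PtK {K : Type*} [CommRing K] (N : ℕ) (d : K) (F : K[X]) (Y : K) : Prop where
  monic : F.Monic
  deg : F.natDegree = N
  disc : F.discr = d * Y ^ 2
  ne : Y ≠ 0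

lemma PtK.sep {K : Type*} [Field K] {N : ℕ} {d : K} {F : K[X]} {Y : K} (hd : d ≠ 0)
    (h : PtK N d F Y) : F.Separable := by
  apply separable_of_discr_ne_zero h.monic
  rw [h.disc]
  exact mul_ne_zero hd (pow_ne_zero 2 h.ne)

lemma PMok.of_map {K L : Type*} [Field K] [CharZero K] [Field L] [CharZero L] (φ : K →+* L)
    {N : ℕ} {g : K[X]} (hg : g.Monic) {b : K} (h : PMok N (g.map φ) (φ b)) : PMok N g b where
  det := by
    have h1 := h.det
    rw [map_LmatO φ hg] at h1
    have : ((LmatO N g).map φ).det = φ (LmatO N g).det := by rw [RingHom.map_det]; rfl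
    rw [this] at h1
    exact (_root_.map_ne_zero φ).mp h1
  res := by
    have h1 := h.res
    rw [← map_hpolyO φ hg, resultant_map_map] at h1
    exact (_root_.map_ne_zero φ).mp h1
  qg := by
    have h1 := h.qg
    rw [← map_qc] at h1
    exact (_root_.map_ne_zero φ).mp h1
  qh := by
    have h1 := h.qh
    rw [← map_hpolyO φ hg, ← map_qc] at h1
    exact (_root_.map_ne_zero φ).mp h1
  resF := by
    have h1 := h.resF
    rw [← map_hpolyO φ hg, ← map_pmF φ hg, resultant_map_map] at h1
    exact (_root_.map_ne_zero φ).mp h1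

section

variable {k : Type*} [Field k] [CharZero k] {ι : Type*} [Fintype ι]
  {K : ι → Type*} [∀ i, NormedField (K i)] [∀ i, CharZero (K i)] (φ : ∀ i, k →+* K i)

/-- The family `(F i, Y i)` can be approximated by global points. -/
def Appr (N : ℕ) (d : k) (F : ∀ i, (K i)[X]) (Y : ∀ i, K i) : Prop :=
  ∀ ε : ℝ, 0 < ε → ∃ (P : k[X]) (y : k), PtK N d P y ∧
    ∀ i, (∀ m, ‖φ i (P.coeff m) - (F i).coeff m‖ < ε) ∧ ‖φ i y - Y i‖ < ε

variable {φ} {N : ℕ} {d : k} {F : ∀ i, (K i)[X]} {Y : ∀ i, K i}

lemma exists_seq (hdense : DenseRange (fun (q : k) (i : ι) => φ i q)) (x : ∀ i, K i) :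
    ∃ u : ℕ → k, ∀ i, Tendsto (fun j => φ i (u j)) atTop (𝓝 (x i)) := by
  have hx : x ∈ closure (Set.range fun (q : k) (i : ι) => φ i q) := hdense x
  obtain ⟨w, hw, hlim⟩ := mem_closure_iff_seq_limit.mp hx
  choose u hu using hw
  refine ⟨u, fun i => ?_⟩
  have := (tendsto_pi_nhds.mp hlim) i
  refine this.congr fun j => ?_
  rw [← hu j]

lemma exists_seq_poly (hdense : DenseRange (fun (q : k) (i : ι) => φ i q))
    (T : ∀ i, (K i)[X]) :
    ∃ u : ℕ → k[X], ∀ i, CTB atTop (fun j => (u j).map (φ i)) (T i) := by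
  classical
  obtain ⟨M, hM⟩ : ∃ M, ∀ i, (T i).natDegree < M :=
    ⟨(Finset.univ.sup fun i => (T i).natDegree) + 1, fun i =>
      Nat.lt_succ_of_le (Finset.le_sup (f := fun i => (T i).natDegree) (Finset.mem_univ i))⟩
  choose uT huT using fun m : Fin M => exists_seq hdense fun i => (T i).coeff m
  refine ⟨fun j => toPoly fun m => uT m j, fun i => ?_⟩
  have h1 : ∀ j, (toPoly fun m => uT m j).map (φ i) =
      ∑ m : Fin M, C (φ i (uT m j)) * X ^ (m : ℕ) := by
    intro j
    rw [map_toPoly]
    rfl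
  have h2 : (T i).degree < (M : WithBot ℕ) :=
    degree_le_natDegree.trans_lt (by exact_mod_cast hM i)
  rw [← toPoly_coeff h2]
  simp only [h1]
  exact CTB.sum _ fun m _ => (CTB.C (huT m i)).mul (CTB.const _)

lemma Appr.seq (hm : ∀ i, (F i).Monic) (hd : ∀ i, (F i).natDegree = N)
    (h : Appr φ N d F Y) : ∃ (P : ℕ → k[X]) (y : ℕ → k),
    (∀ j, PtK N d (P j) (y j)) ∧ (∀ i, CTB atTop (fun j => (P j).map (φ i)) (F i)) ∧
    ∀ i, Tendsto (fun j => φ i (y j)) atTop (𝓝 (Y i)) := by
  have happ' : ∀ j : ℕ, ∃ (P : k[X]) (y : k), PtK N d P y ∧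
      ∀ i, (∀ m, ‖φ i (P.coeff m) - (F i).coeff m‖ < 1 / ((j : ℝ) + 1)) ∧
        ‖φ i y - Y i‖ < 1 / ((j : ℝ) + 1) :=
    fun j => h _ (by positivity)
  choose P y hP hPy using happ'
  have hsmall : Tendsto (fun j : ℕ => 1 / ((j : ℝ) + 1)) atTop (𝓝 0) :=
    tendsto_one_div_add_atTop_nhds_zero_nat
  have hconv : ∀ (i : ι) (u : ℕ → K i) (u0 : K i), (∀ j : ℕ, ‖u j - u0‖ < 1 / ((j : ℝ) + 1)) →
      Tendsto u atTop (𝓝 u0) := by
    intro i u u0 h
    rw [tendsto_iff_norm_sub_tendsto_zero]
    exact squeeze_zero (fun _ => norm_nonneg _) (fun j => (h j).le) hsmall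
  refine ⟨P, y, hP, fun i => ⟨fun m => ?_, N, fun j => ?_, (hd i).le⟩,
    fun i => hconv i _ _ fun j => (hPy j i).2⟩
  · simp only [coeff_map]
    exact hconv i _ _ fun j => (hPy j i).1 m
  · rw [natDegree_map, (hP j).deg]

lemma Appr.of_seq [Nonempty ι] (hm : ∀ i, (F i).Monic) (hd : ∀ i, (F i).natDegree = N)
    (hY : ∀ i, Y i ≠ 0) (P : ℕ → k[X]) (y : ℕ → k)
    (hP : ∀ j, (P j).Monic ∧ (P j).natDegree = N)
    (hc : ∀ i, CT atTop (fun j => (P j).map (φ i)) (F i))
    (hy : ∀ i, Tendsto (fun j => φ i (y j)) atTop (𝓝 (Y i)))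
    (hdisc : ∀ᶠ j in atTop, (P j).discr = d * y j ^ 2) : Appr φ N d F Y := by
  intro ε hε
  obtain ⟨i₀⟩ := ‹Nonempty ι›
  have ev1 : ∀ᶠ j in atTop, y j ≠ 0 := by
    have := (hy i₀).eventually_ne (hY i₀)
    filter_upwards [this] with j hj h
    exact hj (by rw [h, map_zero])
  have ev6 : ∀ᶠ j in atTop, ∀ i, ‖φ i (y j) - Y i‖ < ε := by
    rw [eventually_all]
    intro i
    have := (Metric.tendsto_nhds.mp (hy i)) ε hε
    simpa only [dist_eq_norm] using this
  have ev7 : ∀ᶠ j in atTop, ∀ i, ∀ m : Fin (N + 1),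
      ‖φ i ((P j).coeff m) - (F i).coeff m‖ < ε := by
    rw [eventually_all]
    intro i
    rw [eventually_all]
    intro m
    have := (Metric.tendsto_nhds.mp (hc i m)) ε hε
    simpa only [dist_eq_norm, coeff_map] using this
  obtain ⟨j, hj1, hj2, hj6, hj7⟩ := (ev1.and (hdisc.and (ev6.and ev7))).exists
  refine ⟨P j, y j, ⟨(hP j).1, (hP j).2, hj2, hj1⟩, fun i => ⟨fun m => ?_, hj6 i⟩⟩
  by_cases hm : m < N + 1
  · exact hj7 i ⟨m, hm⟩
  · have h1 : (P j).coeff m = 0 := by
      apply coeff_eq_zero_of_natDegree_lt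
      rw [(hP j).2]; omega
    have h2 : (F i).coeff m = 0 := by
      apply coeff_eq_zero_of_natDegree_lt
      rw [hd i]; omega
    rw [h1, h2, map_zero, sub_zero, norm_zero]
    exact hε

lemma PtK.tmove {K : Type*} [Field K] {N : ℕ} {d : K} (hd : d ≠ 0) {F : K[X]} {Y : K}
    (h : PtK N d F Y) {T : K[X]} (hT : (Bmat N F T).det ≠ 0) :
    PtK N d (charT N F T) (Y * (Bmat N F T).det) where
  monic := charT_monic _ _ _
  deg := natDegree_charT _ _ _
  disc := by
    rw [discr_charT h.monic h.deg (h.sep hd), h.disc]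
    ring
  ne := mul_ne_zero h.ne hT

lemma PtK.pmove {K : Type*} [Field K] [CharZero K] {N : ℕ} (hN : Even N) (hN0 : 0 < N) {d : K}
    (hd : d ≠ 0) {F : K[X]} {Y : K} (h : PtK N d F Y) {b : K} (hb : PMok N F b) :
    PtK N d (pmF N F b) (Y * pmc N F b) where
  monic := (pmF_monic h.monic h.deg b).1
  deg := (pmF_monic h.monic h.deg b).2
  disc := by
    rw [discr_pmF hN hN0 h.monic h.deg (h.sep hd) hb, h.disc]
    ring
  ne := mul_ne_zero h.ne hb.pmc_ne_zero

theorem Appr.tmove [Nonempty ι] (hdense : DenseRange (fun (q : k) (i : ι) => φ i q))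
    (hd0 : d ≠ 0) (hF : ∀ i, PtK N (φ i d) (F i) (Y i)) (h : Appr φ N d F Y)
    (T : ∀ i, (K i)[X]) (hT : ∀ i, (Bmat N (F i) (T i)).det ≠ 0) :
    Appr φ N d (fun i => charT N (F i) (T i)) (fun i => Y i * (Bmat N (F i) (T i)).det) := by
  obtain ⟨P, y, hP, hc, hy⟩ := h.seq (fun i => (hF i).monic) (fun i => (hF i).deg)
  obtain ⟨u, hu⟩ := exists_seq_poly hdense T
  refine Appr.of_seq (fun i => charT_monic _ _ _) (fun i => natDegree_charT _ _ _)
    (fun i => mul_ne_zero (hF i).ne (hT i)) (fun j => charT N (P j) (u j))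
    (fun j => y j * (Bmat N (P j) (u j)).det)
    (fun j => ⟨charT_monic _ _ _, natDegree_charT _ _ _⟩) ?_ ?_ ?_
  · intro i
    have h1 := ctb_charT (n := N) (hc i) (fun j => (hP j).monic.map _)
      (fun j => by rw [natDegree_map]; exact (hP j).deg) (hF i).monic (hF i).deg (hu i)
    intro m
    refine (h1 m).congr fun j => ?_
    dsimp only
    rw [map_charT (φ i) (hP j).monic]
  · intro i
    have h2 := tendsto_det_Bmat (n := N) (hc i) (fun j => (hP j).monic.map _)
      (fun j => by rw [natDegree_map]; exact (hP j).deg) (hF i).monic (hF i).deg (hu i)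
    refine ((hy i).mul h2).congr fun j => ?_
    rw [map_mul, map_det_Bmat (φ i) (hP j).monic]
  · refine Eventually.of_forall fun j => ?_
    rw [discr_charT (hP j).monic (hP j).deg ((hP j).sep hd0), (hP j).disc]
    ring

theorem Appr.pmove [Nonempty ι] (hdense : DenseRange (fun (q : k) (i : ι) => φ i q))
    (hN : Even N) (hN0 : 0 < N) (hd0 : d ≠ 0) (hF : ∀ i, PtK N (φ i d) (F i) (Y i))
    (h : Appr φ N d F Y) (b : ∀ i, K i) (hb : ∀ i, PMok N (F i) (b i)) :
    Appr φ N d (fun i => pmF N (F i) (b i)) (fun i => Y i * pmc N (F i) (b i)) := by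
  obtain ⟨P, y, hP, hc, hy⟩ := h.seq (fun i => (hF i).monic) (fun i => (hF i).deg)
  obtain ⟨u, hu⟩ := exists_seq hdense b
  have hm : ∀ i j, ((P j).map (φ i)).Monic := fun i j => (hP j).monic.map _
  have hdd : ∀ i j, ((P j).map (φ i)).natDegree = N := fun i j => by
    rw [natDegree_map]; exact (hP j).deg
  have hpF : ∀ i, CTB atTop (fun j => pmF N ((P j).map (φ i)) (φ i (u j)))
      (pmF N (F i) (b i)) := fun i =>
    ctb_pmF (hc i) (hm i) (hdd i) (hF i).monic (hF i).deg (hb i).det (hu i) (hb i).qg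
  have hpc : ∀ i, Tendsto (fun j => pmc N ((P j).map (φ i)) (φ i (u j))) atTop
      (𝓝 (pmc N (F i) (b i))) := fun i =>
    tendsto_pmc (hc i) (hm i) (hdd i) (hF i).monic (hF i).deg (hb i).det (hu i) (hb i).qg
      (hb i).res (hb i).qh
  refine Appr.of_seq (fun i => (pmF_monic (hF i).monic (hF i).deg _).1)
    (fun i => (pmF_monic (hF i).monic (hF i).deg _).2)
    (fun i => mul_ne_zero (hF i).ne (hb i).pmc_ne_zero) (fun j => pmF N (P j) (u j))
    (fun j => y j * pmc N (P j) (u j))
    (fun j => pmF_monic (hP j).monic (hP j).deg _) ?_ ?_ ?_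
  · intro i m
    refine ((hpF i).1 m).congr fun j => ?_
    dsimp only
    rw [map_pmF (φ i) (hP j).monic]
  · intro i
    refine ((hy i).mul (hpc i)).congr fun j => ?_
    rw [map_mul, map_pmc (φ i) (hP j).monic]
  · obtain ⟨i₀⟩ := ‹Nonempty ι›
    have e1 := (tendsto_det (tendsto_LmatO (hc i₀) (hm i₀) (hdd i₀) (hF i₀).monic
      (hF i₀).deg)).eventually_ne (hb i₀).det
    have e2 := (tendsto_resultant_hpolyO (hc i₀) (hm i₀) (hdd i₀) (hF i₀).monic (hF i₀).deg
      (hb i₀).det).eventually_ne (hb i₀).res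
    have e3 := (tendsto_qc (hc i₀).1 (hu i₀) N).eventually_ne (hb i₀).qg
    have e4 := (tendsto_qc (ctb_hpolyO (hc i₀) (hm i₀) (hdd i₀) (hF i₀).monic (hF i₀).deg
      (hb i₀).det).1 (hu i₀) N).eventually_ne (hb i₀).qh
    have e5 := (CT.resultant (hpF i₀).1 (ctb_hpolyO (hc i₀) (hm i₀) (hdd i₀) (hF i₀).monic
      (hF i₀).deg (hb i₀).det).1 N N).eventually_ne (hb i₀).resF
    filter_upwards [e1, e2, e3, e4, e5] with j k1 k2 k3 k4 k5
    have hok : PMok N (P j) (u j) := PMok.of_map (φ i₀) (hP j).monic ⟨k1, k2, k3, k4, k5⟩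
    rw [discr_pmF hN hN0 (hP j).monic (hP j).deg ((hP j).sep hd0) hok, (hP j).disc]
    ring

end

end Pool.Agent.Lib.MP_12adaf_nt
end

section

/-!
# Changes of generator are invertible, and generic changes of generator
-/

namespace Pool.Agent.Lib.MP_12adaf_nt

set_option linter.unusedSectionVars false
set_option linter.unusedVariables false

open Finset Polynomial Filter Topology

section

variable {K : Type*} [Field K] {N : ℕ} {f : K[X]}

lemma Bmat_X (hf : f.Monic) (hn : f.natDegree = N) : Bmat N f X = 1 := by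
  ext i j
  simp only [Bmat, Matrix.of_apply]
  have h1 : (X ^ (j : ℕ) : K[X]) %ₘ f = X ^ (j : ℕ) := by
    rw [modByMonic_eq_self_iff hf, degree_X_pow, degree_eq_natDegree hf.ne_zero, hn]
    exact_mod_cast j.2
  rw [h1, coeff_X_pow, Matrix.one_apply]
  by_cases h : i = j
  · rw [if_pos h, if_pos (by rw [h])]
  · rw [if_neg h, if_neg (fun h' => h (Fin.ext h'))]

lemma charT_X (hf : f.Monic) (hn : f.natDegree = N) (hsep : f.Separable) : charT N f X = f := by
  let L := AlgebraicClosure K
  let φ : K →+* L := algebraMap K L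
  obtain ⟨θ, hθ, h1⟩ := exists_nod φ hf hn hsep
  apply Polynomial.map_injective φ φ.injective
  rw [map_charT φ hf, map_X, h1, charT_nod hθ]
  simp

lemma injective_of_det {L : Type*} [Field L] {θ : Fin N → L} (hθ : Function.Injective θ)
    {T : L[X]} (hT : (Bmat N (nod θ) T).det ≠ 0) : Function.Injective fun i => T.eval (θ i) := by
  have h1 := det_Bmat_nod θ T
  rw [← Matrix.det_vandermonde_ne_zero_iff, ← h1]
  exact mul_ne_zero (Matrix.det_vandermonde_ne_zero_iff.mpr hθ) hT

/-- A change of generator can be undone. -/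
theorem exists_inv_T (hf : f.Monic) (hn : f.natDegree = N) (hsep : f.Separable) {T : K[X]}
    (hT : (Bmat N f T).det ≠ 0) : ∃ T' : K[X], charT N (charT N f T) T' = f ∧
      (Bmat N f T).det * (Bmat N (charT N f T) T').det = 1 := by
  let L := AlgebraicClosure K
  let φ : K →+* L := algebraMap K L
  obtain ⟨θ, hθ, h1⟩ := exists_nod φ hf hn hsep
  have hunit : IsUnit (Bmat N f T).det := isUnit_iff_ne_zero.mpr hT
  set x : Fin N → K := fun i => ((X : K[X]) %ₘ f).coeff i with hx
  set a : Fin N → K := (Bmat N f T)⁻¹.mulVec x with ha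
  have hBa : (Bmat N f T).mulVec a = x := by
    rw [ha, Matrix.mulVec_mulVec, Matrix.mul_nonsing_inv _ hunit, Matrix.one_mulVec]
  have hT' : (Bmat N (nod θ) (T.map φ)).det ≠ 0 := by
    rw [← h1, ← map_det_Bmat φ hf]
    exact (_root_.map_ne_zero φ).mpr hT
  have hinj := injective_of_det hθ hT'
  have hkey : ∀ i, ((toPoly a).map φ).eval ((T.map φ).eval (θ i)) = θ i := by
    intro i
    have h2 := vandermonde_mul_Bmat θ (T.map φ)
    have h3 : (Matrix.vandermonde θ).mulVec (fun k => φ (x k)) =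
        (Matrix.vandermonde fun i => (T.map φ).eval (θ i)).mulVec (fun k => φ (a k)) := by
      rw [← h2, ← Matrix.mulVec_mulVec]
      congr 1
      rw [← h1, map_Bmat φ hf]
      ext k
      rw [← hBa, RingHom.map_mulVec]
      rfl
    have h4 := congrFun h3 i
    simp only [Matrix.mulVec, dotProduct, Matrix.vandermonde_apply] at h4
    have h5 : ((toPoly a).map φ).eval ((T.map φ).eval (θ i)) =
        ∑ k : Fin N, (T.map φ).eval (θ i) ^ (k : ℕ) * φ (a k) := by
      rw [map_toPoly, toPoly, eval_finsetSum]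
      refine Finset.sum_congr rfl fun k _ => ?_
      rw [eval_mul, eval_C, eval_pow, eval_X, mul_comm]
    have h6 : ∑ k : Fin N, θ i ^ (k : ℕ) * φ (x k) = θ i := by
      have hlt : ((X : L[X]) %ₘ nod θ).degree < N := degree_modByMonic_nod_lt θ X
      have h7 := eval_of_degree_lt hlt (θ i)
      rw [eval_modByMonic_root _ (eval_nod_self θ i), eval_X] at h7
      conv_rhs => rw [h7]
      refine Finset.sum_congr rfl fun k _ => ?_
      rw [hx, ← coeff_map, map_modByMonic _ hf, map_X, h1]
    rw [h5, ← h4, h6]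
  refine ⟨toPoly a, ?_, ?_⟩
  · apply Polynomial.map_injective φ φ.injective
    rw [map_charT φ (charT_monic _ _ _), map_charT φ hf, h1, charT_nod hθ, charT_nod hinj]
    congr 1
    ext i
    exact hkey i
  · apply φ.injective
    rw [map_mul, map_one, map_det_Bmat φ hf, map_det_Bmat φ (charT_monic _ _ _), map_charT φ hf,
      h1, charT_nod hθ]
    have e1 := det_Bmat_nod θ (T.map φ)
    have e2 := det_Bmat_nod (fun i => (T.map φ).eval (θ i)) ((toPoly a).map φ)
    rw [← e1] at e2
    have e3 : (Matrix.vandermonde fun i => ((toPoly a).map φ).eval ((T.map φ).eval (θ i))) =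
        Matrix.vandermonde θ := by
      congr 1
      ext i
      exact hkey i
    rw [e3, mul_assoc] at e2
    have h0 : (Matrix.vandermonde θ).det ≠ 0 := Matrix.det_vandermonde_ne_zero_iff.mpr hθ
    exact mul_left_cancel₀ h0 (e2.trans (mul_one _).symm)

end

/-- The conditions on the poles which are needed for the move. -/
def GoodG {K : Type*} [Field K] (N : ℕ) (g : K[X]) : Prop :=
  (LmatO N g).det ≠ 0 ∧ resultant g (hpolyO N g) N N ≠ 0

section

variable {K Cl : Type*} [Field K] [Field Cl] [Algebra K Cl] [CharZero K] [CharZero Cl]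
  {J : Type*} [Fintype J] [DecidableEq J] {N : ℕ} {x c : J → Cl} {g : K[X]}

lemma monic_of_nod (hgx : g.map (algebraMap K Cl) = nod x) : g.Monic := by
  have := nod_monic x
  rw [← hgx] at this
  exact ((algebraMap K Cl).injective.monic_map_iff).mpr this

lemma natDegree_of_nod (hgx : g.map (algebraMap K Cl) = nod x) :
    g.natDegree = Fintype.card J := by
  have := natDegree_nod x
  rw [← hgx, natDegree_map] at this
  exact this

lemma separable_of_nod (hgx : g.map (algebraMap K Cl) = nod x) (hx : Function.Injective x) :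
    g.Separable := by
  have := nod_separable hx
  rw [← hgx, separable_map] at this
  exact this

theorem good_of_nod (hJ : Fintype.card J = N)
    (hgx : g.map (algebraMap K Cl) = nod x) (hx : Function.Injective x)
    (hnd : ONondeg x) (hc : OCond x c) :
    (LmatO N g).det ≠ 0 ∧ (hpolyO N g).map (algebraMap K Cl) = hR x c ∧
      ∀ t : K, (fpolyO N g t).map (algebraMap K Cl) = fO x c (algebraMap K Cl t) := by
  set φ : K →+* Cl := algebraMap K Cl with hφ
  have hgm : g.Monic := monic_of_nod hgx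
  have hL' : (LmatO N (nod x)).det ≠ 0 := LmatO_det_ne_zero hx hnd hJ
  have hL : (LmatO N g).det ≠ 0 := by
    intro h
    apply hL'
    rw [← hgx, map_LmatO φ hgm]
    rw [show ((LmatO N g).map φ).det = φ (LmatO N g).det from by rw [RingHom.map_det]; rfl, h,
      map_zero]
  have hcc : (fun j => (cpolyO N (nod x)).eval (x j)) = c :=
    OCond.unique hnd (OCond_cpolyO hx hJ hL') hc
  refine ⟨hL, ?_, fun t => ?_⟩
  · rw [map_hpolyO φ hgm, hgx, hpolyO_nod hx, hcc]
  · rw [map_fpolyO φ hgm, hgx, fpolyO_nod hx, hcc]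

theorem goodG_of_nod (hJ : Fintype.card J = N)
    (hgx : g.map (algebraMap K Cl) = nod x) (hx : Function.Injective x)
    (hnd : ONondeg x) (hc : OCond x c) (hc0 : ∀ j, c j ≠ 0) : GoodG N g := by
  set φ : K →+* Cl := algebraMap K Cl with hφ
  have hgm : g.Monic := monic_of_nod hgx
  have hgN : g.natDegree = N := (natDegree_of_nod hgx).trans hJ
  obtain ⟨hL, hh, -⟩ := good_of_nod hJ hgx hx hnd hc
  refine ⟨hL, ?_⟩
  intro h
  have h1 : resultant (nod x) (hR x c) N N = 0 := by
    rw [← hgx, ← hh, resultant_map_map, h, map_zero]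
  rw [resultant_nod x hJ (by rw [← hh]; exact natDegree_map_le' φ _ (natDegree_hpolyO_le hgm hgN)),
    Finset.prod_eq_zero_iff] at h1
  obtain ⟨j, _, hj⟩ := h1
  rw [eval_hR_self] at hj
  exact (mul_ne_zero (hc0 j) (eval_derivative_nod_ne_zero x hx j)) hj

end

/-- A generic change of generator. -/
theorem exists_good_T {K : Type*} [Field K] [CharZero K] {N : ℕ} (hN : Even N) {f : K[X]}
    (hf : f.Monic) (hn : f.natDegree = N) (hsep : f.Separable) :
    ∃ T : K[X], (Bmat N f T).det ≠ 0 ∧ GoodG N (charT N f T) := by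
  classical
  let L := AlgebraicClosure K
  let φ : K →+* L := algebraMap K L
  have : CharZero L := charZero_of_injective_algebraMap (algebraMap K L).injective
  obtain ⟨θ, hθ, h1⟩ := exists_nod φ hf hn hsep
  have e1 : ∀ v : Fin N → L, MvPolynomial.eval v (cert2
      (fun i : Fin N => (MvPolynomial.X i : MvPolynomial (Fin N) L))) = cert2 v := by
    intro v
    rw [map_cert2]
    congr 1
    ext i
    simp
  have n1 : cert2 (fun i : Fin N => (MvPolynomial.X i : MvPolynomial (Fin N) L)) ≠ 0 := by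
    intro h
    have h4 := e1 fun i => ((i : ℕ) : L)
    rw [h, map_zero] at h4
    exact cert2_nat_ne_zero (L := L) (k := fun i : Fin N => (i : ℕ))
      Fin.val_injective (by rwa [Fintype.card_fin]) h4.symm
  obtain ⟨P, hP⟩ := exists_generic (K := K) hθ n1
  rw [e1] at hP
  obtain ⟨hui, hund, c, hc, hc0⟩ := even_of_cert hP
  have haev : (fun i => aeval (θ i) P) = fun i => (P.map φ).eval (θ i) := by
    ext i
    rw [aeval_def, eval_map]
  have hch : (charT N f P).map φ = nod fun i => aeval (θ i) P := by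
    rw [map_charT φ hf, h1, charT_nod hθ, haev]
  refine ⟨P, ?_, goodG_of_nod (by simp) hch hui hund hc hc0⟩
  intro h
  have h2 := det_Bmat_nod θ (P.map φ)
  rw [← h1, ← map_det_Bmat φ hf, h, map_zero, mul_zero] at h2
  rw [haev] at hui
  exact (Matrix.det_vandermonde_ne_zero_iff.mpr hui) h2.symm

end Pool.Agent.Lib.MP_12adaf_nt
end

section

/-!
# Chains of moves
-/

namespace Pool.Agent.Lib.MP_12adaf_nt

set_option linter.unusedSectionVars false
set_option linter.unusedVariables false

open Finset Polynomial Filter Topology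

/-- `Rch N F G κ`: the polynomial `G` is obtained from `F` by a chain of changes of generator and
moves; the square root of the discriminant is multiplied by `κ`. -/
inductive Rch {K : Type*} [Field K] [CharZero K] (N : ℕ) (F : K[X]) : K[X] → K → Prop
  | refl : Rch N F F 1
  | tmove {G : K[X]} {κ : K} (T : K[X]) : Rch N F G κ → (Bmat N G T).det ≠ 0 →
      Rch N F (charT N G T) (κ * (Bmat N G T).det)
  | pmove {G : K[X]} {κ : K} (b : K) : Rch N F G κ → PMok N G b →
      Rch N F (pmF N G b) (κ * pmc N G b)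

namespace Rch

variable {K : Type*} [Field K] [CharZero K] {N : ℕ} {F G H : K[X]} {κ κ' : K}

lemma trans (h : Rch N F G κ) (h' : Rch N G H κ') : Rch N F H (κ * κ') := by
  induction h' with
  | refl => rwa [mul_one]
  | tmove T _ hT ih => rw [← mul_assoc]; exact ih.tmove T hT
  | pmove b _ hb ih => rw [← mul_assoc]; exact ih.pmove b hb

lemma info (hN : Even N) (hN0 : 0 < N) (hF : F.Monic) (hd : F.natDegree = N)
    (hs : F.Separable) (h : Rch N F G κ) :
    G.Monic ∧ G.natDegree = N ∧ G.Separable ∧ κ ≠ 0 ∧ G.discr = F.discr * κ ^ 2 := by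
  have hF0 := discr_ne_zero_of_separable hF hs
  induction h with
  | refl => exact ⟨hF, hd, hs, one_ne_zero, by ring⟩
  | @tmove G' κ₁ T _ hT ih =>
    obtain ⟨h1, h2, h3, h4, h5⟩ := ih
    have h6 := discr_charT h1 h2 h3 T
    have h7 : (charT N G' T).discr ≠ 0 := by
      rw [h6, h5]
      exact mul_ne_zero (mul_ne_zero hF0 (pow_ne_zero 2 h4)) (pow_ne_zero 2 hT)
    refine ⟨charT_monic _ _ _, natDegree_charT _ _ _,
      separable_of_discr_ne_zero (charT_monic _ _ _) h7, mul_ne_zero h4 hT, ?_⟩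
    rw [h6, h5]; ring
  | @pmove G' κ₁ b _ hb ih =>
    obtain ⟨h1, h2, h3, h4, h5⟩ := ih
    have h6 := discr_pmF hN hN0 h1 h2 h3 hb
    have h7 : (pmF N G' b).discr ≠ 0 := by
      rw [h6, h5]
      exact mul_ne_zero (mul_ne_zero hF0 (pow_ne_zero 2 h4)) (pow_ne_zero 2 hb.pmc_ne_zero)
    have h8 := pmF_monic h1 h2 b
    refine ⟨h8.1, h8.2, separable_of_discr_ne_zero h8.1 h7, mul_ne_zero h4 hb.pmc_ne_zero, ?_⟩
    rw [h6, h5]; ring

lemma monic (hF : F.Monic) (hd : F.natDegree = N) (h : Rch N F G κ) :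
    G.Monic ∧ G.natDegree = N := by
  induction h with
  | refl => exact ⟨hF, hd⟩
  | tmove T _ hT ih => exact ⟨charT_monic _ _ _, natDegree_charT _ _ _⟩
  | pmove b _ hb ih => exact pmF_monic ih.1 ih.2 b

lemma map {L : Type*} [Field L] [CharZero L] (φ : K →+* L) (hF : F.Monic)
    (hd : F.natDegree = N) (h : Rch N F G κ) : Rch N (F.map φ) (G.map φ) (φ κ) := by
  induction h with
  | refl => rw [map_one]; exact refl
  | tmove T h1 hT ih =>
    have hm := h1.monic hF hd
    rw [map_charT φ hm.1, map_mul, map_det_Bmat φ hm.1]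
    refine ih.tmove _ ?_
    rw [← map_det_Bmat φ hm.1]
    exact (_root_.map_ne_zero φ).mpr hT
  | pmove b h1 hb ih =>
    have hm := h1.monic hF hd
    rw [map_pmF φ hm.1, map_mul, map_pmc φ hm.1]
    exact ih.pmove _ (hb.map φ hm.1)

end Rch

section

variable {k : Type*} [Field k] [CharZero k] {ι : Type*} [Fintype ι] [DecidableEq ι] [Nonempty ι]
  {K : ι → Type*} [∀ i, NormedField (K i)] [∀ i, CharZero (K i)] {φ : ∀ i, k →+* K i}
  (hdense : DenseRange (fun (q : k) (i : ι) => φ i q)) {N : ℕ} {d : k} (hd0 : d ≠ 0)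

include hdense hd0

lemma Appr.tmove_at {F : ∀ i, (K i)[X]} {Y : ∀ i, K i}
    (hF : ∀ i, PtK N (φ i d) (F i) (Y i)) (h : Appr φ N d F Y) (i₀ : ι) (T : (K i₀)[X])
    (hT : (Bmat N (F i₀) T).det ≠ 0) :
    Appr φ N d (Function.update F i₀ (charT N (F i₀) T))
      (Function.update Y i₀ (Y i₀ * (Bmat N (F i₀) T).det)) := by
  have hφd : ∀ i, φ i d ≠ 0 := fun i => (_root_.map_ne_zero (φ i)).mpr hd0
  have h1 := h.tmove hdense hd0 hF (Function.update (fun i => X) i₀ T) (by
    intro i
    by_cases hi : i = i₀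
    · subst hi
      rwa [Function.update_self]
    · rw [Function.update_of_ne hi, Bmat_X (hF i).monic (hF i).deg, Matrix.det_one]
      exact one_ne_zero)
  have e1 : (fun i => charT N (F i) (Function.update (fun i => (X : (K i)[X])) i₀ T i)) =
      Function.update F i₀ (charT N (F i₀) T) := by
    funext i
    by_cases hi : i = i₀
    · subst hi
      rw [Function.update_self, Function.update_self]
    · rw [Function.update_of_ne hi, Function.update_of_ne hi,
        charT_X (hF i).monic (hF i).deg ((hF i).sep (hφd i))]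
  have e2 : (fun i => Y i * (Bmat N (F i) (Function.update (fun i => (X : (K i)[X])) i₀ T i)).det) =
      Function.update Y i₀ (Y i₀ * (Bmat N (F i₀) T).det) := by
    funext i
    by_cases hi : i = i₀
    · subst hi
      rw [Function.update_self, Function.update_self]
    · rw [Function.update_of_ne hi, Function.update_of_ne hi,
        Bmat_X (hF i).monic (hF i).deg, Matrix.det_one, mul_one]
  rwa [e1, e2] at h1

lemma Appr.pmove_at (hN : Even N) (hN0 : 0 < N) {F : ∀ i, (K i)[X]} {Y : ∀ i, K i}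
    (hF : ∀ i, PtK N (φ i d) (F i) (Y i)) (h : Appr φ N d F Y) (i₀ : ι) (b : K i₀)
    (hb : PMok N (F i₀) b) :
    Appr φ N d (Function.update F i₀ (pmF N (F i₀) b))
      (Function.update Y i₀ (Y i₀ * pmc N (F i₀) b)) := by
  have hφd : ∀ i, φ i d ≠ 0 := fun i => (_root_.map_ne_zero (φ i)).mpr hd0
  have hgen : ∀ i, ∃ T T' : (K i)[X], (Bmat N (F i) T).det ≠ 0 ∧ GoodG N (charT N (F i) T) ∧
      charT N (charT N (F i) T) T' = F i ∧
      (Bmat N (F i) T).det * (Bmat N (charT N (F i) T) T').det = 1 := by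
    intro i
    obtain ⟨T, h1, h2⟩ := exists_good_T hN (hF i).monic (hF i).deg ((hF i).sep (hφd i))
    obtain ⟨T', h3, h4⟩ := exists_inv_T (hF i).monic (hF i).deg ((hF i).sep (hφd i)) h1
    exact ⟨T, T', h1, h2, h3, h4⟩
  choose T T' hT hTG hTT hTd using hgen
  -- first change of generators
  set T1 : ∀ i, (K i)[X] := Function.update T i₀ X with hT1
  have hT1det : ∀ i, (Bmat N (F i) (T1 i)).det ≠ 0 := by
    intro i
    by_cases hi : i = i₀
    · subst hi
      rw [hT1, Function.update_self, Bmat_X (hF i).monic (hF i).deg, Matrix.det_one]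
      exact one_ne_zero
    · rw [hT1, Function.update_of_ne hi]; exact hT i
  have h1 := h.tmove hdense hd0 hF T1 hT1det
  have hF1 : ∀ i, PtK N (φ i d) (charT N (F i) (T1 i)) (Y i * (Bmat N (F i) (T1 i)).det) :=
    fun i => (hF i).tmove (hφd i) (hT1det i)
  set F1 : ∀ i, (K i)[X] := fun i => charT N (F i) (T1 i) with hF1def
  set Y1 : ∀ i, K i := fun i => Y i * (Bmat N (F i) (T1 i)).det with hY1def
  have hF10 : F1 i₀ = F i₀ := by
    rw [hF1def]
    dsimp only
    rw [hT1, Function.update_self, charT_X (hF i₀).monic (hF i₀).deg ((hF i₀).sep (hφd i₀))]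
  have hY10 : Y1 i₀ = Y i₀ := by
    rw [hY1def]
    dsimp only
    rw [hT1, Function.update_self, Bmat_X (hF i₀).monic (hF i₀).deg, Matrix.det_one, mul_one]
  have hF1i : ∀ i, i ≠ i₀ → F1 i = charT N (F i) (T i) := by
    intro i hi
    rw [hF1def]
    dsimp only
    rw [hT1, Function.update_of_ne hi]
  have hY1i : ∀ i, i ≠ i₀ → Y1 i = Y i * (Bmat N (F i) (T i)).det := by
    intro i hi
    rw [hY1def]
    dsimp only
    rw [hT1, Function.update_of_ne hi]
  -- the move
  set b1 : ∀ i, K i := Function.update (fun i => 0) i₀ b with hb1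
  have hok : ∀ i, PMok N (F1 i) (b1 i) := by
    intro i
    by_cases hi : i = i₀
    · subst hi
      rw [hb1, Function.update_self, hF10]
      exact hb
    · rw [hb1, Function.update_of_ne hi]
      have h2 := hTG i
      rw [← hF1i i hi] at h2
      exact PMok_zero (hF1 i).monic (hF1 i).deg h2.1 h2.2
  have h2 := h1.pmove hdense hN hN0 hd0 hF1 b1 hok
  have hF2 : ∀ i, PtK N (φ i d) (pmF N (F1 i) (b1 i)) (Y1 i * pmc N (F1 i) (b1 i)) :=
    fun i => (hF1 i).pmove hN hN0 (hφd i) (hok i)
  set F2 : ∀ i, (K i)[X] := fun i => pmF N (F1 i) (b1 i) with hF2def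
  set Y2 : ∀ i, K i := fun i => Y1 i * pmc N (F1 i) (b1 i) with hY2def
  have hF20 : F2 i₀ = pmF N (F i₀) b := by
    rw [hF2def]
    dsimp only
    rw [hb1, Function.update_self, hF10]
  have hY20 : Y2 i₀ = Y i₀ * pmc N (F i₀) b := by
    rw [hY2def]
    dsimp only
    rw [hb1, Function.update_self, hF10, hY10]
  have hF2i : ∀ i, i ≠ i₀ → F2 i = charT N (F i) (T i) := by
    intro i hi
    rw [hF2def]
    dsimp only
    rw [hb1, Function.update_of_ne hi, pmF_zero, hF1i i hi]
  have hY2i : ∀ i, i ≠ i₀ → Y2 i = Y i * (Bmat N (F i) (T i)).det := by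
    intro i hi
    have h3 := (hok i).res
    rw [hY2def]
    dsimp only
    rw [hb1, Function.update_of_ne hi, pmc_zero (hF1 i).monic (hF1 i).deg h3, mul_one, hY1i i hi]
  -- back
  set T3 : ∀ i, (K i)[X] := Function.update T' i₀ X with hT3
  have hT3det : ∀ i, (Bmat N (F2 i) (T3 i)).det ≠ 0 := by
    intro i
    by_cases hi : i = i₀
    · subst hi
      rw [hT3, Function.update_self, Bmat_X (hF2 i).monic (hF2 i).deg, Matrix.det_one]
      exact one_ne_zero
    · rw [hT3, Function.update_of_ne hi, hF2i i hi]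
      intro h3
      have h4 := hTd i
      rw [h3, mul_zero] at h4
      exact zero_ne_one h4
  have h3 := h2.tmove hdense hd0 hF2 T3 hT3det
  have e1 : (fun i => charT N (F2 i) (T3 i)) = Function.update F i₀ (pmF N (F i₀) b) := by
    funext i
    by_cases hi : i = i₀
    · subst hi
      rw [hT3, Function.update_self, Function.update_self, charT_X (hF2 i).monic (hF2 i).deg
        ((hF2 i).sep (hφd i))]
      exact hF20
    · rw [hT3, Function.update_of_ne hi, Function.update_of_ne hi, hF2i i hi, hTT i]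
  have e2 : (fun i => Y2 i * (Bmat N (F2 i) (T3 i)).det) =
      Function.update Y i₀ (Y i₀ * pmc N (F i₀) b) := by
    funext i
    by_cases hi : i = i₀
    · subst hi
      rw [hT3, Function.update_self, Function.update_self, Bmat_X (hF2 i).monic (hF2 i).deg,
        Matrix.det_one, mul_one, hY20]
    · rw [hT3, Function.update_of_ne hi, Function.update_of_ne hi, hF2i i hi, hY2i i hi,
        mul_assoc, hTd i, mul_one]
  rwa [e1, e2] at h3

/-- Chains of moves at one place. -/
theorem Appr.rch (hN : Even N) (hN0 : 0 < N) {F : ∀ i, (K i)[X]} {Y : ∀ i, K i}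
    (hF : ∀ i, PtK N (φ i d) (F i) (Y i)) (h : Appr φ N d F Y) (i₀ : ι) {G : (K i₀)[X]}
    {κ : K i₀} (hR : Rch N (F i₀) G κ) :
    PtK N (φ i₀ d) G (Y i₀ * κ) ∧
      Appr φ N d (Function.update F i₀ G) (Function.update Y i₀ (Y i₀ * κ)) := by
  have hφd : ∀ i, φ i d ≠ 0 := fun i => (_root_.map_ne_zero (φ i)).mpr hd0
  have hupd : ∀ (G : (K i₀)[X]) (κ : K i₀), PtK N (φ i₀ d) G (Y i₀ * κ) →
      ∀ i, PtK N (φ i d) (Function.update F i₀ G i) (Function.update Y i₀ (Y i₀ * κ) i) := by
    intro G κ hG i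
    by_cases hi : i = i₀
    · subst hi
      rw [Function.update_self, Function.update_self]; exact hG
    · rw [Function.update_of_ne hi, Function.update_of_ne hi]; exact hF i
  induction hR with
  | refl =>
    rw [mul_one, Function.update_eq_self, Function.update_eq_self]
    exact ⟨hF i₀, h⟩
  | tmove T _ hT ih =>
    obtain ⟨h1, h2⟩ := ih
    rw [← mul_assoc]
    refine ⟨h1.tmove (hφd i₀) hT, ?_⟩
    have h3 := h2.tmove_at hdense hd0 (hupd _ _ h1) i₀ T (by rwa [Function.update_self])
    rwa [Function.update_self, Function.update_self, Function.update_idem,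
      Function.update_idem] at h3
  | pmove b _ hb ih =>
    obtain ⟨h1, h2⟩ := ih
    rw [← mul_assoc]
    refine ⟨h1.pmove hN hN0 (hφd i₀) hb, ?_⟩
    have h3 := h2.pmove_at hdense hd0 hN hN0 (hupd _ _ h1) i₀ b (by rwa [Function.update_self])
    rwa [Function.update_self, Function.update_self, Function.update_idem,
      Function.update_idem] at h3

/-- Chains of moves at all places. -/
theorem Appr.rch_all (hN : Even N) (hN0 : 0 < N) {A F : ∀ i, (K i)[X]} {Z Y κ : ∀ i, K i}
    (hA : ∀ i, PtK N (φ i d) (A i) (Z i)) (h : Appr φ N d A Z)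
    (hR : ∀ i, Rch N (A i) (F i) (κ i)) (hY : ∀ i, Y i = Z i * κ i) : Appr φ N d F Y := by
  have key : ∀ s : Finset ι, (∀ i, PtK N (φ i d) (if i ∈ s then F i else A i)
        (if i ∈ s then Y i else Z i)) ∧ Appr φ N d (fun i => if i ∈ s then F i else A i)
        (fun i => if i ∈ s then Y i else Z i) := by
    intro s
    induction s using Finset.induction_on with
    | empty => simpa using ⟨hA, h⟩
    | insert i₀ s hi₀ ih =>
      obtain ⟨h1, h2⟩ := ih
      have h3 := h2.rch hdense hd0 hN hN0 h1 i₀ (G := F i₀) (κ := κ i₀) (by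
        simp only [hi₀, if_false]; exact hR i₀)
      simp only [hi₀, if_false] at h3
      rw [← hY] at h3
      have e1 : Function.update (fun i => if i ∈ s then F i else A i) i₀ (F i₀) =
          fun i => if i ∈ insert i₀ s then F i else A i := by
        funext i
        by_cases hi : i = i₀
        · subst hi
          rw [Function.update_self, if_pos (Finset.mem_insert_self i s)]
        · rw [Function.update_of_ne hi]
          simp only [Finset.mem_insert, hi, false_or]
      have e2 : Function.update (fun i => if i ∈ s then Y i else Z i) i₀ (Y i₀) =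
          fun i => if i ∈ insert i₀ s then Y i else Z i := by
        funext i
        by_cases hi : i = i₀
        · subst hi
          rw [Function.update_self, if_pos (Finset.mem_insert_self i s)]
        · rw [Function.update_of_ne hi]
          simp only [Finset.mem_insert, hi, false_or]
      refine ⟨fun i => ?_, ?_⟩
      · by_cases hi : i = i₀
        · subst hi
          simp only [Finset.mem_insert_self, if_true]
          exact h3.1
        · simp only [Finset.mem_insert, hi, false_or]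
          exact h1 i
      · rw [← e1, ← e2]; exact h3.2
  have := (key Finset.univ).2
  simpa using this

end

end Pool.Agent.Lib.MP_12adaf_nt
end

section

/-!
# The polynomials `f (X ^ 2)`
-/

namespace Pool.Agent.Lib.MP_12adaf_nt

set_option linter.unusedSectionVars false
set_option linter.unusedVariables false

open Finset Polynomial Filter Topology

/-- A monic polynomial over an algebraically closed field is a product over its roots. -/
lemma exists_nod_any {L : Type*} [Field L] [IsAlgClosed L] {n : ℕ} {f : L[X]} (hf : f.Monic)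
    (hn : f.natDegree = n) : ∃ θ : Fin n → L, f = nod θ := by
  have hs : f.Splits := IsAlgClosed.splits f
  have h1 : f = (f.roots.map (fun a => X - C a)).prod := hs.eq_prod_roots_of_monic hf
  have h2 : Multiset.card f.roots = n := by rw [← hs.natDegree_eq_card_roots, hn]
  obtain ⟨l, hl⟩ := Quot.exists_rep f.roots
  have hl' : f.roots = (l : Multiset L) := hl.symm
  have hlen : l.length = n := by rw [← h2, hl']; rfl
  subst hlen
  refine ⟨l.get, ?_⟩
  rw [h1, nod, hl', Multiset.map_coe, Multiset.prod_coe, ← List.prod_ofFn]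
  congr 1
  apply List.ext_get
  · simp
  · intro i h3 h4
    simp

theorem discr_expand_two {K : Type*} [Field K] {m : ℕ} {f : K[X]} (hf : f.Monic)
    (hm : f.natDegree = m) :
    (expand K 2 f).discr = (-4) ^ m * f.coeff 0 * f.discr ^ 2 := by
  classical
  wlog hK : IsAlgClosed K generalizing K
  · let L := AlgebraicClosure K
    let φ : K →+* L := algebraMap K L
    apply φ.injective
    have h1 := this (K := L) (f := f.map φ) (hf.map φ) (by rw [natDegree_map, hm]) inferInstance
    rw [← map_expand, discr_map_monic φ (hf.expand (by norm_num)), discr_map_monic φ hf,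
      coeff_map] at h1
    rw [h1, map_mul, map_mul, map_pow, map_pow, map_neg, map_ofNat]
  obtain ⟨r, hr⟩ := exists_nod_any hf hm
  have hsq : ∀ i, ∃ s : K, s ^ 2 = r i := fun i => IsAlgClosed.exists_pow_nat_eq _ (by norm_num)
  choose s hs using hsq
  have hFm : (expand K 2 f).Monic := hf.expand (by norm_num)
  have hFd : (expand K 2 f).natDegree = 2 * m := by rw [natDegree_expand, hm, mul_comm]
  have hF : expand K 2 f = nod (Sum.elim s fun i => -s i) := by
    rw [nod_sum, hr, nod, nod, nod, map_prod, ← Finset.prod_mul_distrib]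
    refine Finset.prod_congr rfl fun i _ => ?_
    rw [map_sub, expand_X, expand_C, ← hs i, C_pow, C_neg]
    ring
  have e1 := resultant_deriv_monic hFm hFd
  have hd : (derivative (expand K 2 f)).natDegree ≤ 2 * m - 1 := by
    have := natDegree_derivative_le (expand K 2 f)
    rwa [hFd] at this
  have e2 : resultant (expand K 2 f) (derivative (expand K 2 f)) (2 * m) (2 * m - 1) =
      ∏ i, (-4 * r i * (derivative f).eval (r i) ^ 2) := by
    conv_lhs => rw [show resultant (expand K 2 f) (derivative (expand K 2 f)) (2 * m) (2 * m - 1)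
      = resultant (nod (Sum.elim s fun i => -s i)) (derivative (expand K 2 f)) (2 * m)
        (2 * m - 1) from by rw [← hF]]
    rw [resultant_nod _ (by simp; ring) hd, Fintype.prod_sum_type, ← Finset.prod_mul_distrib]
    refine Finset.prod_congr rfl fun i _ => ?_
    rw [derivative_expand]
    simp only [Sum.elim_inl, Sum.elim_inr, eval_mul, expand_eval, neg_sq, hs i, eval_natCast,
      eval_pow, eval_X]
    rw [← hs i]
    push_cast
    ring
  have e3 := resultant_deriv_monic hf hm
  have hd' : (derivative f).natDegree ≤ m - 1 := by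
    have := natDegree_derivative_le f
    rwa [hm] at this
  have e4 : resultant f (derivative f) m (m - 1) = ∏ i, (derivative f).eval (r i) := by
    conv_lhs => rw [show resultant f (derivative f) m (m - 1) = resultant (nod r) (derivative f) m
      (m - 1) from by rw [← hr]]
    rw [resultant_nod _ (by simp) hd']
  have e5 : ∏ i, r i = (-1) ^ m * f.coeff 0 := by
    rw [coeff_zero_eq_eval_zero, hr, eval_nod]
    simp only [zero_sub]
    rw [Finset.prod_neg, Finset.card_univ, Fintype.card_fin, ← mul_assoc, ← pow_add, ← two_mul,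
      pow_mul]
    simp
  rw [e2, Finset.prod_mul_distrib, Finset.prod_mul_distrib, Finset.prod_const, Finset.card_univ,
    Fintype.card_fin, Finset.prod_pow, ← e4, e3, e5, mul_pow, ← pow_mul, mul_comm _ 2,
    pow_mul _ 2, neg_one_sq, one_pow, one_mul] at e1
  have e6 : ((-1 : K)) ^ (2 * m * (2 * m - 1) / 2) = (-1) ^ m := by
    rcases m with _ | m
    · simp
    · have : 2 * (m + 1) * (2 * (m + 1) - 1) / 2 = (m + 1) * (2 * m + 1) := by
        rw [show 2 * (m + 1) * (2 * (m + 1) - 1) = 2 * ((m + 1) * (2 * m + 1)) by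
          rw [show 2 * (m + 1) - 1 = 2 * m + 1 by omega]; ring]
        exact Nat.mul_div_cancel_left _ (by norm_num)
      rw [this, pow_mul', Odd.neg_one_pow ⟨m, rfl⟩]
  rw [e6] at e1
  have e7 : ((-1 : K) ^ m) ≠ 0 := pow_ne_zero _ (neg_ne_zero.mpr one_ne_zero)
  apply mul_left_cancel₀ e7
  rw [← e1]
  ring

section

variable {k : Type*} [Field k] [CharZero k] {ι : Type*} [Fintype ι] [Nonempty ι]
  {K : ι → Type*} [∀ i, NormedField (K i)] [∀ i, CharZero (K i)] {φ : ∀ i, k →+* K i}

lemma CT.expand {α : Type*} {l : Filter α} {K : Type*} [NormedField K] {F : α → K[X]} {P : K[X]}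
    (hF : CT l F P) : CT l (fun a => Polynomial.expand K 2 (F a)) (Polynomial.expand K 2 P) := by
  intro i
  simp only [coeff_expand (show 0 < 2 by norm_num)]
  split_ifs
  · exact hF _
  · exact tendsto_const_nhds

/-- Local points `f (X ^ 2)` are approximable. -/
theorem appr_expand (hdense : DenseRange (fun (q : k) (i : ι) => φ i q)) {m : ℕ} (hm : 0 < m)
    {d : k} (hd : d ≠ 0) (f : ∀ i, (K i)[X]) (hf : ∀ i, (f i).Monic)
    (hfm : ∀ i, (f i).natDegree = m) (Y : ∀ i, K i)
    (h : ∀ i, PtK (2 * m) (φ i d) (expand (K i) 2 (f i)) (Y i)) :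
    Appr φ (2 * m) d (fun i => expand (K i) 2 (f i)) Y := by
  have hφd : ∀ i, φ i d ≠ 0 := fun i => (_root_.map_ne_zero (φ i)).mpr hd
  have hdisc : ∀ i, (-4) ^ m * (f i).coeff 0 * (f i).discr ^ 2 = φ i d * Y i ^ 2 := fun i => by
    rw [← discr_expand_two (hf i) (hfm i), (h i).disc]
  have hD : ∀ i, (f i).discr ≠ 0 := by
    intro i h0
    have h1 := hdisc i
    rw [h0, zero_pow two_ne_zero, mul_zero] at h1
    exact mul_ne_zero (hφd i) (pow_ne_zero 2 (h i).ne) h1.symm
  set z0 : ∀ i, K i := fun i => Y i / (2 ^ m * (f i).discr) with hz0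
  have h2 : ∀ i, (2 : K i) ^ m ≠ 0 := fun i => pow_ne_zero _ two_ne_zero
  have hf0 : ∀ i, (f i).coeff 0 = (-1) ^ m * φ i d * z0 i ^ 2 := by
    intro i
    have h1 := hdisc i
    have h3 : ((-4 : K i)) ^ m = (-1) ^ m * (2 ^ m) ^ 2 := by
      rw [← pow_mul, mul_comm m 2, pow_mul, ← mul_pow]; norm_num
    have h4 : ((-1 : K i) ^ m) * (-1) ^ m = 1 := by rw [← mul_pow]; simp
    have hDi := hD i
    have h2i := h2 i
    rw [hz0]
    dsimp only
    rw [h3] at h1
    field_simp
    linear_combination (-1 : K i) ^ m * h1 -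
      (f i).coeff 0 * (f i).discr ^ 2 * ((2 : K i) ^ m) ^ 2 * h4
  obtain ⟨z, hz⟩ := exists_seq hdense z0
  choose uT huT using fun l : Fin m => exists_seq hdense fun i => (f i).coeff l
  let a : ℕ → Fin m → k := fun j l => if (l : ℕ) = 0 then (-1) ^ m * d * z j ^ 2 else uT l j
  let fq : ℕ → k[X] := fun j => X ^ m + toPoly (a j)
  have hfq : ∀ j, (fq j).Monic ∧ (fq j).natDegree = m := by
    intro j
    have h5 : (toPoly (a j)).degree < (X ^ m : k[X]).degree := by
      rw [degree_X_pow]; exact degree_toPoly_lt _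
    refine ⟨(monic_X_pow m).add_of_left h5, ?_⟩
    have := natDegree_eq_of_degree_eq (degree_add_eq_left_of_degree_lt h5)
    rwa [natDegree_X_pow] at this
  have hfq0 : ∀ j, (fq j).coeff 0 = (-1) ^ m * d * z j ^ 2 := by
    intro j
    have h5 := coeff_toPoly (a j) ⟨0, hm⟩
    simp only [fq, coeff_add, coeff_X_pow, if_neg hm.ne, zero_add]
    rw [show (toPoly (a j)).coeff 0 = (toPoly (a j)).coeff ((⟨0, hm⟩ : Fin m) : ℕ) from rfl, h5]
    simp [a]
  have hc : ∀ i, CTB atTop (fun j => (fq j).map (φ i)) (f i) := by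
    intro i
    have h5 : f i = X ^ m + toPoly fun l : Fin m => (f i).coeff l := by
      have h6 : (f i - X ^ m).degree < (m : WithBot ℕ) := by
        have h7 : (f i).degree = m := by rw [degree_eq_natDegree (hf i).ne_zero, hfm i]
        have h8 := degree_sub_lt_left (p := f i) (q := X ^ m) (by rw [h7, degree_X_pow])
          (hf i).ne_zero (by rw [(hf i).leadingCoeff, (monic_X_pow m).leadingCoeff])
        rwa [h7] at h8
      have h9 := toPoly_coeff h6
      have h10 : (fun l : Fin m => (f i - X ^ m).coeff l) = fun l : Fin m => (f i).coeff l := by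
        ext l
        rw [coeff_sub, coeff_X_pow, if_neg l.2.ne, sub_zero]
      rw [h10] at h9
      rw [h9]; ring
    have h11 : ∀ j, (fq j).map (φ i) = X ^ m + ∑ l : Fin m, C (φ i (a j l)) * X ^ (l : ℕ) := by
      intro j
      rw [Polynomial.map_add, Polynomial.map_pow, map_X, map_toPoly]
      rfl
    rw [h5]
    simp only [h11]
    refine (CTB.const _).add (CTB.sum _ fun l _ => (CTB.C ?_).mul (CTB.const _))
    by_cases hl : (l : ℕ) = 0
    · simp only [a, hl, if_true, map_mul, map_pow, map_neg, map_one]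
      rw [hf0]
      exact ((hz i).pow 2).const_mul _
    · simp only [a, hl, if_false]
      exact huT l i
  refine Appr.of_seq (fun i => (h i).monic) (fun i => (h i).deg) (fun i => (h i).ne)
    (fun j => expand k 2 (fq j)) (fun j => 2 ^ m * z j * (fq j).discr) ?_ ?_ ?_ ?_
  · intro j
    refine ⟨(hfq j).1.expand (by norm_num), ?_⟩
    rw [natDegree_expand, (hfq j).2, mul_comm]
  · intro i
    have h5 := (hc i).1.expand
    intro l
    refine (h5 l).congr fun j => ?_
    dsimp only
    rw [map_expand]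
  · intro i
    have h5 : Tendsto (fun j => 2 ^ m * φ i (z j) * ((fq j).map (φ i)).discr) atTop
        (𝓝 (2 ^ m * z0 i * (f i).discr)) :=
      ((hz i).const_mul _).mul ((hc i).1.discr (fun j => (hfq j).1.map _)
        (fun j => by rw [natDegree_map, (hfq j).2]) (hf i) (hfm i))
    have h6 : 2 ^ m * z0 i * (f i).discr = Y i := by
      have hDi := hD i
      have h2i := h2 i
      rw [hz0]
      dsimp only
      field_simp
    rw [h6] at h5
    refine h5.congr fun j => ?_
    rw [discr_map_monic (φ i) (hfq j).1, map_mul, map_mul, map_pow, map_ofNat]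
  · refine Eventually.of_forall fun j => ?_
    rw [discr_expand_two (hfq j).1 (hfq j).2, hfq0 j]
    have h3 : ((-4 : k)) ^ m = (-1) ^ m * (2 ^ m) ^ 2 := by
      rw [← pow_mul, mul_comm m 2, pow_mul, ← mul_pow]; norm_num
    have h4 : ((-1 : k) ^ m) * (-1) ^ m = 1 := by rw [← mul_pow]; simp
    rw [h3]
    linear_combination (2 ^ m) ^ 2 * d * z j ^ 2 * (fq j).discr ^ 2 * h4

/-- Points which can be reached from points `f (X ^ 2)`. -/
def LocR {K : Type*} [Field K] [CharZero K] (m : ℕ) (F : K[X]) : Prop :=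
  ∃ (f : K[X]) (κ : K), f.Monic ∧ f.natDegree = m ∧ f.Separable ∧ f.coeff 0 ≠ 0 ∧
    Rch (2 * m) (expand K 2 f) F κ

lemma separable_expand_two {K : Type*} [Field K] [CharZero K] {m : ℕ} {f : K[X]} (hf : f.Monic)
    (hm : f.natDegree = m) (hs : f.Separable) (h0 : f.coeff 0 ≠ 0) :
    (expand K 2 f).Separable := by
  apply separable_of_discr_ne_zero (hf.expand (by norm_num))
  rw [discr_expand_two hf hm]
  exact mul_ne_zero (mul_ne_zero (pow_ne_zero _ (by norm_num)) h0)
    (pow_ne_zero 2 (discr_ne_zero_of_separable hf hs))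

/-- The global theorem from the local one. -/
theorem appr_of_locR [DecidableEq ι] (hdense : DenseRange (fun (q : k) (i : ι) => φ i q)) {m : ℕ}
    (hm : 0 < m) {d : k} (hd : d ≠ 0) (F : ∀ i, (K i)[X]) (Y : ∀ i, K i)
    (hF : ∀ i, PtK (2 * m) (φ i d) (F i) (Y i)) (h : ∀ i, LocR m (F i)) :
    Appr φ (2 * m) d F Y := by
  have hφd : ∀ i, φ i d ≠ 0 := fun i => (_root_.map_ne_zero (φ i)).mpr hd
  choose f κ hf hfm hfs hf0 hR using h
  have hinfo := fun i => (hR i).info (even_two_mul m) (by omega) ((hf i).expand (by norm_num))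
    (by rw [natDegree_expand, hfm i, mul_comm])
    (separable_expand_two (hf i) (hfm i) (hfs i) (hf0 i))
  have hA : ∀ i, PtK (2 * m) (φ i d) (expand (K i) 2 (f i)) (Y i / κ i) := by
    intro i
    obtain ⟨h1, h2, h3, h4, h5⟩ := hinfo i
    refine ⟨(hf i).expand (by norm_num), by rw [natDegree_expand, hfm i, mul_comm], ?_,
      div_ne_zero (hF i).ne h4⟩
    rw [(hF i).disc] at h5
    field_simp
    linear_combination -h5
  refine (appr_expand hdense hm hd f hf hfm _ hA).rch_all hdense hd (even_two_mul m) (by omega)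
    hA hR fun i => ?_
  rw [div_mul_cancel₀ _ (hinfo i).2.2.2.1]

end

end Pool.Agent.Lib.MP_12adaf_nt
end

section

/-!
# Calogero-Moser duality: definitions

For a monic separable `f` of degree `n` the operator `C` on `K[X]/f`, `C_ij = 1/(x_i - x_j)` in
the basis of the roots, is skew for the trace form and `[X, C] + 1` has rank one.  Reading the pair
`(X, C)` in the eigenbasis of `C` gives a birational automorphism `f ↔ (c, q)` of affine space with
`disc f = c(0) * square`.
-/

namespace Pool.Agent.Lib.MP_12adaf_nt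

set_option linter.unusedSectionVars false
set_option linter.unusedVariables false

open Finset Polynomial

section Ring

variable {R : Type*} [CommRing R]

/-- The vector `(1, 0, ..., 0)`, i.e. the element `1` of `R[X]/g`. -/
def e0 (n : ℕ) : Fin n → R := fun i => if (i : ℕ) = 0 then 1 else 0

/-- Power sums: the trace of `X ^ k` on `R[X]/g`. -/
noncomputable def pS (n : ℕ) (g : R[X]) (k : ℕ) : R := (Mmat n g (X ^ k)).trace

/-- The operator `p ↦ ∑_j (p(λ_j) - p(λ))/(λ_j - λ) - p'` on `R[X]/g`. -/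
noncomputable def Dmat (n : ℕ) (g : R[X]) : Matrix (Fin n) (Fin n) R :=
  Matrix.of fun i j => if (i : ℕ) < j then
    pS n g ((j : ℕ) - 1 - i) - (if (i : ℕ) + 1 = j then ((j : ℕ) : R) else 0) else 0

/-- The trace form. -/
noncomputable def Hmat (n : ℕ) (g : R[X]) : Matrix (Fin n) (Fin n) R :=
  Matrix.of fun i j => pS n g (i + j)

/-- The twisted trace form `Tr(x * x̄)`, `X̄ = - X`. -/
noncomputable def Amat (n : ℕ) (g : R[X]) : Matrix (Fin n) (Fin n) R :=
  Matrix.of fun i j => (-1) ^ (j : ℕ) * pS n g (i + j)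

/-- The operator `N + q` on `R[X]/g`, where `N` is the selfadjoint part of `Dmat`. -/
noncomputable def Xmat {K : Type*} [Field K] (n : ℕ) (g q : K[X]) : Matrix (Fin n) (Fin n) K :=
  (2 : K)⁻¹ • (Dmat n g + (Amat n g)⁻¹ * (Dmat n g).transpose * Amat n g) + Mmat n g q

/-- The operator `C` on `R[X]/f` (skew part of `- Dmat`). -/
noncomputable def Ymat {K : Type*} [Field K] (n : ℕ) (f : K[X]) : Matrix (Fin n) (Fin n) K :=
  (2 : K)⁻¹ • ((Hmat n f)⁻¹ * (Dmat n f).transpose * Hmat n f - Dmat n f)

/-- `g(X) = c(X ^ 2)` or `X * c(X ^ 2)`. -/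
noncomputable def gof (n : ℕ) (c : R[X]) : R[X] := expand R 2 c * X ^ (n % 2)

/-- The matrix with columns `M ^ j * e0`. -/
def Krm {n : ℕ} (M : Matrix (Fin n) (Fin n) R) : Matrix (Fin n) (Fin n) R :=
  Matrix.of fun i j => ((M ^ (j : ℕ)).mulVec (e0 n)) i

end Ring

end Pool.Agent.Lib.MP_12adaf_nt
end
end
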