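import Mathlib
import Pool.Agent.Lib.MP_12adaf_nt.CM.Defs
import Pool.Agent.Lib.MP_12adaf_nt.Generic

section

section

/-!
# Genericity: `C` has distinct eigenvalues for a suitable generator
-/

namespace Pool.Agent.Lib.MP_12adaf_nt

set_option linter.unusedSectionVars false
set_option linter.unusedVariables false

open Finset Polynomial Filter Topology

/-- The matrix `1/(x_i - x_j)` (zero on the diagonal). -/
def Cx {L ι : Type*} [Field L] (x : ι → L) : Matrix ι ι L :=
  Matrix.of fun i j => 1 / (x i - x j)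

lemma charpoly_smul_comp {L ι : Type*} [Field L] [Fintype ι] [DecidableEq ι] (c : L)
    (M : Matrix ι ι L) :
    (c • M).charpoly.comp (C c * X) = C (c ^ Fintype.card ι) * M.charpoly := by
  rw [Matrix.charpoly, ← coe_compRingHom_apply, RingHom.map_det, Matrix.charpoly, C_pow,
    ← Matrix.det_smul]
  congr 1
  ext1 i j
  by_cases h : i = j
  · subst h
    simp only [RingHom.mapMatrix_apply, Matrix.map_apply, Matrix.smul_apply,
      Matrix.charmatrix_apply_eq, coe_compRingHom_apply, sub_comp, X_comp, C_comp, smul_eq_mul]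
    rw [C_mul]
    ring
  · simp only [RingHom.mapMatrix_apply, Matrix.map_apply, Matrix.smul_apply,
      Matrix.charmatrix_apply_ne _ _ _ h, coe_compRingHom_apply, neg_comp, C_comp, smul_eq_mul]
    rw [C_mul]
    ring

lemma separable_of_smul {L ι : Type*} [Field L] [Fintype ι] [DecidableEq ι] {c : L} (hc : c ≠ 0)
    {M : Matrix ι ι L} (h : (c • M).charpoly.Separable) : M.charpoly.Separable := by
  have h1 : IsCoprime ((c • M).charpoly.comp (C c * X))
      ((derivative (c • M).charpoly).comp (C c * X)) := by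
    have := IsCoprime.map h (compRingHom (C c * X))
    simpa only [coe_compRingHom_apply] using this
  have h2 : ((c • M).charpoly.comp (C c * X)).Separable := by
    rw [Separable, derivative_comp, derivative_C_mul, derivative_X, mul_one]
    exact (isCoprime_mul_unit_left_right (isUnit_C.mpr hc.isUnit) _ _).mpr h1
  rw [charpoly_smul_comp] at h2
  exact h2.of_mul_right

/-- `i C(x)` for real `x` is Hermitian. -/
lemma isHermitian_I_smul_Cx {n : ℕ} (x : Fin n → ℝ) :
    (Complex.I • Cx fun i => (x i : ℂ)).IsHermitian := by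
  ext i j
  rw [Matrix.conjTranspose_apply, Matrix.smul_apply, Matrix.smul_apply, Cx, Matrix.of_apply,
    Matrix.of_apply, smul_eq_mul, smul_eq_mul, star_mul', star_div₀, star_one, star_sub,
    Complex.star_def, Complex.conj_I, Complex.conj_ofReal, Complex.conj_ofReal,
    ← neg_sub (x i : ℂ) (x j), div_neg]
  ring

open scoped ComplexOrder in
/-- An eigenvector of `i C(x)` with zero sum vanishes: `[X, C] + 1` has rank one. -/
lemma eigenvector_eq_zero {n : ℕ} {x : Fin n → ℝ} (hx : Function.Injective x) {l : ℝ}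
    {v : Fin n → ℂ} (hv : (Complex.I • Cx fun i => (x i : ℂ)).mulVec v = fun k => (l : ℂ) * v k)
    (h0 : ∑ k, v k = 0) : v = 0 := by
  obtain ⟨A, hA⟩ : ∃ A, A = Complex.I • Cx fun i => (x i : ℂ) := ⟨_, rfl⟩
  have hherm : A.IsHermitian := hA ▸ isHermitian_I_smul_Cx x
  rw [← hA] at hv
  have h1 : ∀ k, ∑ m, A k m * v m = l * v k := fun k => congrFun hv k
  have h2 : ∀ m, ∑ k, star (v k) * A k m = l * star (v m) := fun m => by
    have h3 := congrArg star (h1 m)
    rw [star_sum, star_mul', Complex.star_def, Complex.conj_ofReal] at h3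
    rw [Complex.star_def, ← h3]
    refine Finset.sum_congr rfl fun k _ => ?_
    rw [map_mul, mul_comm]
    congr 1
    exact (hherm.apply k m).symm
  have h3 : ∀ k m, ((x k : ℂ) - x m) * A k m = Complex.I - (if k = m then Complex.I else 0) := by
    intro k m
    rw [hA, Matrix.smul_apply, Cx, Matrix.of_apply, smul_eq_mul]
    by_cases h : k = m
    · rw [if_pos h, h, sub_self, zero_mul, sub_self]
    · rw [if_neg h, sub_zero]
      have h4 : (x k : ℂ) - x m ≠ 0 := sub_ne_zero.mpr fun h5 => h (hx (by exact_mod_cast h5))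
      field_simp
  have h4 : ∑ k, ∑ m, star (v k) * (((x k : ℂ) - x m) * A k m) * v m = 0 := by
    have h5 : ∀ k m, star (v k) * (((x k : ℂ) - x m) * A k m) * v m =
        star (v k) * x k * (A k m * v m) - (star (v k) * A k m) * (x m * v m) := fun k m => by ring
    simp only [h5, Finset.sum_sub_distrib]
    rw [Finset.sum_comm (f := fun k m => (star (v k) * A k m) * (x m * v m))]
    simp only [← Finset.mul_sum, ← Finset.sum_mul, h1, h2]
    rw [← Finset.sum_sub_distrib]
    refine Finset.sum_eq_zero fun k _ => ?_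
    ring
  have h5 : ∑ k, ∑ m, star (v k) * (((x k : ℂ) - x m) * A k m) * v m =
      -Complex.I * ∑ k, star (v k) * v k := by
    rw [Finset.mul_sum]
    refine Finset.sum_congr rfl fun k _ => ?_
    simp only [h3, mul_sub, sub_mul, Finset.sum_sub_distrib, mul_ite, ite_mul, mul_zero, zero_mul]
    rw [← Finset.mul_sum, h0, mul_zero, Finset.sum_ite_eq, if_pos (Finset.mem_univ _)]
    ring
  rw [h4] at h5
  have h6 : ∑ k, star (v k) * v k = 0 :=
    (mul_eq_zero.mp h5.symm).resolve_left (neg_ne_zero.mpr Complex.I_ne_zero)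
  have h7 : star v ⬝ᵥ v = 0 := h6
  exact dotProduct_star_self_eq_zero.mp h7

/-- `i C(x)` has distinct eigenvalues for real `x`. -/
lemma eigenvalues_injective {n : ℕ} {x : Fin n → ℝ} (hx : Function.Injective x) :
    Function.Injective (isHermitian_I_smul_Cx x).eigenvalues := by
  intro i j hij
  by_contra hne
  obtain ⟨e, he⟩ : ∃ e, e = (isHermitian_I_smul_Cx x).eigenvectorBasis := ⟨_, rfl⟩
  have h1 : ∀ k, (Complex.I • Cx fun i => (x i : ℂ)).mulVec ⇑(e k) =
      fun m => ((isHermitian_I_smul_Cx x).eigenvalues k : ℂ) * e k m := fun k => by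
    rw [he]
    refine ((isHermitian_I_smul_Cx x).mulVec_eigenvectorBasis k).trans ?_
    funext m
    rw [Pi.smul_apply, Complex.real_smul]
  obtain ⟨a, ha⟩ : ∃ a : ℂ, a = ∑ k, e j k := ⟨_, rfl⟩
  obtain ⟨b, hb⟩ : ∃ b : ℂ, b = ∑ k, e i k := ⟨_, rfl⟩
  by_cases hb0 : b = 0
  · have h2 := eigenvector_eq_zero hx (h1 i) (hb ▸ hb0)
    have h3 : e i = 0 := by
      ext k
      exact congrFun h2 k
    have h4 := e.orthonormal.ne_zero i
    exact h4 h3
  · have h2 : (Complex.I • Cx fun i => (x i : ℂ)).mulVec (fun m => a * e i m - b * e j m) =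
        fun m => ((isHermitian_I_smul_Cx x).eigenvalues i : ℂ) * (a * e i m - b * e j m) := by
      have h3 : (fun m => a * e i m - b * e j m) = a • ⇑(e i) - b • ⇑(e j) := rfl
      rw [h3, Matrix.mulVec_sub, Matrix.mulVec_smul, Matrix.mulVec_smul, h1, h1, ← hij]
      funext m
      simp only [Pi.sub_apply, Pi.smul_apply, smul_eq_mul]
      ring
    have h3 : ∑ m, (a * e i m - b * e j m) = 0 := by
      rw [Finset.sum_sub_distrib, ← Finset.mul_sum, ← Finset.mul_sum, ← ha, ← hb]
      ring
    have h4 := eigenvector_eq_zero hx h2 h3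
    have h5 : a • e i - b • e j = 0 := by
      ext k
      exact congrFun h4 k
    have h6 : inner ℂ (e j) (a • e i - b • e j) = -b := by
      rw [inner_sub_right, inner_smul_right, inner_smul_right, e.orthonormal.2 (Ne.symm hne),
        inner_self_eq_norm_sq_to_K, e.orthonormal.1 j]
      simp
    rw [h5, inner_zero_right] at h6
    exact hb0 (by rw [← neg_neg b, ← h6, neg_zero])

/-- `C(x)` has distinct eigenvalues for real `x`. -/
lemma separable_Cx_real {n : ℕ} {x : Fin n → ℝ} (hx : Function.Injective x) :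
    (Cx fun i => (x i : ℂ)).charpoly.Separable := by
  refine separable_of_smul Complex.I_ne_zero ?_
  rw [(isHermitian_I_smul_Cx x).charpoly_eq]
  refine separable_prod_X_sub_C_iff.mpr fun i j h => eigenvalues_injective hx ?_
  exact_mod_cast h

/-- A point with distinct eigenvalues.  Over `ℂ` take `x_i = i/2 + ε (i%2)(i/2 + 1)` and let
`ε → 0`: `ε C` tends to a block diagonal matrix with the distinct eigenvalues
`± I/(k + 1)`, `k < n/2` (and `0` if `n` is odd). -/
theorem exists_complex_point (n : ℕ) :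
    ∃ x : Fin n → ℂ, Function.Injective x ∧ (Cx x).charpoly.Separable := by
  refine ⟨fun i => (((i : ℕ) : ℝ) : ℂ), fun i j h => ?_,
    separable_Cx_real (x := fun i : Fin n => ((i : ℕ) : ℝ)) fun i j h => ?_⟩
  · exact Fin.ext (by simpa using h)
  · exact Fin.ext (by simpa using h)

/-- The certificate for distinct eigenvalues. -/
noncomputable def cert5 {A : Type*} [CommRing A] {n : ℕ} (u : Fin n → A) : A :=
  Del u * resultant (AT u).charpoly (derivative (AT u).charpoly) n (n - 1)

lemma map_cert5 {A B : Type*} [CommRing A] [CommRing B] (φ : A →+* B) {n : ℕ} (u : Fin n → A) :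
    φ (cert5 u) = cert5 (φ ∘ u) := by
  rw [cert5, cert5, map_mul, map_Del, ← resultant_map_map, ← derivative_map,
    ← Matrix.charpoly_map, map_AT]

lemma cert5_ne_zero_iff {L : Type*} [Field L] [CharZero L] {n : ℕ} (u : Fin n → L) :
    cert5 u ≠ 0 ↔ Function.Injective u ∧ (Cx u).charpoly.Separable := by
  have hdeg : (AT u).charpoly.natDegree = n := by
    rw [Matrix.charpoly_natDegree_eq_dim, Fintype.card_fin]
  have h1 : Function.Injective u → AT u = Del u • Cx u := fun hu => by
    rw [AT_eq hu]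
    congr 1
    ext i j
    rw [Cx, cauchyMat, Matrix.of_apply, Matrix.of_apply, one_div]
  rw [cert5, mul_ne_zero_iff, Del_ne_zero_iff, resultant_deriv_monic (Matrix.charpoly_monic _) hdeg]
  refine and_congr_right fun hu => ?_
  have hD : Del u ≠ 0 := Del_ne_zero_iff.mpr hu
  constructor
  · intro h
    have h2 := separable_of_discr_ne_zero (Matrix.charpoly_monic _) (right_ne_zero_of_mul h)
    rw [h1 hu] at h2
    exact separable_of_smul hD h2
  · intro h
    refine mul_ne_zero (pow_ne_zero _ (neg_ne_zero.mpr one_ne_zero))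
      (discr_ne_zero_of_separable (Matrix.charpoly_monic _) ?_)
    rw [h1 hu]
    refine separable_of_smul (inv_ne_zero hD) ?_
    rwa [smul_smul, inv_mul_cancel₀ hD, one_smul]

lemma cert5_nat_ne_zero (n : ℕ) (L : Type*) [Field L] [CharZero L] :
    cert5 (fun i : Fin n => ((i : ℕ) : L)) ≠ 0 := by
  have h1 : cert5 (fun i : Fin n => (((i : ℕ) : ℤ) : ℂ)) ≠ 0 := by
    rw [cert5_ne_zero_iff]
    refine ⟨fun i j h => Fin.ext (by simpa using h), ?_⟩
    have h2 := separable_Cx_real (x := fun i : Fin n => ((i : ℕ) : ℝ))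
      fun i j h => Fin.ext (by simpa using h)
    simpa using h2
  have h2 : cert5 (fun i : Fin n => ((i : ℕ) : ℤ)) ≠ 0 := by
    intro h
    apply h1
    have := map_cert5 (Int.castRingHom ℂ) (fun i : Fin n => ((i : ℕ) : ℤ))
    rw [h, map_zero] at this
    exact this.symm
  have h3 := map_cert5 (Int.castRingHom L) (fun i : Fin n => ((i : ℕ) : ℤ))
  have h4 : (Int.castRingHom L) ∘ (fun i : Fin n => ((i : ℕ) : ℤ)) =
      fun i : Fin n => ((i : ℕ) : L) := by
    ext i; simp
  rw [h4] at h3
  rw [← h3]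
  simpa using h2

/-- There is a nonzero polynomial `F` such that `C(x)` has distinct eigenvalues if `F(x) ≠ 0`
(`F = Del * disc(charpoly (AT x))` is defined over `ℤ`, see `Cert.lean`). -/
theorem exists_cert (n : ℕ) (L : Type*) [Field L] [CharZero L] :
    ∃ F : MvPolynomial (Fin n) L, F ≠ 0 ∧ ∀ x : Fin n → L, MvPolynomial.eval x F ≠ 0 →
      Function.Injective x ∧ (Cx x).charpoly.Separable := by
  have h1 : ∀ x : Fin n → L, MvPolynomial.eval x (cert5 fun i => MvPolynomial.X i) = cert5 x := by
    intro x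
    rw [map_cert5]
    congr 1
    funext i
    simp
  refine ⟨cert5 fun i => MvPolynomial.X i, ?_, fun x hx => ?_⟩
  · intro h
    have h2 := h1 fun i => ((i : ℕ) : L)
    rw [h, map_zero] at h2
    exact cert5_nat_ne_zero n L h2.symm
  · rw [h1] at hx
    exact (cert5_ne_zero_iff x).mp hx

/-- Every separable algebra has a generator for which `C` has distinct eigenvalues. -/
theorem exists_gen_Cx {K L : Type*} [Field K] [CharZero K] [Field L] [Algebra K L] {n : ℕ}
    {θ : Fin n → L} (hθ : Function.Injective θ) :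
    ∃ T : K[X], Function.Injective (fun i => aeval (θ i) T) ∧
      (Cx fun i => aeval (θ i) T).charpoly.Separable := by
  have : CharZero L := charZero_of_injective_algebraMap (algebraMap K L).injective
  obtain ⟨F, hF, h⟩ := exists_cert n L
  obtain ⟨T, hT⟩ := exists_generic (K := K) hθ hF
  exact ⟨T, h _ hT⟩

end Pool.Agent.Lib.MP_12adaf_nt
end

section

/-!
# Naturality of the matrices
-/

namespace Pool.Agent.Lib.MP_12adaf_nt

set_option linter.unusedSectionVars false
set_option linter.unusedVariables false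

open Finset Polynomial

section Ring

variable {R S : Type*} [CommRing R] [CommRing S] (φ : R →+* S)

lemma map_e0 (n : ℕ) : (fun i => φ (e0 n i)) = (e0 n : Fin n → S) := by
  ext i
  simp only [e0]
  split_ifs <;> simp

lemma map_pS {g : R[X]} (hg : g.Monic) (n k : ℕ) : φ (pS n g k) = pS n (g.map φ) k := by
  have h := map_Mmat φ hg n (X ^ k)
  rw [Polynomial.map_pow, Polynomial.map_X] at h
  rw [pS, pS, h, Matrix.trace, Matrix.trace, map_sum]
  rfl

lemma map_Dmat {g : R[X]} (hg : g.Monic) (n : ℕ) :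
    (Dmat n g).map φ = Dmat n (g.map φ) := by
  ext i j
  simp only [Dmat, Matrix.map_apply, Matrix.of_apply]
  split_ifs <;> simp [map_pS φ hg]

lemma map_Hmat {g : R[X]} (hg : g.Monic) (n : ℕ) :
    (Hmat n g).map φ = Hmat n (g.map φ) := by
  ext i j
  simp only [Hmat, Matrix.map_apply, Matrix.of_apply, map_pS φ hg]

lemma map_Amat {g : R[X]} (hg : g.Monic) (n : ℕ) :
    (Amat n g).map φ = Amat n (g.map φ) := by
  ext i j
  simp only [Amat, Matrix.map_apply, Matrix.of_apply, map_mul, map_pow, map_neg, map_one,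
    map_pS φ hg]

lemma map_Krm {n : ℕ} (M : Matrix (Fin n) (Fin n) R) : (Krm M).map φ = Krm (M.map φ) := by
  ext i j
  simp only [Krm, Matrix.map_apply, Matrix.of_apply]
  have h1 : (M.map φ) ^ (j : ℕ) = (M ^ (j : ℕ)).map φ := (Matrix.map_pow M φ (j : ℕ)).symm
  rw [h1, ← map_e0 φ n]
  simp only [Matrix.mulVec, dotProduct, map_sum, map_mul, Matrix.map_apply]

end Ring

section Field

variable {K L : Type*} [Field K] [Field L] (φ : K →+* L)

lemma map_inv_matrix {n : ℕ} (A : Matrix (Fin n) (Fin n) K) : (A⁻¹).map φ = (A.map φ)⁻¹ := by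
  have h1 : (A.map φ).det = φ A.det := (RingHom.map_det φ A).symm
  have h2 : (A.map φ).adjugate = A.adjugate.map φ := (RingHom.map_adjugate φ A).symm
  rw [Matrix.inv_def, Matrix.inv_def, h1, h2, Ring.inverse_eq_inv', Ring.inverse_eq_inv']
  ext i j
  simp [Matrix.map_apply, Matrix.smul_apply]

lemma map_Xmat {n : ℕ} {g : K[X]} (hg : g.Monic) (q : K[X]) :
    (Xmat n g q).map φ = Xmat n (g.map φ) (q.map φ) := by
  rw [Xmat, Xmat, ← map_Dmat φ hg, ← map_Amat φ hg, map_Mmat φ hg, ← map_inv_matrix]
  ext i j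
  simp only [Matrix.map_apply, Matrix.add_apply, Matrix.smul_apply, smul_eq_mul, map_add, map_mul,
    map_inv₀, map_ofNat, Matrix.mul_apply, map_sum, Matrix.transpose_apply]

lemma map_Ymat {n : ℕ} {f : K[X]} (hf : f.Monic) :
    (Ymat n f).map φ = Ymat n (f.map φ) := by
  rw [Ymat, Ymat, ← map_Dmat φ hf, ← map_Hmat φ hf, ← map_inv_matrix]
  ext i j
  simp only [Matrix.map_apply, Matrix.sub_apply, Matrix.smul_apply, smul_eq_mul, map_sub, map_mul,
    map_inv₀, map_ofNat, Matrix.mul_apply, map_sum, Matrix.transpose_apply]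

end Field

end Pool.Agent.Lib.MP_12adaf_nt
end

section

/-!
# The matrices in the basis of the roots
-/

namespace Pool.Agent.Lib.MP_12adaf_nt

set_option linter.unusedSectionVars false
set_option linter.unusedVariables false

open Finset Polynomial

section Abstract

variable {K : Type*} [Field K] {ι : Type*} [Fintype ι] [DecidableEq ι]

lemma trace_mul_vecMulVec (M : Matrix ι ι K) (u v : ι → K) :
    (M * Matrix.vecMulVec u v).trace = v ⬝ᵥ M.mulVec u := by
  rw [Matrix.mul_vecMulVec, Matrix.trace_vecMulVec, dotProduct_comm]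

/-- If `[X, Y] + 1 = u vᵀ` then `Tr X^k = vᵀ X^k u`. -/
lemma trace_pow_X {X Y : Matrix ι ι K} {u v : ι → K}
    (h : X * Y - Y * X + 1 = Matrix.vecMulVec u v) (k : ℕ) :
    (X ^ k).trace = v ⬝ᵥ (X ^ k).mulVec u := by
  rw [← trace_mul_vecMulVec, ← h, mul_add, mul_sub, Matrix.trace_add, Matrix.trace_sub, mul_one]
  have h2 : (X ^ k * (X * Y)).trace = (X ^ k * (Y * X)).trace := by
    rw [← mul_assoc, ← pow_succ, ← mul_assoc (X ^ k) Y X, Matrix.trace_mul_comm (X ^ k * Y) X,
      ← mul_assoc, ← pow_succ']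
  rw [h2]; ring

lemma trace_pow_Y {X Y : Matrix ι ι K} {u v : ι → K}
    (h : X * Y - Y * X + 1 = Matrix.vecMulVec u v) (k : ℕ) :
    (Y ^ k).trace = v ⬝ᵥ (Y ^ k).mulVec u := by
  rw [← trace_mul_vecMulVec, ← h, mul_add, mul_sub, Matrix.trace_add, Matrix.trace_sub, mul_one]
  have h2 : (Y ^ k * (X * Y)).trace = (Y ^ k * (Y * X)).trace := by
    rw [← mul_assoc, ← mul_assoc, ← pow_succ, Matrix.trace_mul_comm (Y ^ k * X) Y, ← mul_assoc,
      ← pow_succ']
  rw [h2]; ring

/-- The adjoint with respect to a symmetric form for which `Y` is skew. -/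
lemma adj_skew {A D Y : Matrix ι ι K} {u v : ι → K} (hA : IsUnit A.det)
    (hAs : A.transpose = A) (hAY : A * Y = - (Y.transpose * A)) (hAu : A.mulVec u = v)
    (h : D * Y - Y * D + 1 = Matrix.vecMulVec u v) :
    (A⁻¹ * D.transpose * A) * Y - Y * (A⁻¹ * D.transpose * A) + 1 = Matrix.vecMulVec u v := by
  set D' := A⁻¹ * D.transpose * A with hD'
  have hAD : A * D' = D.transpose * A := by
    rw [hD', ← mul_assoc, ← mul_assoc, Matrix.mul_nonsing_inv _ hA, one_mul]
  have h1 : (D * Y - Y * D + 1).transpose = Matrix.vecMulVec v u := by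
    rw [h, Matrix.transpose_vecMulVec]
  have h2 : A * (D' * Y - Y * D' + 1) = A * Matrix.vecMulVec u v := by
    have e1 : A * (D' * Y - Y * D' + 1) =
        (D * Y - Y * D + 1).transpose * A := by
      rw [mul_add, mul_sub, ← mul_assoc, hAD, ← mul_assoc, hAY, mul_one, mul_assoc D.transpose,
        hAY, neg_mul, mul_assoc Y.transpose, hAD]
      simp only [Matrix.transpose_add, Matrix.transpose_sub, Matrix.transpose_mul,
        Matrix.transpose_one]
      noncomm_ring
    rw [e1, h1, Matrix.vecMulVec_mul, Matrix.mul_vecMulVec, hAu]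
    congr 1
    rw [← hAu, ← Matrix.mulVec_transpose, hAs]
  have h3 := congrArg (fun M => A⁻¹ * M) h2
  simpa only [← mul_assoc, Matrix.nonsing_inv_mul _ hA, one_mul] using h3

/-- The adjoint with respect to a symmetric form for which `X` is selfadjoint. -/
lemma adj_self {A D X : Matrix ι ι K} {u v : ι → K} (hA : IsUnit A.det)
    (hAs : A.transpose = A) (hAX : A * X = X.transpose * A) (hAu : A.mulVec u = v)
    (h : D * X - X * D + 1 = Matrix.vecMulVec u v) :
    X * (A⁻¹ * D.transpose * A) - (A⁻¹ * D.transpose * A) * X + 1 = Matrix.vecMulVec u v := by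
  set D' := A⁻¹ * D.transpose * A with hD'
  have hAD : A * D' = D.transpose * A := by
    rw [hD', ← mul_assoc, ← mul_assoc, Matrix.mul_nonsing_inv _ hA, one_mul]
  have h1 : (D * X - X * D + 1).transpose = Matrix.vecMulVec v u := by
    rw [h, Matrix.transpose_vecMulVec]
  have h2 : A * (X * D' - D' * X + 1) = A * Matrix.vecMulVec u v := by
    have e1 : A * (X * D' - D' * X + 1) =
        (D * X - X * D + 1).transpose * A := by
      have p1 : A * (X * D') = X.transpose * (D.transpose * A) := by
        rw [← mul_assoc A X D', hAX, mul_assoc X.transpose A D', hAD]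
      have p2 : A * (D' * X) = D.transpose * (X.transpose * A) := by
        rw [← mul_assoc A D' X, hAD, mul_assoc D.transpose A X, hAX]
      rw [mul_add, mul_sub, p1, p2]
      simp only [Matrix.transpose_add, Matrix.transpose_sub, Matrix.transpose_mul,
        Matrix.transpose_one]
      noncomm_ring
    rw [e1, h1, Matrix.vecMulVec_mul, Matrix.mul_vecMulVec, hAu]
    congr 1
    rw [← hAu, ← Matrix.mulVec_transpose, hAs]
  have h3 := congrArg (fun M => A⁻¹ * M) h2
  simpa only [← mul_assoc, Matrix.nonsing_inv_mul _ hA, one_mul] using h3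

lemma trace_conj {V M N : Matrix ι ι K} (hV : IsUnit V.det) (h : V * M = N * V) :
    M.trace = N.trace := by
  have h1 : N = V * M * V⁻¹ := by
    rw [h, mul_assoc, Matrix.mul_nonsing_inv _ hV, mul_one]
  rw [h1, Matrix.trace_mul_comm, ← mul_assoc, Matrix.nonsing_inv_mul _ hV, one_mul]

end Abstract

section Roots

variable {L : Type*} [Field L] {n : ℕ} {x : Fin n → L}

lemma isUnit_vandermonde (hx : Function.Injective x) : IsUnit (Matrix.vandermonde x).det :=
  isUnit_iff_ne_zero.mpr (Matrix.det_vandermonde_ne_zero_iff.mpr hx)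

lemma vandermonde_e0 (x : Fin n → L) : (Matrix.vandermonde x).mulVec (e0 n) = fun _ => 1 := by
  ext i
  rw [Matrix.mulVec, dotProduct]
  simp only [e0, Matrix.vandermonde_apply, mul_ite, mul_one, mul_zero]
  have hn : 0 < n := lt_of_le_of_lt (Nat.zero_le _) i.2
  rw [Finset.sum_eq_single (⟨0, hn⟩ : Fin n)]
  · simp
  · intro j _ hj
    rw [if_neg]
    intro h
    exact hj (Fin.ext h)
  · simp

lemma pS_nod (hx : Function.Injective x) (k : ℕ) : pS n (nod x) k = ∑ i, x i ^ k := by
  rw [pS, trace_conj (isUnit_vandermonde hx) (vandermonde_mul_Mmat x (X ^ k)),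
    Matrix.trace_diagonal]
  simp

lemma vandermonde_transpose_mul (hx : Function.Injective x) :
    (Matrix.vandermonde x).transpose * Matrix.vandermonde x = Hmat n (nod x) := by
  ext i j
  rw [Matrix.mul_apply, Hmat, Matrix.of_apply, pS_nod hx]
  refine Finset.sum_congr rfl fun k _ => ?_
  rw [Matrix.transpose_apply, Matrix.vandermonde_apply, Matrix.vandermonde_apply, pow_add]

lemma vandermonde_transpose_mul_neg (hx : Function.Injective x) :
    (Matrix.vandermonde x).transpose * Matrix.vandermonde (fun i => - x i) =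
      Amat n (nod x) := by
  ext i j
  rw [Matrix.mul_apply, Amat, Matrix.of_apply, pS_nod hx, Finset.mul_sum]
  refine Finset.sum_congr rfl fun k _ => ?_
  rw [Matrix.transpose_apply, Matrix.vandermonde_apply, Matrix.vandermonde_apply, pow_add,
    neg_pow (x k) (j : ℕ)]
  ring

/-- `D` in the basis of the roots. -/
lemma vandermonde_mul_Dmat (hx : Function.Injective x) :
    Matrix.vandermonde x * Dmat n (nod x) =
      (Matrix.diagonal (fun i => ∑ j, Cx x i j) - Cx x) * Matrix.vandermonde x := by
  ext i k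
  rw [sub_mul, Matrix.sub_apply, Matrix.diagonal_mul, Matrix.mul_apply, Matrix.mul_apply]
  simp only [Matrix.vandermonde_apply]
  -- the left hand side
  have hL : ∑ s : Fin n, x i ^ (s : ℕ) * Dmat n (nod x) s k =
      ∑ s ∈ range (k : ℕ), x i ^ s * pS n (nod x) ((k : ℕ) - 1 - s) -
        (k : ℕ) * x i ^ ((k : ℕ) - 1) := by
    have h1 : ∑ s : Fin n, x i ^ (s : ℕ) * Dmat n (nod x) s k =
        ∑ s ∈ range n, (if s < (k : ℕ) then x i ^ s * (pS n (nod x) ((k : ℕ) - 1 - s) -
          (if s + 1 = (k : ℕ) then ((k : ℕ) : L) else 0)) else 0) := by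
      rw [← Fin.sum_univ_eq_sum_range (fun s => (if s < (k : ℕ) then x i ^ s *
        (pS n (nod x) ((k : ℕ) - 1 - s) -
          (if s + 1 = (k : ℕ) then ((k : ℕ) : L) else 0)) else 0)) n]
      refine Finset.sum_congr rfl fun s _ => ?_
      simp only [Dmat, Matrix.of_apply, mul_ite, mul_zero]
    rw [h1, ← Finset.sum_filter]
    have h2 : (range n).filter (fun s => s < (k : ℕ)) = range (k : ℕ) := by
      ext s
      simp only [Finset.mem_filter, Finset.mem_range]
      have := k.2
      omega
    rw [h2]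
    simp only [mul_sub, Finset.sum_sub_distrib]
    congr 1
    rcases Nat.eq_zero_or_pos (k : ℕ) with h0 | h0
    · rw [h0]; simp
    · rw [Finset.sum_eq_single ((k : ℕ) - 1)]
      · rw [if_pos (by omega)]; ring
      · intro s hs hs'
        rw [if_neg (by omega), mul_zero]
      · intro h
        exact absurd (Finset.mem_range.mpr (by omega)) h
  rw [hL]
  -- geometric sums
  have hG : ∀ j, Cx x i j * (x i ^ (k : ℕ) - x j ^ (k : ℕ)) =
      (∑ s ∈ range (k : ℕ), x i ^ s * x j ^ ((k : ℕ) - 1 - s)) -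
        (if j = i then (k : ℕ) * x i ^ ((k : ℕ) - 1) else 0) := by
    intro j
    by_cases hj : j = i
    · subst hj
      rw [sub_self, mul_zero, if_pos rfl]
      have : ∑ s ∈ range (k : ℕ), x j ^ s * x j ^ ((k : ℕ) - 1 - s) =
          ∑ s ∈ range (k : ℕ), x j ^ ((k : ℕ) - 1) := by
        refine Finset.sum_congr rfl fun s hs => ?_
        rw [← pow_add]
        congr 1
        have := Finset.mem_range.mp hs
        omega
      rw [this, Finset.sum_const, Finset.card_range, nsmul_eq_mul, sub_self]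
    · rw [if_neg hj, sub_zero]
      have h1 := Commute.mul_geom_sum₂ (Commute.all (x i) (x j)) (k : ℕ)
      have h2 : x i - x j ≠ 0 := sub_ne_zero.mpr fun h => hj (hx h).symm
      rw [Cx, Matrix.of_apply, ← h1]
      field_simp
  have hR : (∑ j, Cx x i j) * x i ^ (k : ℕ) - ∑ j, Cx x i j * x j ^ (k : ℕ) =
      ∑ j, Cx x i j * (x i ^ (k : ℕ) - x j ^ (k : ℕ)) := by
    rw [Finset.sum_mul, ← Finset.sum_sub_distrib]
    exact Finset.sum_congr rfl fun j _ => by ring
  rw [hR]
  simp_rw [hG]
  rw [Finset.sum_sub_distrib, Finset.sum_ite_eq' Finset.univ i, if_pos (Finset.mem_univ i),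
    Finset.sum_comm]
  congr 1
  refine Finset.sum_congr rfl fun s _ => ?_
  rw [pS_nod hx, Finset.mul_sum]

/-- The commutation relation `[D, X] + 1 = 1 ⊗ Tr`. -/
lemma Dmat_comm_nod (hx : Function.Injective x) :
    Dmat n (nod x) * Mmat n (nod x) X - Mmat n (nod x) X * Dmat n (nod x) + 1 =
      Matrix.vecMulVec (e0 n) (fun k : Fin n => pS n (nod x) k) := by
  set V := Matrix.vandermonde x with hV
  have hVu : IsUnit V.det := isUnit_vandermonde hx
  have h1 : V * Dmat n (nod x) =
      (Matrix.diagonal (fun i => ∑ j, Cx x i j) - Cx x) * V := vandermonde_mul_Dmat hx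
  have h2 : V * Mmat n (nod x) X = Matrix.diagonal x * V := by
    have := vandermonde_mul_Mmat x X
    simpa only [eval_X] using this
  set B := Matrix.diagonal (fun i => ∑ j, Cx x i j) - Cx x with hB
  have h3 : V * (Dmat n (nod x) * Mmat n (nod x) X - Mmat n (nod x) X * Dmat n (nod x) + 1) =
      (B * Matrix.diagonal x - Matrix.diagonal x * B + 1) * V := by
    have p1 : V * (Dmat n (nod x) * Mmat n (nod x) X) = B * Matrix.diagonal x * V := by
      rw [← mul_assoc V, h1, mul_assoc B V, h2, ← mul_assoc B]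
    have p2 : V * (Mmat n (nod x) X * Dmat n (nod x)) = Matrix.diagonal x * B * V := by
      rw [← mul_assoc V, h2, mul_assoc (Matrix.diagonal x) V, h1, ← mul_assoc (Matrix.diagonal x)]
    rw [mul_add, mul_sub, p1, p2, mul_one, add_mul, sub_mul (B * Matrix.diagonal x), one_mul]
  have h4 : B * Matrix.diagonal x - Matrix.diagonal x * B + 1 = Matrix.of fun _ _ => (1 : L) := by
    ext i j
    rw [Matrix.add_apply, Matrix.sub_apply, Matrix.mul_diagonal, Matrix.diagonal_mul, hB,
      Matrix.sub_apply, Matrix.of_apply]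
    by_cases hij : i = j
    · subst hij
      simp [mul_comm]
    · rw [Matrix.diagonal_apply_ne _ hij, Matrix.one_apply_ne hij, Cx, Matrix.of_apply]
      have h2 : x i - x j ≠ 0 := sub_ne_zero.mpr fun h => hij (hx h)
      field_simp
      ring
  have h5 : V * Matrix.vecMulVec (e0 n) (fun k : Fin n => pS n (nod x) k) =
      (Matrix.of fun _ _ => (1 : L)) * V := by
    rw [Matrix.mul_vecMulVec, vandermonde_e0]
    ext i j
    rw [Matrix.vecMulVec_apply, Matrix.mul_apply, one_mul, pS_nod hx]
    refine Finset.sum_congr rfl fun k _ => ?_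
    rw [Matrix.of_apply, one_mul, hV, Matrix.vandermonde_apply]
  have h6 : V * (Dmat n (nod x) * Mmat n (nod x) X - Mmat n (nod x) X * Dmat n (nod x) + 1) =
      V * Matrix.vecMulVec (e0 n) (fun k : Fin n => pS n (nod x) k) := by
    rw [h3, h4, h5]
  have h7 := congrArg (fun M => V⁻¹ * M) h6
  simpa only [← mul_assoc, Matrix.nonsing_inv_mul _ hVu, one_mul] using h7

end Roots

end Pool.Agent.Lib.MP_12adaf_nt
end

section

/-!
# The trace forms `Hmat` and `Amat`
-/

namespace Pool.Agent.Lib.MP_12adaf_nt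

set_option linter.unusedSectionVars false
set_option linter.unusedVariables false

open Finset Polynomial

section Ring

variable {R : Type*} [CommRing R]

lemma Hmat_transpose (n : ℕ) (g : R[X]) : (Hmat n g).transpose = Hmat n g := by
  ext i j
  rw [Matrix.transpose_apply, Hmat, Matrix.of_apply, Matrix.of_apply, add_comm]

lemma mulVec_e0 {n : ℕ} (M : Matrix (Fin n) (Fin n) R) (i : Fin n) :
    M.mulVec (e0 n) i = M i ⟨0, lt_of_le_of_lt (Nat.zero_le _) i.2⟩ := by
  rw [Matrix.mulVec, dotProduct]
  simp only [e0, mul_ite, mul_one, mul_zero]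
  rw [Finset.sum_eq_single (⟨0, lt_of_le_of_lt (Nat.zero_le _) i.2⟩ : Fin n)]
  · simp
  · intro j _ hj
    rw [if_neg]
    intro h
    exact hj (Fin.ext h)
  · simp

lemma Hmat_e0 (n : ℕ) (g : R[X]) : (Hmat n g).mulVec (e0 n) = fun k : Fin n => pS n g k := by
  ext i
  rw [mulVec_e0, Hmat, Matrix.of_apply]
  rfl

lemma Amat_e0 (n : ℕ) (g : R[X]) : (Amat n g).mulVec (e0 n) = fun k : Fin n => pS n g k := by
  ext i
  rw [mulVec_e0, Amat, Matrix.of_apply]
  simp

end Ring

section Roots

variable {L : Type*} [Field L] {n : ℕ} {x : Fin n → L}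

lemma det_vandermonde_neg (x : Fin n → L) :
    (Matrix.vandermonde (fun i => - x i)).det =
      (-1) ^ (n * (n - 1) / 2) * (Matrix.vandermonde x).det := by
  rw [Matrix.det_vandermonde, Matrix.det_vandermonde, ← sum_card_Ioi,
    ← Finset.prod_pow_eq_pow_sum, ← Finset.prod_mul_distrib]
  refine Finset.prod_congr rfl fun i _ => ?_
  rw [← Finset.prod_const, ← Finset.prod_mul_distrib]
  refine Finset.prod_congr rfl fun j _ => ?_
  ring

lemma det_Hmat_nod (hx : Function.Injective x) :
    (Hmat n (nod x)).det = (Matrix.vandermonde x).det ^ 2 := by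
  rw [← vandermonde_transpose_mul hx, Matrix.det_mul, Matrix.det_transpose, sq]

lemma det_Amat_nod (hx : Function.Injective x) :
    (Amat n (nod x)).det = (-1) ^ (n * (n - 1) / 2) * (nod x).discr := by
  rw [← vandermonde_transpose_mul_neg hx, Matrix.det_mul, Matrix.det_transpose,
    det_vandermonde_neg, discr_nod]
  ring

lemma Hmat_mul_Mmat_nod (hx : Function.Injective x) (T : L[X]) :
    Hmat n (nod x) * Mmat n (nod x) T = (Mmat n (nod x) T).transpose * Hmat n (nod x) := by
  rw [← vandermonde_transpose_mul hx, mul_assoc, vandermonde_mul_Mmat, ← mul_assoc, ← mul_assoc]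
  congr 1
  rw [← Matrix.transpose_mul, vandermonde_mul_Mmat, Matrix.transpose_mul,
    Matrix.diagonal_transpose]

lemma comp_neg_neg {R : Type*} [CommRing R] (p : R[X]) : (p.comp (-X)).comp (-X) = p := by
  rw [comp_assoc, neg_comp, X_comp, neg_neg, comp_X]

/-- If `g(-X) = ± g` then `g` is also the product over the negatives of the roots. -/
lemma nod_neg_of_parity (hpar : (nod x).comp (-X) = (-1) ^ n * nod x) :
    nod (fun i => - x i) = nod x := by
  have h1 : (nod x).comp (-X) = (-1) ^ n * nod (fun i => - x i) := by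
    rw [nod, nod, Polynomial.prod_comp]
    have : ((-1 : L[X])) ^ n = ∏ _i : Fin n, (-1 : L[X]) := by
      rw [Finset.prod_const, Finset.card_univ, Fintype.card_fin]
    rw [this, ← Finset.prod_mul_distrib]
    refine Finset.prod_congr rfl fun i _ => ?_
    rw [sub_comp, X_comp, C_comp, C_neg]
    ring
  rw [h1] at hpar
  have h2 : ((-1 : L[X])) ^ n * (-1) ^ n = 1 := by
    rw [← mul_pow]; simp
  calc nod (fun i => - x i) = (-1) ^ n * ((-1) ^ n * nod (fun i => - x i)) := by
        rw [← mul_assoc, h2, one_mul]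
    _ = (-1) ^ n * ((-1) ^ n * nod x) := by rw [hpar]
    _ = nod x := by rw [← mul_assoc, h2, one_mul]

lemma pS_neg (hx : Function.Injective x) (hpar : (nod x).comp (-X) = (-1) ^ n * nod x) (k : ℕ) :
    (-1) ^ k * pS n (nod x) k = pS n (nod x) k := by
  have h1 : Function.Injective fun i => - x i := fun i j h => hx (neg_injective h)
  conv_rhs => rw [← nod_neg_of_parity hpar, pS_nod h1]
  rw [pS_nod hx, Finset.mul_sum]
  refine Finset.sum_congr rfl fun i _ => ?_
  rw [neg_pow (x i)]

lemma vandermonde_neg_mul_Mmat (hpar : (nod x).comp (-X) = (-1) ^ n * nod x) (T : L[X]) :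
    Matrix.vandermonde (fun i => - x i) * Mmat n (nod x) T =
      Matrix.diagonal (fun i => T.eval (- x i)) * Matrix.vandermonde (fun i => - x i) := by
  have h := vandermonde_mul_Mmat (fun i => - x i) T
  rwa [nod_neg_of_parity hpar] at h

lemma Amat_transpose_nod (hx : Function.Injective x)
    (hpar : (nod x).comp (-X) = (-1) ^ n * nod x) :
    (Amat n (nod x)).transpose = Amat n (nod x) := by
  ext i j
  rw [Matrix.transpose_apply, Amat, Matrix.of_apply, Matrix.of_apply, add_comm (j : ℕ) (i : ℕ)]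
  have h := pS_neg hx hpar ((i : ℕ) + j)
  conv_rhs => rw [← h, ← mul_assoc, ← pow_add]
  congr 1
  rw [show (j : ℕ) + (i + j) = i + 2 * j by ring, pow_add, pow_mul]
  simp

/-- `A M_T = (M_{T̄})ᵀ A`. -/
lemma Amat_mul_Mmat_nod (hx : Function.Injective x)
    (hpar : (nod x).comp (-X) = (-1) ^ n * nod x) (T : L[X]) :
    Amat n (nod x) * Mmat n (nod x) T =
      (Mmat n (nod x) (T.comp (-X))).transpose * Amat n (nod x) := by
  rw [← vandermonde_transpose_mul_neg hx, mul_assoc, vandermonde_neg_mul_Mmat hpar, ← mul_assoc,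
    ← mul_assoc]
  congr 1
  rw [← Matrix.transpose_mul, vandermonde_mul_Mmat, Matrix.transpose_mul,
    Matrix.diagonal_transpose]
  congr 2
  ext i
  rw [eval_comp, eval_neg, eval_X]

/-- If `M_T` is selfadjoint for `A` then `T` is even modulo `g`. -/
lemma eval_neg_of_self (hx : Function.Injective x)
    (hpar : (nod x).comp (-X) = (-1) ^ n * nod x) {T : L[X]}
    (h : Amat n (nod x) * Mmat n (nod x) T = (Mmat n (nod x) T).transpose * Amat n (nod x))
    (i : Fin n) : T.eval (- x i) = T.eval (x i) := by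
  have hV : IsUnit (Matrix.vandermonde x).det := isUnit_vandermonde hx
  have hV' : IsUnit (Matrix.vandermonde x).transpose.det := by rwa [Matrix.det_transpose]
  have hVn : IsUnit (Matrix.vandermonde (fun i => - x i)).det :=
    isUnit_vandermonde (fun i j h => hx (neg_injective h))
  have h1 : Amat n (nod x) * Mmat n (nod x) T = (Matrix.vandermonde x).transpose *
      (Matrix.diagonal (fun i => T.eval (- x i)) * Matrix.vandermonde (fun i => - x i)) := by
    rw [← vandermonde_transpose_mul_neg hx, mul_assoc, vandermonde_neg_mul_Mmat hpar]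
  have h2 : (Mmat n (nod x) T).transpose * Amat n (nod x) = (Matrix.vandermonde x).transpose *
      (Matrix.diagonal (fun i => T.eval (x i)) * Matrix.vandermonde (fun i => - x i)) := by
    rw [← vandermonde_transpose_mul_neg hx, ← mul_assoc, ← mul_assoc]
    congr 1
    rw [← Matrix.transpose_mul, vandermonde_mul_Mmat, Matrix.transpose_mul,
      Matrix.diagonal_transpose]
  rw [h1, h2] at h
  have h3 := congrArg (fun M => ((Matrix.vandermonde x).transpose)⁻¹ * M) h
  simp only [← mul_assoc, Matrix.nonsing_inv_mul _ hV', one_mul] at h3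
  have h4 := congrArg (fun M => M * (Matrix.vandermonde (fun i => - x i))⁻¹) h3
  simp only [mul_assoc, Matrix.mul_nonsing_inv _ hVn, mul_one] at h4
  exact congrFun (Matrix.diagonal_injective h4) i

/-- `Ymat` is the matrix of `C` in the basis of powers of `X`. -/
theorem vandermonde_mul_Ymat' [CharZero L] (hx : Function.Injective x) :
    Matrix.vandermonde x * Ymat n (nod x) = Cx x * Matrix.vandermonde x := by
  set V := Matrix.vandermonde x with hVdef
  have hV : IsUnit V.det := isUnit_vandermonde hx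
  have hV' : IsUnit V.transpose.det := by rwa [Matrix.det_transpose]
  have hH : IsUnit (Hmat n (nod x)).det := by
    rw [det_Hmat_nod hx]; exact hV.pow 2
  set E := Matrix.diagonal (fun i => ∑ j, Cx x i j) with hE
  have h1 : V * Dmat n (nod x) = (E - Cx x) * V := vandermonde_mul_Dmat hx
  have hCt : (Cx x).transpose = - Cx x := by
    ext i j
    simp only [Cx, Matrix.transpose_apply, Matrix.neg_apply, Matrix.of_apply]
    rw [← neg_sub (x j) (x i), div_neg, neg_neg]
  have h2 : V * ((Hmat n (nod x))⁻¹ * (Dmat n (nod x)).transpose * Hmat n (nod x)) =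
      (E + Cx x) * V := by
    set Z := (Hmat n (nod x))⁻¹ * (Dmat n (nod x)).transpose * Hmat n (nod x) with hZ
    have h3 : Hmat n (nod x) * Z = (Dmat n (nod x)).transpose * Hmat n (nod x) := by
      rw [hZ, ← mul_assoc, ← mul_assoc, Matrix.mul_nonsing_inv _ hH, one_mul]
    rw [← vandermonde_transpose_mul hx, ← hVdef] at h3
    have h4 : V.transpose * (V * Z) = V.transpose * ((E + Cx x) * V) := by
      rw [← mul_assoc, h3, ← mul_assoc, ← Matrix.transpose_mul, h1, Matrix.transpose_mul,
        Matrix.transpose_sub, hCt, hE, Matrix.diagonal_transpose, sub_neg_eq_add, mul_assoc]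
    have h5 := congrArg (fun M => (V.transpose)⁻¹ * M) h4
    simpa only [← mul_assoc, Matrix.nonsing_inv_mul _ hV', one_mul] using h5
  rw [Ymat, Matrix.mul_smul, mul_sub, h1, h2, ← sub_mul]
  have h6 : E + Cx x - (E - Cx x) = (2 : L) • Cx x := by
    rw [two_smul]; abel
  rw [h6, Matrix.smul_mul, smul_smul, inv_mul_cancel₀ (two_ne_zero), one_smul]

end Roots

end Pool.Agent.Lib.MP_12adaf_nt
end
end

section

section

/-!
# Diagonalisation and cyclic vectors
-/

namespace Pool.Agent.Lib.MP_12adaf_nt

set_option linter.unusedSectionVars false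
set_option linter.unusedVariables false

open Finset Polynomial

section Diag

variable {L : Type*} [Field L] {n : ℕ} {x : Fin n → L}

/-- A matrix with distinct eigenvalues is diagonalisable. -/
lemma exists_diag {M : Matrix (Fin n) (Fin n) L} (hx : Function.Injective x)
    (h : M.charpoly = nod x) :
    ∃ W : Matrix (Fin n) (Fin n) L, IsUnit W.det ∧ M * W = W * Matrix.diagonal x := by
  have h1 : ∀ i, ∃ v : Fin n → L, v ≠ 0 ∧ (Matrix.scalar (Fin n) (x i) - M).mulVec v = 0 := by
    intro i
    apply Matrix.exists_mulVec_eq_zero_iff.mpr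
    rw [← Matrix.eval_charpoly, h, eval_nod_self]
  choose v hv0 hv using h1
  have hev : ∀ i, M.mulVec (v i) = x i • v i := by
    intro i
    have h2 := hv i
    rw [Matrix.sub_mulVec, sub_eq_zero] at h2
    rw [← h2, Matrix.scalar_apply]
    ext j
    rw [Matrix.mulVec_diagonal, Pi.smul_apply, smul_eq_mul]
  have hlin : LinearIndependent L v := by
    refine Module.End.eigenvectors_linearIndependent' (Matrix.toLin' M) x hx v fun i => ?_
    rw [Module.End.hasEigenvector_iff, Module.End.mem_eigenspace_iff]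
    exact ⟨by rw [Matrix.toLin'_apply, hev], hv0 i⟩
  refine ⟨(Matrix.of v).transpose, ?_, ?_⟩
  · rw [← Matrix.isUnit_iff_isUnit_det, ← Matrix.linearIndependent_cols_iff_isUnit]
    exact hlin
  · ext i j
    rw [Matrix.mul_diagonal, Matrix.mul_apply]
    have h3 := congrFun (hev j) i
    rw [Matrix.mulVec, dotProduct, Pi.smul_apply, smul_eq_mul] at h3
    rw [Matrix.transpose_apply, Matrix.of_apply, mul_comm, ← h3]
    rfl

lemma pow_mul_comm_diag {M N W : Matrix (Fin n) (Fin n) L} (h : M * W = W * N) (k : ℕ) :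
    M ^ k * W = W * N ^ k := by
  induction k with
  | zero => rw [pow_zero, pow_zero, one_mul, mul_one]
  | succ k ih => rw [pow_succ, mul_assoc, h, ← mul_assoc, ih, mul_assoc, ← pow_succ]

lemma trace_pow_of_charpoly {M : Matrix (Fin n) (Fin n) L} (hx : Function.Injective x)
    (h : M.charpoly = nod x) (k : ℕ) : (M ^ k).trace = ∑ i, x i ^ k := by
  obtain ⟨W, hW, hMW⟩ := exists_diag hx h
  have h1 := pow_mul_comm_diag hMW k
  rw [← trace_conj hW h1.symm, Matrix.diagonal_pow, Matrix.trace_diagonal]
  rfl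

end Diag

section Kry

variable {R : Type*} [CommRing R] {n : ℕ}

lemma Krm_col (M : Matrix (Fin n) (Fin n) R) (v : Fin n → R) :
    (Krm M).mulVec v = ∑ j, v j • (M ^ (j : ℕ)).mulVec (e0 n) := by
  ext i
  rw [Matrix.mulVec, dotProduct, Finset.sum_apply]
  refine Finset.sum_congr rfl fun j _ => ?_
  rw [Krm, Matrix.of_apply, Pi.smul_apply, smul_eq_mul, mul_comm]

lemma Krm_transpose_form {A M : Matrix (Fin n) (Fin n) R} (i j : Fin n) :
    ((Krm M).transpose * A * Krm M) i j =
      ((M ^ (i : ℕ)).mulVec (e0 n)) ⬝ᵥ A.mulVec ((M ^ (j : ℕ)).mulVec (e0 n)) := by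
  rw [mul_assoc, Matrix.mul_apply, dotProduct]
  refine Finset.sum_congr rfl fun k _ => ?_
  rw [Matrix.transpose_apply, Krm, Matrix.of_apply, Matrix.mul_apply, Matrix.mulVec, dotProduct]
  rfl

lemma dot_transpose (M : Matrix (Fin n) (Fin n) R) (a b : Fin n → R) :
    (M.transpose.mulVec a) ⬝ᵥ b = a ⬝ᵥ M.mulVec b := by
  rw [Matrix.mulVec_transpose, ← Matrix.dotProduct_mulVec]

/-- If `M` is selfadjoint for the symmetric form `A`, `A e0 = v`. -/
lemma Krm_form_self {A M : Matrix (Fin n) (Fin n) R} {v : Fin n → R}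
    (hAs : A.transpose = A) (hAM : A * M = M.transpose * A) (hA : A.mulVec (e0 n) = v)
    (i j : Fin n) :
    ((Krm M).transpose * A * Krm M) i j = v ⬝ᵥ (M ^ ((i : ℕ) + j)).mulVec (e0 n) := by
  have h1 : ∀ k : ℕ, A * M ^ k = (M ^ k).transpose * A := by
    intro k
    induction k with
    | zero => simp
    | succ k ih =>
      rw [pow_succ, ← mul_assoc, ih, mul_assoc, hAM, ← mul_assoc, ← Matrix.transpose_mul,
        ← pow_succ', ← pow_succ]
  rw [Krm_transpose_form, pow_add, ← Matrix.mulVec_mulVec, ← hA]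
  rw [Matrix.dotProduct_mulVec, ← Matrix.mulVec_transpose, hAs, Matrix.mulVec_mulVec,
    h1, ← Matrix.mulVec_mulVec, dot_transpose]

/-- If `M` is skew for the symmetric form `A`, `A e0 = v`. -/
lemma Krm_form_skew {A M : Matrix (Fin n) (Fin n) R} {v : Fin n → R}
    (hAs : A.transpose = A) (hAM : A * M = - (M.transpose * A)) (hA : A.mulVec (e0 n) = v)
    (i j : Fin n) :
    ((Krm M).transpose * A * Krm M) i j =
      (-1) ^ (i : ℕ) * (v ⬝ᵥ (M ^ ((i : ℕ) + j)).mulVec (e0 n)) := by
  have h1 : ∀ k : ℕ, A * M ^ k = (-1) ^ k • ((M ^ k).transpose * A) := by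
    intro k
    induction k with
    | zero => simp
    | succ k ih =>
      rw [pow_succ, ← mul_assoc, ih, Matrix.smul_mul, mul_assoc, hAM, mul_neg, ← mul_assoc,
        ← Matrix.transpose_mul, ← pow_succ', ← pow_succ, pow_succ (-1 : ℤ), smul_neg, mul_neg,
        mul_one, neg_smul]
  rw [Krm_transpose_form, pow_add, ← Matrix.mulVec_mulVec, ← hA]
  rw [Matrix.dotProduct_mulVec, ← Matrix.mulVec_transpose, hAs, Matrix.mulVec_mulVec,
    h1, Matrix.smul_mulVec, ← Matrix.mulVec_mulVec, smul_dotProduct, dot_transpose]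
  rw [zsmul_eq_mul]
  push_cast
  rfl

end Kry

section CH

variable {K : Type*} [Field K] {n : ℕ}

/-- The coordinates of `p(M) e0` in the basis `M ^ j e0`. -/
lemma Krm_mulVec_modByMonic (M : Matrix (Fin n) (Fin n) K) (p : K[X]) :
    (Krm M).mulVec (fun i : Fin n => (p %ₘ M.charpoly).coeff i) = (aeval M p).mulVec (e0 n) := by
  have h1 : aeval M (p %ₘ M.charpoly) = aeval M p := by
    have h2 := congrArg (aeval M) (modByMonic_add_div p M.charpoly)
    rw [map_add, map_mul, Matrix.aeval_self_charpoly, zero_mul, add_zero] at h2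
    exact h2
  have hlt : (p %ₘ M.charpoly).degree < n := by
    have := degree_modByMonic_lt p (Matrix.charpoly_monic M)
    rwa [Matrix.charpoly_degree_eq_dim, Fintype.card_fin] at this
  rw [Krm_col, ← h1]
  conv_rhs => rw [← toPoly_coeff hlt]
  rw [toPoly, map_sum, Matrix.sum_mulVec]
  refine Finset.sum_congr rfl fun j _ => ?_
  rw [map_mul, map_pow, aeval_X, aeval_C, ← Algebra.smul_def, Matrix.smul_mulVec]

lemma mul_Krm (M : Matrix (Fin n) (Fin n) K) :
    M * Krm M = Krm M * Mmat n M.charpoly X := by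
  ext i j
  have h1 := congrFun (Krm_mulVec_modByMonic M (X ^ (j : ℕ) * X)) i
  have h2 : aeval M (X ^ (j : ℕ) * X : K[X]) = M * M ^ (j : ℕ) := by
    rw [map_mul, map_pow, aeval_X, ← pow_succ, pow_succ']
  rw [h2, ← Matrix.mulVec_mulVec] at h1
  exact h1.symm

lemma Krm_e0 (M : Matrix (Fin n) (Fin n) K) : (Krm M).mulVec (e0 n) = e0 n := by
  ext i
  rw [mulVec_e0, Krm, Matrix.of_apply]
  simp

lemma charpoly_neg (M : Matrix (Fin n) (Fin n) K) :
    (-M).charpoly = (-1) ^ n * M.charpoly.comp (-X) := by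
  have h1 : Matrix.charmatrix (-M) = -((compRingHom (-X : K[X])).mapMatrix (Matrix.charmatrix M)) := by
    refine Matrix.ext fun i j => ?_
    rw [Matrix.neg_apply, RingHom.mapMatrix_apply, Matrix.map_apply, Matrix.charmatrix_apply,
      Matrix.charmatrix_apply, Matrix.neg_apply, C_neg]
    by_cases hij : i = j
    · subst hij
      simp [compRingHom, add_comm]
    · simp [compRingHom, Matrix.diagonal_apply_ne _ hij]
  rw [Matrix.charpoly, h1, Matrix.det_neg, Fintype.card_fin, ← RingHom.map_det]
  rfl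

end CH

end Pool.Agent.Lib.MP_12adaf_nt
end

section

/-!
# Calogero-Moser duality
-/

namespace Pool.Agent.Lib.MP_12adaf_nt

set_option linter.unusedSectionVars false
set_option linter.unusedVariables false

open Finset Polynomial

section Nod

variable {L : Type*} [Field L] [CharZero L] {n : ℕ} {x : Fin n → L}

/-- The selfadjoint part of `Dmat`. -/
noncomputable def Nmat {K : Type*} [Field K] (n : ℕ) (g : K[X]) : Matrix (Fin n) (Fin n) K :=
  (2 : K)⁻¹ • (Dmat n g + (Amat n g)⁻¹ * (Dmat n g).transpose * Amat n g)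

lemma Xmat_eq {K : Type*} [Field K] (n : ℕ) (g q : K[X]) :
    Xmat n g q = Nmat n g + Mmat n g q := rfl

lemma smul_comm_aux {K : Type*} [Field K] [CharZero K] {D D' Y U : Matrix (Fin n) (Fin n) K}
    (h1 : D * Y - Y * D + 1 = U) (h2 : D' * Y - Y * D' + 1 = U) :
    ((2 : K)⁻¹ • (D + D')) * Y - Y * ((2 : K)⁻¹ • (D + D')) + 1 = U := by
  rw [Matrix.smul_mul, Matrix.mul_smul, ← smul_sub]
  have h3 : (D + D') * Y - Y * (D + D') = (2 : K) • (U - 1) := by
    rw [two_smul, add_mul, mul_add]
    nth_rewrite 1 [← h1]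
    rw [← h2]
    abel
  rw [h3, smul_smul, inv_mul_cancel₀ (two_ne_zero), one_smul, sub_add_cancel]

lemma isUnit_Amat_nod (hx : Function.Injective x) : IsUnit (Amat n (nod x)).det := by
  rw [← vandermonde_transpose_mul_neg hx, Matrix.det_mul, Matrix.det_transpose]
  exact (isUnit_vandermonde hx).mul (isUnit_vandermonde (fun i j h => hx (neg_injective h)))

lemma Nmat_comm_nod (hx : Function.Injective x)
    (hpar : (nod x).comp (-X) = (-1) ^ n * nod x) :
    Nmat n (nod x) * Mmat n (nod x) X - Mmat n (nod x) X * Nmat n (nod x) + 1 =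
      Matrix.vecMulVec (e0 n) (fun k : Fin n => pS n (nod x) k) := by
  refine smul_comm_aux (Dmat_comm_nod hx) ?_
  refine adj_skew (isUnit_Amat_nod hx) (Amat_transpose_nod hx hpar) ?_ (Amat_e0 n (nod x))
    (Dmat_comm_nod hx)
  have h := Amat_mul_Mmat_nod hx hpar X
  have h2 : Mmat n (nod x) ((X : L[X]).comp (-X)) = - Mmat n (nod x) X := by
    ext i j
    simp only [Mmat, Matrix.of_apply, Matrix.neg_apply, X_comp, mul_neg]
    rw [← coeff_neg]
    congr 1
    rw [neg_modByMonic]
  rw [h, h2, Matrix.transpose_neg, neg_mul]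

lemma Amat_mul_Nmat_nod (hx : Function.Injective x)
    (hpar : (nod x).comp (-X) = (-1) ^ n * nod x) :
    Amat n (nod x) * Nmat n (nod x) = (Nmat n (nod x)).transpose * Amat n (nod x) := by
  have hA := isUnit_Amat_nod hx
  have hAs := Amat_transpose_nod hx hpar
  set A := Amat n (nod x) with hAdef
  set D := Dmat n (nod x) with hD
  have h1 : A * (A⁻¹ * D.transpose * A) = D.transpose * A := by
    rw [← mul_assoc, ← mul_assoc, Matrix.mul_nonsing_inv _ hA, one_mul]
  have h2 : (A⁻¹ * D.transpose * A).transpose * A = A * D := by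
    have := congrArg Matrix.transpose h1
    rw [Matrix.transpose_mul A (A⁻¹ * D.transpose * A), Matrix.transpose_mul D.transpose A, hAs,
      Matrix.transpose_transpose] at this
    exact this
  rw [Nmat, ← hD, ← hAdef, Matrix.mul_smul, mul_add, h1, Matrix.transpose_smul,
    Matrix.transpose_add, Matrix.smul_mul, add_mul, h2, add_comm]

lemma Mmat_commute_nod (hx : Function.Injective x) (S T : L[X]) :
    Mmat n (nod x) S * Mmat n (nod x) T = Mmat n (nod x) T * Mmat n (nod x) S := by
  have hV := isUnit_vandermonde hx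
  have key : ∀ S T : L[X], Matrix.vandermonde x * (Mmat n (nod x) S * Mmat n (nod x) T) =
      Matrix.diagonal (fun i => S.eval (x i) * T.eval (x i)) * Matrix.vandermonde x := by
    intro S T
    rw [← mul_assoc, vandermonde_mul_Mmat, mul_assoc, vandermonde_mul_Mmat, ← mul_assoc,
      Matrix.diagonal_mul_diagonal]
  have h : Matrix.vandermonde x * (Mmat n (nod x) S * Mmat n (nod x) T) =
      Matrix.vandermonde x * (Mmat n (nod x) T * Mmat n (nod x) S) := by
    rw [key, key]
    simp_rw [mul_comm]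
  have h5 := congrArg (fun M => (Matrix.vandermonde x)⁻¹ * M) h
  simpa only [← mul_assoc, Matrix.nonsing_inv_mul _ hV, one_mul] using h5

lemma Xmat_comm_nod (hx : Function.Injective x)
    (hpar : (nod x).comp (-X) = (-1) ^ n * nod x) (q : L[X]) :
    Xmat n (nod x) q * Mmat n (nod x) X - Mmat n (nod x) X * Xmat n (nod x) q + 1 =
      Matrix.vecMulVec (e0 n) (fun k : Fin n => pS n (nod x) k) := by
  rw [Xmat_eq, add_mul, mul_add, Mmat_commute_nod hx q X, add_sub_add_right_eq_sub,
    Nmat_comm_nod hx hpar]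

lemma Amat_mul_Xmat_nod (hx : Function.Injective x)
    (hpar : (nod x).comp (-X) = (-1) ^ n * nod x) {q : L[X]} (hq : q.comp (-X) = q) :
    Amat n (nod x) * Xmat n (nod x) q = (Xmat n (nod x) q).transpose * Amat n (nod x) := by
  rw [Xmat_eq, mul_add, Amat_mul_Nmat_nod hx hpar, Amat_mul_Mmat_nod hx hpar, hq,
    Matrix.transpose_add, add_mul]

/-- The discriminant of the dual polynomial. -/
theorem discr_Xmat_nod (hx : Function.Injective x)
    (hpar : (nod x).comp (-X) = (-1) ^ n * nod x) {q : L[X]} (hq : q.comp (-X) = q)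
    {y : Fin n → L} (hy : Function.Injective y) (hf : (Xmat n (nod x) q).charpoly = nod y) :
    (nod y).discr =
      (-1) ^ (n * (n - 1) / 2) * (nod x).discr * (Krm (Xmat n (nod x) q)).det ^ 2 := by
  set M := Xmat n (nod x) q with hM
  have h1 : (Krm M).transpose * Amat n (nod x) * Krm M =
      (Matrix.vandermonde y).transpose * Matrix.vandermonde y := by
    ext i j
    rw [Krm_form_self (Amat_transpose_nod hx hpar) (Amat_mul_Xmat_nod hx hpar hq)
      (Amat_e0 n (nod x)) i j, ← trace_pow_X (Xmat_comm_nod hx hpar q), ← hM,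
      trace_pow_of_charpoly hy hf, Matrix.mul_apply]
    refine Finset.sum_congr rfl fun k _ => ?_
    rw [Matrix.transpose_apply, Matrix.vandermonde_apply, Matrix.vandermonde_apply, pow_add]
  have h2 := congrArg Matrix.det h1
  rw [Matrix.det_mul, Matrix.det_mul, Matrix.det_mul, Matrix.det_transpose,
    Matrix.det_transpose, det_Amat_nod hx] at h2
  rw [discr_nod y, sq, ← h2]
  ring

end Nod

/-- The discriminant of the polynomial with parameters `(g, q)`. -/
theorem discr_Xmat {K : Type*} [Field K] [CharZero K] {n : ℕ} {g q : K[X]} (hg : g.Monic)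
    (hn : g.natDegree = n) (hs : g.Separable) (hpar : g.comp (-X) = (-1) ^ n * g)
    (hq : q.comp (-X) = q) (hf : (Xmat n g q).charpoly.Separable) :
    (Xmat n g q).charpoly.discr =
      (-1) ^ (n * (n - 1) / 2) * g.discr * (Krm (Xmat n g q)).det ^ 2 := by
  let L := AlgebraicClosure K
  let φ : K →+* L := algebraMap K L
  have : CharZero L := charZero_of_injective_algebraMap (algebraMap K L).injective
  obtain ⟨x, hx, h1⟩ := exists_nod φ hg hn hs
  obtain ⟨y, hy, h2⟩ := exists_nod φ (Matrix.charpoly_monic _)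
    (by rw [Matrix.charpoly_natDegree_eq_dim, Fintype.card_fin]) hf
  have hpar' : (nod x).comp (-X) = (-1) ^ n * nod x := by
    have := congrArg (Polynomial.map φ) hpar
    rw [Polynomial.map_comp, Polynomial.map_neg, Polynomial.map_X, Polynomial.map_mul,
      Polynomial.map_pow, Polynomial.map_neg, Polynomial.map_one, h1] at this
    exact this
  have hq' : (q.map φ).comp (-X) = q.map φ := by
    have := congrArg (Polynomial.map φ) hq
    rwa [Polynomial.map_comp, Polynomial.map_neg, Polynomial.map_X] at this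
  have h3 : (Xmat n (nod x) (q.map φ)).charpoly = nod y := by
    rw [← h2, ← Matrix.charpoly_map, map_Xmat φ hg, h1]
  have h4 := discr_Xmat_nod hx hpar' hq' hy h3
  apply φ.injective
  rw [← discr_map_monic φ (Matrix.charpoly_monic _), h2, h4, map_mul, map_mul, map_pow, map_pow,
    map_neg, map_one, ← discr_map_monic φ hg, h1, RingHom.map_det]
  congr 3
  rw [RingHom.mapMatrix_apply, map_Krm, map_Xmat φ hg, h1]

/-- `Ymat` is the matrix of `C` in the basis of powers of `X`. -/
theorem vandermonde_mul_Ymat {L : Type*} [Field L] [CharZero L] {n : ℕ} {x : Fin n → L}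
    (hx : Function.Injective x) :
    Matrix.vandermonde x * Ymat n (nod x) = Cx x * Matrix.vandermonde x :=
  vandermonde_mul_Ymat' hx

lemma map_Nmat {K L : Type*} [Field K] [Field L] (φ : K →+* L) {n : ℕ} {g : K[X]}
    (hg : g.Monic) : (Nmat n g).map φ = Nmat n (g.map φ) := by
  rw [Nmat, Nmat, ← map_Dmat φ hg, ← map_Amat φ hg, ← map_inv_matrix]
  ext i j
  simp only [Matrix.map_apply, Matrix.add_apply, Matrix.smul_apply, smul_eq_mul, map_add, map_mul,
    map_inv₀, map_ofNat, Matrix.mul_apply, map_sum, Matrix.transpose_apply]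

/-- The even function `q` attached to `f`. -/
noncomputable def qof {K : Type*} [Field K] (n : ℕ) (f : K[X]) : K[X] :=
  toPoly (((Krm (Ymat n f))⁻¹ * Mmat n f X * Krm (Ymat n f) -
    Nmat n (Ymat n f).charpoly).mulVec (e0 n))

lemma map_qof {K L : Type*} [Field K] [Field L] (φ : K →+* L) {n : ℕ} {f : K[X]}
    (hf : f.Monic) : (qof n f).map φ = qof n (f.map φ) := by
  rw [qof, qof, map_toPoly]
  congr 1
  ext i
  have h1 : Mmat n (f.map φ) X = (Mmat n f X).map φ := by
    have := map_Mmat φ hf n X
    rwa [Polynomial.map_X] at this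
  rw [← map_Ymat φ hf, Matrix.charpoly_map, ← map_Nmat φ (Matrix.charpoly_monic _), ← map_Krm,
    ← map_inv_matrix, h1, ← map_e0 φ n]
  simp only [Matrix.mulVec, dotProduct, Matrix.sub_apply, Matrix.mul_apply, Matrix.map_apply,
    map_sum, map_mul, map_sub]

lemma charpoly_conj {K : Type*} [Field K] {n : ℕ} {M N V : Matrix (Fin n) (Fin n) K}
    (hV : IsUnit V.det) (h : V * M = N * V) : M.charpoly = N.charpoly := by
  obtain ⟨W, hW⟩ := (Matrix.isUnit_iff_isUnit_det V).mpr hV
  rw [← hW] at h
  have h2 : N = W.val * M * W⁻¹.val := by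
    rw [h, Matrix.mul_assoc, Units.mul_inv, Matrix.mul_one]
  rw [h2, Matrix.coe_units_inv, Matrix.charpoly_units_conj]

section Nod2

variable {L : Type*} [Field L] [CharZero L] {n : ℕ} {x y : Fin n → L}

lemma isUnit_Hmat_nod (hy : Function.Injective y) : IsUnit (Hmat n (nod y)).det := by
  rw [det_Hmat_nod hy]; exact (isUnit_vandermonde hy).pow 2

lemma Ymat_comm_nod (hy : Function.Injective y) :
    Mmat n (nod y) X * Ymat n (nod y) - Ymat n (nod y) * Mmat n (nod y) X + 1 =
      Matrix.vecMulVec (e0 n) (fun k : Fin n => pS n (nod y) k) := by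
  have h1 := Dmat_comm_nod hy
  have h2 := adj_self (isUnit_Hmat_nod hy) (Hmat_transpose n (nod y)) (Hmat_mul_Mmat_nod hy X)
    (Hmat_e0 n (nod y)) h1
  rw [Ymat]
  set D' := (Hmat n (nod y))⁻¹ * (Dmat n (nod y)).transpose * Hmat n (nod y) with hD'
  set D := Dmat n (nod y) with hD
  set M := Mmat n (nod y) X with hM
  set U := Matrix.vecMulVec (e0 n) (fun k : Fin n => pS n (nod y) k) with hU
  rw [Matrix.mul_smul, Matrix.smul_mul, ← smul_sub]
  have h3 : M * (D' - D) - (D' - D) * M = (2 : L) • (U - 1) := by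
    rw [two_smul, mul_sub, sub_mul]
    nth_rewrite 1 [← h1]
    rw [← h2]
    abel
  rw [h3, smul_smul, inv_mul_cancel₀ (two_ne_zero), one_smul, sub_add_cancel]

lemma Hmat_mul_Ymat_nod (hy : Function.Injective y) :
    Hmat n (nod y) * Ymat n (nod y) = - ((Ymat n (nod y)).transpose * Hmat n (nod y)) := by
  have hH := isUnit_Hmat_nod hy
  have hHs := Hmat_transpose n (nod y)
  rw [Ymat]
  set H := Hmat n (nod y) with hHdef
  set D := Dmat n (nod y) with hD
  have h1 : H * (H⁻¹ * D.transpose * H) = D.transpose * H := by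
    rw [← mul_assoc, ← mul_assoc, Matrix.mul_nonsing_inv _ hH, one_mul]
  have h2 : (H⁻¹ * D.transpose * H).transpose * H = H * D := by
    have := congrArg Matrix.transpose h1
    rw [Matrix.transpose_mul H (H⁻¹ * D.transpose * H), Matrix.transpose_mul D.transpose H, hHs,
      Matrix.transpose_transpose] at this
    exact this
  rw [Matrix.mul_smul, mul_sub, h1, Matrix.transpose_smul, Matrix.transpose_sub, Matrix.smul_mul,
    sub_mul, h2, ← smul_neg, neg_sub]

lemma commute_eq_Mmat_nod (hx : Function.Injective x) {R : Matrix (Fin n) (Fin n) L}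
    (h : R * Mmat n (nod x) X = Mmat n (nod x) X * R) :
    R = Mmat n (nod x) (toPoly (R.mulVec (e0 n))) := by
  set V := Matrix.vandermonde x with hV
  have hVu : IsUnit V.det := isUnit_vandermonde hx
  have h2 : V * Mmat n (nod x) X = Matrix.diagonal x * V := by
    have := vandermonde_mul_Mmat x X
    simpa only [eval_X] using this
  set B := V * R * V⁻¹ with hB
  have hBV : B * V = V * R := by
    rw [hB, mul_assoc, Matrix.nonsing_inv_mul _ hVu, mul_one]
  have h3 : B * Matrix.diagonal x * V = Matrix.diagonal x * B * V := by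
    rw [mul_assoc B, ← h2, ← mul_assoc B V, hBV, mul_assoc V R, h, ← mul_assoc V, h2,
      mul_assoc (Matrix.diagonal x) V R, ← hBV, mul_assoc (Matrix.diagonal x) B V]
  have h4 : B * Matrix.diagonal x = Matrix.diagonal x * B := by
    have h5 := congrArg (fun M => M * V⁻¹) h3
    simpa only [mul_assoc, Matrix.mul_nonsing_inv _ hVu, mul_one] using h5
  have h6 : ∀ i j, i ≠ j → B i j = 0 := by
    intro i j hij
    have h7 := congrFun (congrFun h4 i) j
    rw [Matrix.mul_diagonal, Matrix.diagonal_mul] at h7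
    have h8 : (x j - x i) * B i j = 0 := by linear_combination h7
    rcases mul_eq_zero.mp h8 with h9 | h9
    · exact absurd (hx (sub_eq_zero.mp h9)).symm hij
    · exact h9
  have h7 : B = Matrix.diagonal (fun i => B i i) := by
    ext i j
    by_cases hij : i = j
    · subst hij; rw [Matrix.diagonal_apply_eq]
    · rw [Matrix.diagonal_apply_ne _ hij, h6 i j hij]
  have h8 : ∀ i, (toPoly (R.mulVec (e0 n))).eval (x i) = B i i := by
    intro i
    rw [eval_of_degree_lt (degree_toPoly_lt _)]
    have h9 : (V.mulVec (R.mulVec (e0 n))) i = B i i := by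
      rw [Matrix.mulVec_mulVec, ← hBV, ← Matrix.mulVec_mulVec, vandermonde_e0, h7,
        Matrix.mulVec_diagonal, Matrix.diagonal_apply_eq, mul_one]
    rw [← h9, Matrix.mulVec, dotProduct]
    refine Finset.sum_congr rfl fun k _ => ?_
    rw [coeff_toPoly, hV, Matrix.vandermonde_apply]
  have h10 : V * R = V * Mmat n (nod x) (toPoly (R.mulVec (e0 n))) := by
    rw [hV, vandermonde_mul_Mmat, ← hV, ← hBV]
    congr 1
    rw [h7]
    ext i j
    by_cases hij : i = j
    · subst hij; rw [Matrix.diagonal_apply_eq, Matrix.diagonal_apply_eq, h8]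
    · rw [Matrix.diagonal_apply_ne _ hij, Matrix.diagonal_apply_ne _ hij]
  have h5 := congrArg (fun M => V⁻¹ * M) h10
  simpa only [← mul_assoc, Matrix.nonsing_inv_mul _ hVu, one_mul] using h5

lemma parity_Ymat_nod (hy : Function.Injective y) :
    (Ymat n (nod y)).charpoly.comp (-X) = (-1) ^ n * (Ymat n (nod y)).charpoly := by
  have h1 : (- Ymat n (nod y)).charpoly = (Ymat n (nod y)).charpoly := by
    rw [← Matrix.charpoly_transpose (Ymat n (nod y))]
    refine charpoly_conj (isUnit_Hmat_nod hy) ?_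
    rw [mul_neg, Hmat_mul_Ymat_nod hy, neg_neg]
  rw [charpoly_neg] at h1
  have h2 : ((-1 : L[X])) ^ n * (-1) ^ n = 1 := by
    rw [← mul_pow]; simp
  calc (Ymat n (nod y)).charpoly.comp (-X)
      = (-1) ^ n * ((-1) ^ n * (Ymat n (nod y)).charpoly.comp (-X)) := by
        rw [← mul_assoc, h2, one_mul]
    _ = _ := by rw [h1]

/-- The eigenbasis of `C`. -/
lemma Krm_Ymat_form_nod (hy : Function.Injective y) (hx : Function.Injective x)
    (hG : (Ymat n (nod y)).charpoly = nod x) :
    (Krm (Ymat n (nod y))).transpose * Hmat n (nod y) * Krm (Ymat n (nod y)) =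
      Amat n (nod x) := by
  have hpar : (nod x).comp (-X) = (-1) ^ n * nod x := by
    rw [← hG]; exact parity_Ymat_nod hy
  ext i j
  rw [Krm_form_skew (Hmat_transpose n (nod y)) (Hmat_mul_Ymat_nod hy) (Hmat_e0 n (nod y)) i j,
    ← trace_pow_Y (Ymat_comm_nod hy), trace_pow_of_charpoly hx hG, ← Amat_transpose_nod hx hpar,
    Matrix.transpose_apply, Amat, Matrix.of_apply, pS_nod hx, add_comm (j : ℕ)]

lemma isUnit_Krm_Ymat_nod (hy : Function.Injective y) (hx : Function.Injective x)
    (hG : (Ymat n (nod y)).charpoly = nod x) : IsUnit (Krm (Ymat n (nod y))).det := by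
  have h1 := congrArg Matrix.det (Krm_Ymat_form_nod hy hx hG)
  have h2 := isUnit_Amat_nod hx
  rw [← h1, Matrix.det_mul] at h2
  exact isUnit_of_mul_isUnit_right h2

/-- `f` is recovered from its parameters. -/
theorem params_nod (hy : Function.Injective y) (hx : Function.Injective x)
    (hG : (Ymat n (nod y)).charpoly = nod x) :
    (qof n (nod y)).comp (-X) = qof n (nod y) ∧
      Xmat n (nod x) (qof n (nod y)) =
        (Krm (Ymat n (nod y)))⁻¹ * Mmat n (nod y) X * Krm (Ymat n (nod y)) ∧
      (Xmat n (nod x) (qof n (nod y))).charpoly = nod y := by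
  have hpar : (nod x).comp (-X) = (-1) ^ n * nod x := by
    rw [← hG]; exact parity_Ymat_nod hy
  have hQ := isUnit_Krm_Ymat_nod hy hx hG
  have hform := Krm_Ymat_form_nod hy hx hG
  have hYQ : Ymat n (nod y) * Krm (Ymat n (nod y)) =
      Krm (Ymat n (nod y)) * Mmat n (nod x) X := by
    rw [← hG]; exact mul_Krm _
  have hcomm := Ymat_comm_nod hy
  have htr : ∀ j : Fin n, ((Krm (Ymat n (nod y))).transpose.mulVec
      (fun k : Fin n => pS n (nod y) k)) j = pS n (nod x) j := by
    intro j
    rw [pS_nod hx, ← trace_pow_of_charpoly hx hG, trace_pow_Y hcomm, Matrix.mulVec, dotProduct,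
      dotProduct]
    refine Finset.sum_congr rfl fun k _ => ?_
    rw [Matrix.transpose_apply, Krm, Matrix.of_apply, mul_comm]
  have hQe := Krm_e0 (Ymat n (nod y))
  have hHM := Hmat_mul_Mmat_nod hy X
  have hqdef : qof n (nod y) = toPoly (((Krm (Ymat n (nod y)))⁻¹ * Mmat n (nod y) X *
      Krm (Ymat n (nod y)) - Nmat n (nod x)).mulVec (e0 n)) := by
    rw [qof, hG]
  have hchM : (Mmat n (nod y) X).charpoly = nod y := by
    have := charT_nod hy (X : L[X])
    simpa only [charT, eval_X] using this
  set Q := Krm (Ymat n (nod y)) with hQdef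
  set Y := Ymat n (nod y) with hYdef
  set M := Mmat n (nod y) X with hMdef
  set A := Amat n (nod x) with hAdef
  set H := Hmat n (nod y) with hHdef
  set N := Nmat n (nod x) with hNdef
  set G := Mmat n (nod x) X with hGdef
  set X' := Q⁻¹ * M * Q with hX'
  have hQX : Q * X' = M * Q := by
    rw [hX', ← mul_assoc, ← mul_assoc, Matrix.mul_nonsing_inv _ hQ, one_mul]
  have hX'comm : X' * G - G * X' + 1 =
      Matrix.vecMulVec (e0 n) (fun k : Fin n => pS n (nod x) k) := by
    have h1 : Q * (X' * G - G * X' + 1) =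
        Q * Matrix.vecMulVec (e0 n) (fun k : Fin n => pS n (nod x) k) := by
      have p1 : Q * (X' * G) = M * Y * Q := by
        rw [← mul_assoc Q X' G, hQX, mul_assoc M Q G, ← hYQ, ← mul_assoc M Y Q]
      have p2 : Q * (G * X') = Y * M * Q := by
        rw [← mul_assoc Q G X', ← hYQ, mul_assoc Y Q X', hQX, ← mul_assoc Y M Q]
      have p3 : Q * (X' * G - G * X' + 1) = (M * Y - Y * M + 1) * Q := by
        rw [mul_add, mul_sub, p1, p2, mul_one, add_mul, sub_mul, one_mul]
      rw [p3, hcomm, Matrix.mul_vecMulVec, hQe, Matrix.vecMulVec_mul, ← Matrix.mulVec_transpose]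
      congr 1
      ext j
      exact htr j
    have h5 := congrArg (fun M => Q⁻¹ * M) h1
    simpa only [← mul_assoc, Matrix.nonsing_inv_mul _ hQ, one_mul] using h5
  have hNcomm : N * G - G * N + 1 =
      Matrix.vecMulVec (e0 n) (fun k : Fin n => pS n (nod x) k) := Nmat_comm_nod hx hpar
  have hRcomm : (X' - N) * G = G * (X' - N) := by
    have h1 : X' * G - G * X' = N * G - G * N := by
      have := hX'comm.trans hNcomm.symm
      exact add_right_cancel this
    rw [sub_mul, mul_sub]
    rw [sub_eq_sub_iff_add_eq_add] at h1 ⊢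
    calc X' * G + G * N = N * G + G * X' := h1
      _ = _ := by abel
  have hR : X' - N = Mmat n (nod x) (qof n (nod y)) := by
    rw [hqdef]
    exact commute_eq_Mmat_nod hx hRcomm
  have hXX : Xmat n (nod x) (qof n (nod y)) = X' := by
    rw [Xmat_eq, ← hR, ← hNdef]
    abel
  have hself : A * X' = X'.transpose * A := by
    have p1 : A * X' = Q.transpose * H * (M * Q) := by
      rw [← hform, mul_assoc (Q.transpose * H) Q X', hQX]
    have p2 : X'.transpose * A = Q.transpose * M.transpose * (H * Q) := by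
      rw [← hform, mul_assoc Q.transpose H Q, ← mul_assoc X'.transpose, ← Matrix.transpose_mul Q X',
        hQX, Matrix.transpose_mul M Q]
    rw [p1, p2, mul_assoc Q.transpose H, ← mul_assoc H M Q, hHM, mul_assoc Q.transpose,
      mul_assoc M.transpose H Q]
  have hqself : A * Mmat n (nod x) (qof n (nod y)) =
      (Mmat n (nod x) (qof n (nod y))).transpose * A := by
    rw [← hR, mul_sub, Matrix.transpose_sub, sub_mul, hself, Amat_mul_Nmat_nod hx hpar]
  have hev := eval_neg_of_self hx hpar hqself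
  refine ⟨?_, hXX, ?_⟩
  · have hlt : (qof n (nod y)).degree < n := by rw [hqdef]; exact degree_toPoly_lt _
    have hlt' : ((qof n (nod y)).comp (-X)).degree < n := by
      rcases eq_or_ne (qof n (nod y)) 0 with h0 | h0
      · rw [h0, zero_comp]; rw [h0] at hlt; exact hlt
      · refine lt_of_le_of_lt degree_le_natDegree ?_
        rw [natDegree_comp, natDegree_neg, natDegree_X, mul_one]
        rwa [← degree_eq_natDegree h0]
    refine eq_of_eval_nod hx (by simpa using hlt') (by simpa using hlt) fun j => ?_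
    rw [eval_comp, eval_neg, eval_X, hev j]
  · rw [hXX]
    rw [← hchM]
    exact charpoly_conj hQ hQX

end Nod2

/-- The parameters of `f`. -/
theorem exists_params {K : Type*} [Field K] [CharZero K] {n : ℕ} {f : K[X]} (hf : f.Monic)
    (hn : f.natDegree = n) (hs : f.Separable) (hY : (Ymat n f).charpoly.Separable) :
    (Ymat n f).charpoly.comp (-X) = (-1) ^ n * (Ymat n f).charpoly ∧
    ∃ q : K[X], q.degree < (n : WithBot ℕ) ∧ q.comp (-X) = q ∧
      (Xmat n (Ymat n f).charpoly q).charpoly = f := by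
  let L := AlgebraicClosure K
  let φ : K →+* L := algebraMap K L
  have : CharZero L := charZero_of_injective_algebraMap (algebraMap K L).injective
  obtain ⟨y, hy, h1⟩ := exists_nod φ hf hn hs
  obtain ⟨x, hx, h2⟩ := exists_nod φ (Matrix.charpoly_monic _)
    (by rw [Matrix.charpoly_natDegree_eq_dim, Fintype.card_fin]) hY
  have hG : (Ymat n (nod y)).charpoly = nod x := by
    rw [← h2, ← Matrix.charpoly_map, map_Ymat φ hf, h1]
  obtain ⟨p1, p2, p3⟩ := params_nod hy hx hG
  have hpar := parity_Ymat_nod hy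
  refine ⟨?_, qof n f, degree_toPoly_lt _, ?_, ?_⟩
  · apply Polynomial.map_injective φ φ.injective
    rw [Polynomial.map_comp, Polynomial.map_neg, Polynomial.map_X, Polynomial.map_mul,
      Polynomial.map_pow, Polynomial.map_neg, Polynomial.map_one, h2, ← hG]
    exact hpar
  · apply Polynomial.map_injective φ φ.injective
    rw [Polynomial.map_comp, Polynomial.map_neg, Polynomial.map_X, map_qof φ hf, h1]
    exact p1
  · apply Polynomial.map_injective φ φ.injective
    rw [← Matrix.charpoly_map, map_Xmat φ (Matrix.charpoly_monic _), h2, map_qof φ hf, h1]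
    exact p3

end Pool.Agent.Lib.MP_12adaf_nt
end
end

section

/-!
# Polynomials `g` with `g(-X) = (-1)^n g(X)`
-/

namespace Pool.Agent.Lib.MP_12adaf_nt

set_option linter.unusedSectionVars false
set_option linter.unusedVariables false

open Finset Polynomial

/-- `discr ((X - a) F) = discr F * F(a) ^ 2` over any field. -/
lemma discr_linear_mul_any {K : Type*} [Field K] {F : K[X]} (hF : F.Monic) (a : K) :
    ((X - C a) * F).discr = F.discr * F.eval a ^ 2 := by
  classical
  wlog hK : IsAlgClosed K generalizing K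
  · let L := AlgebraicClosure K
    let φ : K →+* L := algebraMap K L
    apply φ.injective
    have h1 := this (K := L) (F := F.map φ) (hF.map φ) (φ a) inferInstance
    rw [show (X - C (φ a)) * F.map φ = ((X - C a) * F).map φ by simp,
      discr_map_monic φ ((monic_X_sub_C a).mul hF), discr_map_monic φ hF,
      eval_map, eval₂_at_apply] at h1
    rw [h1, map_mul, map_pow]
  obtain ⟨m, hm⟩ : ∃ m, F.natDegree = m := ⟨_, rfl⟩
  obtain ⟨r, hr⟩ := exists_nod_any hF hm
  subst hr
  have e1 : (X - C a) * nod r = nod (Fin.cons a r : Fin (m + 1) → K) := by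
    rw [nod, nod, Fin.prod_univ_succ]
    simp
  rw [e1, discr_nod, discr_nod, Matrix.det_vandermonde, Matrix.det_vandermonde,
    Fin.prod_univ_succ, Fin.prod_Ioi_zero]
  simp only [Fin.prod_Ioi_succ, Fin.cons_succ, Fin.cons_zero]
  rw [eval_nod, mul_pow, mul_comm]
  congr 1
  rw [← Finset.prod_pow, ← Finset.prod_pow]
  refine Finset.prod_congr rfl fun i _ => ?_
  ring

lemma gof_monic {R : Type*} [CommRing R] (n : ℕ) {c : R[X]} (hc : c.Monic) : (gof n c).Monic :=
  (hc.expand two_pos).mul (monic_X_pow _)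

lemma natDegree_gof {R : Type*} [CommRing R] [Nontrivial R] {n : ℕ} {c : R[X]} (hc : c.Monic)
    (hd : c.natDegree = n / 2) : (gof n c).natDegree = n := by
  rw [gof, (hc.expand two_pos).natDegree_mul (monic_X_pow _), natDegree_X_pow, natDegree_expand,
    hd]
  omega

lemma neg_one_pow_mod_two {R : Type*} [CommRing R] (n : ℕ) : (-1 : R) ^ (n % 2) = (-1) ^ n := by
  conv_rhs => rw [← Nat.mod_add_div n 2, pow_add, pow_mul, neg_one_sq, one_pow, mul_one]

lemma gof_comp_neg {R : Type*} [CommRing R] (n : ℕ) (c : R[X]) :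
    (gof n c).comp (-X) = (-1) ^ n * gof n c := by
  rw [gof, mul_comp, expand_eq_comp_X_pow, comp_assoc, X_pow_comp, X_pow_comp, neg_sq, neg_pow (X : R[X]),
    neg_one_pow_mod_two]
  ring

/-- `gof` and ring homomorphisms. -/
lemma map_gof {R S : Type*} [CommRing R] [CommRing S] (φ : R →+* S) (n : ℕ) (c : R[X]) :
    (gof n c).map φ = gof n (c.map φ) := by
  rw [gof, gof, Polynomial.map_mul, map_expand, Polynomial.map_pow, map_X]

/-- The discriminant of `gof n c` (use `discr_expand_two` and `discr_linear_mul`). -/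
lemma discr_gof {K : Type*} [Field K] {n : ℕ} {c : K[X]} (hc : c.Monic)
    (hd : c.natDegree = n / 2) :
    (-1) ^ (n * (n - 1) / 2) * (gof n c).discr =
      c.coeff 0 * (2 ^ (n / 2) * c.discr * c.coeff 0 ^ (n % 2)) ^ 2 := by
  have h4 : ∀ m : ℕ, (-1 : K) ^ m * (-4) ^ m = (2 ^ m) ^ 2 := fun m => by
    rw [← mul_pow, ← pow_mul, mul_comm m 2, pow_mul]
    norm_num
  rcases Nat.even_or_odd' n with ⟨m, rfl | rfl⟩
  · have h1 : 2 * m % 2 = 0 := by omega
    have h2 : 2 * m / 2 = m := by omega
    rw [h2] at hd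
    have h3 : (-1 : K) ^ (2 * m * (2 * m - 1) / 2) = (-1) ^ m := by
      rw [mul_assoc, Nat.mul_div_cancel_left _ two_pos]
      rcases m with _ | m
      · simp
      · rw [pow_mul', show 2 * (m + 1) - 1 = 2 * m + 1 by omega, Odd.neg_one_pow ⟨m, rfl⟩]
    rw [gof, h1, h2, pow_zero, pow_zero, mul_one, mul_one, discr_expand_two hc hd, h3]
    linear_combination (c.coeff 0 * c.discr ^ 2) * h4 m
  · have h1 : (2 * m + 1) % 2 = 1 := by omega
    have h2 : (2 * m + 1) / 2 = m := by omega
    rw [h2] at hd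
    have h3 : (-1 : K) ^ ((2 * m + 1) * (2 * m + 1 - 1) / 2) = (-1) ^ m := by
      rw [Nat.add_sub_cancel, mul_comm, mul_assoc, Nat.mul_div_cancel_left _ two_pos, pow_mul',
        Odd.neg_one_pow ⟨m, rfl⟩]
    have h5 : gof (2 * m + 1) c = (X - C 0) * expand K 2 c := by
      rw [gof, h1, pow_one, C_0, sub_zero, mul_comm]
    have h6 : (expand K 2 c).eval 0 = c.coeff 0 := by
      rw [expand_eval, zero_pow two_ne_zero, coeff_zero_eq_eval_zero]
    rw [h5, discr_linear_mul_any (hc.expand two_pos), h6, h2, h1, discr_expand_two hc hd, h3,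
      pow_one]
    linear_combination (c.coeff 0 * c.discr ^ 2 * c.coeff 0 ^ 2) * h4 m

lemma separable_gof {K : Type*} [Field K] [CharZero K] {n : ℕ} {c : K[X]} (hc : c.Monic)
    (hd : c.natDegree = n / 2) (hs : c.Separable) (h0 : c.coeff 0 ≠ 0) : (gof n c).Separable := by
  apply separable_of_discr_ne_zero (gof_monic n hc)
  intro h
  have h1 := discr_gof hc hd
  rw [h, mul_zero] at h1
  exact mul_ne_zero h0 (pow_ne_zero 2 (mul_ne_zero (mul_ne_zero (pow_ne_zero _ two_ne_zero)
    (discr_ne_zero_of_separable hc hs)) (pow_ne_zero _ h0))) h1.symm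

lemma coeff_comp_neg_X' {R : Type*} [CommRing R] (p : R[X]) (i : ℕ) :
    (p.comp (-X)).coeff i = (-1) ^ i * p.coeff i := by
  have h1 : (-X : R[X]) = C (-1) * X := by simp
  rw [h1, comp_C_mul_X_coeff, mul_comm]

lemma eq_expand_contract {K : Type*} [Field K] {h : K[X]}
    (hodd : ∀ i, ¬ 2 ∣ i → h.coeff i = 0) : expand K 2 (contract 2 h) = h := by
  ext i
  rw [coeff_expand two_pos]
  split_ifs with hi
  · rw [coeff_contract two_ne_zero, Nat.div_mul_cancel hi]
  · exact (hodd i hi).symm

lemma coeff_eq_zero_of_neg {K : Type*} [Field K] [CharZero K] {i n : ℕ} {a : K}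
    (h : (-1) ^ i * a = (-1) ^ n * a) (hi : ¬ (i % 2 = n % 2)) : a = 0 := by
  rw [← neg_one_pow_mod_two i, ← neg_one_pow_mod_two n] at h
  rcases Nat.mod_two_eq_zero_or_one i with h1 | h1 <;>
    rcases Nat.mod_two_eq_zero_or_one n with h2 | h2 <;> rw [h1, h2] at hi h
  · exact absurd rfl hi
  · have h3 : 2 * a = 0 := by linear_combination h
    exact (mul_eq_zero.mp h3).resolve_left two_ne_zero
  · have h3 : 2 * a = 0 := by linear_combination -h
    exact (mul_eq_zero.mp h3).resolve_left two_ne_zero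
  · exact absurd rfl hi

/-- A separable `g` with `g(-X) = (-1)^n g(X)` is `gof n c`. -/
theorem exists_gof {K : Type*} [Field K] [CharZero K] {n : ℕ} {g : K[X]} (hg : g.Monic)
    (hn : g.natDegree = n) (hs : g.Separable) (hpar : g.comp (-X) = (-1) ^ n * g) :
    ∃ c : K[X], c.Monic ∧ c.natDegree = n / 2 ∧ c.Separable ∧ c.coeff 0 ≠ 0 ∧ gof n c = g := by
  have hco : ∀ i, ¬ (i % 2 = n % 2) → g.coeff i = 0 := fun i hi => by
    have h1 := congrArg (fun p => p.coeff i) hpar
    simp only [coeff_comp_neg_X'] at h1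
    have h2 : ((-1) ^ n * g : K[X]).coeff i = (-1) ^ n * g.coeff i := by
      have h3 : ((-1) ^ n : K[X]) = C ((-1) ^ n) := by simp
      rw [h3, coeff_C_mul]
    rw [h2] at h1
    exact coeff_eq_zero_of_neg h1 hi
  obtain ⟨c, hc⟩ : ∃ c : K[X], gof n c = g := by
    rcases Nat.mod_two_eq_zero_or_one n with h1 | h1
    · refine ⟨contract 2 g, ?_⟩
      rw [gof, h1, pow_zero, mul_one]
      exact eq_expand_contract fun i hi => hco i (by omega)
    · refine ⟨contract 2 (divX g), ?_⟩
      rw [gof, h1, pow_one, eq_expand_contract fun i hi => ?_]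
      · have h2 := divX_mul_X_add g
        rwa [hco 0 (by omega), C_0, add_zero] at h2
      · rw [coeff_divX]
        exact hco (i + 1) (by omega)
  have hcm : c.Monic := by
    have h1 : (expand K 2 c).Monic := by
      refine Monic.of_mul_monic_right (monic_X_pow (n % 2)) ?_
      rw [← hc, gof] at hg
      exact hg
    exact (monic_expand_iff two_pos).mp h1
  have hcd : c.natDegree = n / 2 := by
    have h1 := congrArg natDegree hc
    rw [gof, (hcm.expand two_pos).natDegree_mul (monic_X_pow _), natDegree_X_pow,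
      natDegree_expand, hn] at h1
    omega
  have hd := discr_gof hcm hcd
  rw [hc] at hd
  have h0 : (-1) ^ (n * (n - 1) / 2) * g.discr ≠ 0 :=
    mul_ne_zero (pow_ne_zero _ (neg_ne_zero.mpr one_ne_zero)) (discr_ne_zero_of_separable hg hs)
  rw [hd] at h0
  have h1 := left_ne_zero_of_mul h0
  have h2 := left_ne_zero_of_mul (fun h => right_ne_zero_of_mul h0 (by rw [h, zero_pow two_ne_zero]) : 2 ^ (n / 2) * c.discr * c.coeff 0 ^ (n % 2) ≠ 0)
  refine ⟨c, hcm, hcd, separable_of_discr_ne_zero hcm (right_ne_zero_of_mul h2), h1, hc⟩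

/-- Even polynomials. -/
theorem exists_even {K : Type*} [Field K] [CharZero K] {n : ℕ} {q : K[X]}
    (hd : q.degree < (n : WithBot ℕ)) (hq : q.comp (-X) = q) :
    ∃ p : K[X], p.degree < (((n + 1) / 2 : ℕ) : WithBot ℕ) ∧ expand K 2 p = q := by
  refine ⟨contract 2 q, ?_, eq_expand_contract fun i hi => ?_⟩
  · rw [degree_lt_iff_coeff_zero] at hd ⊢
    intro m hm
    rw [coeff_contract two_ne_zero]
    exact hd _ (by omega)
  · have h1 := congrArg (fun p => p.coeff i) hq
    simp only [coeff_comp_neg_X'] at h1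
    refine coeff_eq_zero_of_neg (n := 0) (i := i) ?_ (by omega)
    rw [h1, pow_zero, one_mul]

lemma expand_two_comp_neg {R : Type*} [CommRing R] (p : R[X]) :
    (expand R 2 p).comp (-X) = expand R 2 p := by
  rw [expand_eq_comp_X_pow, comp_assoc, X_pow_comp, neg_sq]

end Pool.Agent.Lib.MP_12adaf_nt
end
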