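import Mathlib
import Pool.Agent.Lib.MP_12adaf_nt.CM.Defs
import Pool.Agent.Lib.MP_12adaf_nt.CM.Parity
import Pool.Agent.Lib.MP_12adaf_nt.LocalRoots
import Pool.Agent.Lib.MP_12adaf_nt.Disc

/-!
# Weak approximation for `d y ^ 2 = disc P`
-/

namespace Pool.Agent.Lib.MP_12adaf_nt

set_option linter.unusedSectionVars false
set_option linter.unusedVariables false

open Finset Polynomial Filter Topology

/-- The polynomial with parameters `(c, p)`. -/
noncomputable def fcp {K : Type*} [Field K] (n : ℕ) (c p : K[X]) : K[X] :=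
  (Xmat n (gof n c) (expand K 2 p)).charpoly

/-- The square root of `disc(fcp)/c(0)`. -/
noncomputable def kcp {K : Type*} [Field K] (n : ℕ) (c p : K[X]) : K :=
  2 ^ (n / 2) * c.discr * c.coeff 0 ^ (n % 2) * (Krm (Xmat n (gof n c) (expand K 2 p))).det

lemma discr_fcp {K : Type*} [Field K] [CharZero K] {n : ℕ} {c p : K[X]} (hc : c.Monic)
    (hd : c.natDegree = n / 2) (hs : c.Separable) (h0 : c.coeff 0 ≠ 0)
    (hf : (fcp n c p).Separable) : (fcp n c p).discr = c.coeff 0 * kcp n c p ^ 2 := by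
  have h1 := discr_Xmat (gof_monic n hc) (natDegree_gof hc hd) (separable_gof hc hd hs h0)
    (gof_comp_neg n c) (expand_two_comp_neg p) hf
  have h2 := discr_gof (K := K) (n := n) hc hd
  rw [fcp, h1, h2, kcp]
  ring

section Natural

variable {K L : Type*} [Field K] [Field L] (φ : K →+* L) {n : ℕ}

private lemma cm_map_inv (M : Matrix (Fin n) (Fin n) K) : (M⁻¹).map φ = (M.map φ)⁻¹ := by
  rw [Matrix.inv_def, Matrix.inv_def, Ring.inverse_eq_inv', Ring.inverse_eq_inv']
  have h1 : φ M.det = (M.map φ).det := by rw [RingHom.map_det]; rfl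
  have h2 : M.adjugate.map φ = (M.map φ).adjugate := φ.map_adjugate M
  rw [← h1, ← h2]
  ext i j
  simp only [Matrix.map_apply, Matrix.smul_apply, smul_eq_mul, map_mul, map_inv₀]

private lemma cm_map_pS {g : K[X]} (hg : g.Monic) (k : ℕ) : φ (pS n g k) = pS n (g.map φ) k := by
  rw [pS, pS, ← Polynomial.map_X φ, ← Polynomial.map_pow, map_Mmat φ hg, Matrix.trace, Matrix.trace,
    map_sum]
  rfl

private lemma cm_map_Dmat {g : K[X]} (hg : g.Monic) : (Dmat n g).map φ = Dmat n (g.map φ) := by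
  ext i j
  simp only [Matrix.map_apply, Dmat, Matrix.of_apply]
  split_ifs <;> simp [cm_map_pS φ hg]

private lemma cm_map_Hmat {g : K[X]} (hg : g.Monic) : (Hmat n g).map φ = Hmat n (g.map φ) := by
  ext i j
  simp only [Matrix.map_apply, Hmat, Matrix.of_apply, cm_map_pS φ hg]

private lemma cm_map_Amat {g : K[X]} (hg : g.Monic) : (Amat n g).map φ = Amat n (g.map φ) := by
  ext i j
  simp only [Matrix.map_apply, Amat, Matrix.of_apply, map_mul, map_pow, map_neg, map_one,
    cm_map_pS φ hg]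

private lemma cm_map_Ymat {g : K[X]} (hg : g.Monic) : (Ymat n g).map φ = Ymat n (g.map φ) := by
  rw [Ymat, Ymat, ← cm_map_Dmat φ hg, ← cm_map_Hmat φ hg, ← cm_map_inv φ, ← Matrix.transpose_map,
    ← Matrix.map_mul, ← Matrix.map_mul]
  ext i j
  simp only [Matrix.map_apply, Matrix.smul_apply, Matrix.sub_apply, smul_eq_mul, map_mul,
    map_inv₀, map_ofNat, map_sub]

private lemma cm_map_Xmat {g : K[X]} (hg : g.Monic) (q : K[X]) :
    (Xmat n g q).map φ = Xmat n (g.map φ) (q.map φ) := by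
  rw [Xmat, Xmat, ← cm_map_Dmat φ hg, ← cm_map_Amat φ hg, ← cm_map_inv φ, ← Matrix.transpose_map,
    ← Matrix.map_mul, ← Matrix.map_mul, map_Mmat φ hg]
  ext i j
  simp only [Matrix.map_apply, Matrix.smul_apply, Matrix.add_apply, smul_eq_mul, map_mul,
    map_inv₀, map_ofNat, map_add]

private lemma cm_map_Krm (M : Matrix (Fin n) (Fin n) K) : (Krm M).map φ = Krm (M.map φ) := by
  ext i j
  simp only [Matrix.map_apply, Krm, Matrix.of_apply]
  have h1 : (M.map φ) ^ (j : ℕ) = (M ^ (j : ℕ)).map φ := (map_pow φ.mapMatrix M j).symm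
  rw [h1, RingHom.map_mulVec]
  congr 1
  ext i
  simp only [e0, Function.comp]
  split_ifs <;> simp

private lemma cm_map_det (M : Matrix (Fin n) (Fin n) K) : φ M.det = (M.map φ).det := by
  rw [RingHom.map_det]; rfl

private lemma cm_map_Xcp {c : K[X]} (hc : c.Monic) (p : K[X]) :
    (Xmat n (gof n c) (expand K 2 p)).map φ =
      Xmat n (gof n (c.map φ)) (expand L 2 (p.map φ)) := by
  rw [cm_map_Xmat φ (gof_monic n hc), map_gof, map_expand]

end Natural

section Tends

variable {K : Type*} [NormedField K] {α : Type*} {l : Filter α} {n : ℕ}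

private lemma cm_ctb_expand {c : α → K[X]} {c0 : K[X]} (hc : CTB l c c0) :
    CTB l (fun a => expand K 2 (c a)) (expand K 2 c0) := by
  obtain ⟨h1, M, h2, h3⟩ := hc
  refine ⟨fun i => ?_, M * 2, fun a => ?_, ?_⟩
  · simp only [coeff_expand two_pos]
    by_cases h : 2 ∣ i
    · simp only [if_pos h]; exact h1 _
    · simp only [if_neg h]; exact tendsto_const_nhds
  · rw [natDegree_expand]; exact Nat.mul_le_mul_right _ (h2 a)
  · rw [natDegree_expand]; exact Nat.mul_le_mul_right _ h3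

private lemma cm_ctb_gof {c : α → K[X]} {c0 : K[X]} (hc : CTB l c c0) (n : ℕ) :
    CTB l (fun a => gof n (c a)) (gof n c0) :=
  (cm_ctb_expand hc).mul (CTB.const _)

private lemma cm_t_inv {M : α → Matrix (Fin n) (Fin n) K} {M0 : Matrix (Fin n) (Fin n) K}
    (h : Tendsto M l (𝓝 M0)) (hdet : M0.det ≠ 0) : Tendsto (fun a => (M a)⁻¹) l (𝓝 M0⁻¹) := by
  have h1 : ContinuousAt (Inv.inv : Matrix (Fin n) (Fin n) K → Matrix (Fin n) (Fin n) K) M0 := by
    apply continuousAt_matrix_inv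
    rw [Ring.inverse_eq_inv']
    exact continuousAt_inv₀ hdet
  exact h1.tendsto.comp h

private lemma cm_ctb_charpoly {M : α → Matrix (Fin n) (Fin n) K} {M0 : Matrix (Fin n) (Fin n) K}
    (h : Tendsto M l (𝓝 M0)) : CTB l (fun a => (M a).charpoly) M0.charpoly := by
  refine ⟨?_, n, fun a => ?_, ?_⟩
  · have h1 : ∀ i j, Tendsto (fun a => M a i j) l (𝓝 (M0 i j)) := fun i j =>
      tendsto_pi_nhds.mp (tendsto_pi_nhds.mp h i) j
    refine CT.det (A := fun a => Matrix.charmatrix (M a)) (B := Matrix.charmatrix M0)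
      (l := l) fun i j => ?_
    simp only [Matrix.charmatrix_apply]
    exact (CT.const _).sub (CT.C (h1 i j))
  · rw [Matrix.charpoly_natDegree_eq_dim, Fintype.card_fin]
  · rw [Matrix.charpoly_natDegree_eq_dim, Fintype.card_fin]

private lemma cm_t_Krm {M : α → Matrix (Fin n) (Fin n) K} {M0 : Matrix (Fin n) (Fin n) K}
    (h : Tendsto M l (𝓝 M0)) : Tendsto (fun a => (Krm (M a)).det) l (𝓝 (Krm M0).det) := by
  apply tendsto_det
  intro i j
  simp only [Krm, Matrix.of_apply]
  have h1 : Tendsto (fun a => M a ^ (j : ℕ)) l (𝓝 (M0 ^ (j : ℕ))) := h.pow _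
  exact tendsto_mulVec (v := fun _ => e0 n) (w := e0 n)
    (fun i j => tendsto_pi_nhds.mp (tendsto_pi_nhds.mp h1 i) j)
    (fun _ => tendsto_const_nhds) i

section G

variable {g q : α → K[X]} {g0 q0 : K[X]} (hg : CTB l g g0) (hm : ∀ a, (g a).Monic)
  (hd : ∀ a, (g a).natDegree = n) (hm0 : g0.Monic) (hd0 : g0.natDegree = n)

include hg hm hd hm0 hd0

private lemma cm_t_Mmat {T : α → K[X]} {T0 : K[X]} (hT : CTB l T T0) :
    Tendsto (fun a => Mmat n (g a) (T a)) l (𝓝 (Mmat n g0 T0)) := by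
  refine tendsto_pi_nhds.mpr fun i => tendsto_pi_nhds.mpr fun j => ?_
  simp only [Mmat, Matrix.of_apply]
  exact (CTB.modByMonic hg.1 hm hd hm0 hd0 ((CTB.const _).mul hT)).coeff _

private lemma cm_t_pS (k : ℕ) : Tendsto (fun a => pS n (g a) k) l (𝓝 (pS n g0 k)) := by
  have h := cm_t_Mmat hg hm hd hm0 hd0 (CTB.const (X ^ k))
  have hc : Continuous fun M : Matrix (Fin n) (Fin n) K => M.trace :=
    Continuous.matrix_trace continuous_id
  exact (hc.tendsto _).comp h

private lemma cm_t_Dmat : Tendsto (fun a => Dmat n (g a)) l (𝓝 (Dmat n g0)) := by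
  refine tendsto_pi_nhds.mpr fun i => tendsto_pi_nhds.mpr fun j => ?_
  simp only [Dmat, Matrix.of_apply]
  by_cases h : (i : ℕ) < j
  · simp only [if_pos h]
    exact (cm_t_pS hg hm hd hm0 hd0 _).sub tendsto_const_nhds
  · simp only [if_neg h]
    exact tendsto_const_nhds

private lemma cm_t_Amat : Tendsto (fun a => Amat n (g a)) l (𝓝 (Amat n g0)) := by
  refine tendsto_pi_nhds.mpr fun i => tendsto_pi_nhds.mpr fun j => ?_
  simp only [Amat, Matrix.of_apply]
  exact (cm_t_pS hg hm hd hm0 hd0 _).const_mul _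

private lemma cm_t_Xmat (hA : (Amat n g0).det ≠ 0) (hq : CTB l q q0) :
    Tendsto (fun a => Xmat n (g a) (q a)) l (𝓝 (Xmat n g0 q0)) := by
  unfold Xmat
  have hD := cm_t_Dmat hg hm hd hm0 hd0
  have hAt := cm_t_Amat hg hm hd hm0 hd0
  have hT : Tendsto (fun a => (Dmat n (g a)).transpose) l (𝓝 (Dmat n g0).transpose) :=
    ((Continuous.matrix_transpose continuous_id).tendsto _).comp hD
  exact ((hD.add (((cm_t_inv hAt hA).mul hT).mul hAt)).const_smul _).add
    (cm_t_Mmat hg hm hd hm0 hd0 hq)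

end G

end Tends

section Inj

variable {L : Type*} [Field L] {n : ℕ} {θ : Fin n → L}

private lemma cm_isUnit_V (hθ : Function.Injective θ) : IsUnit (Matrix.vandermonde θ).det :=
  isUnit_iff_ne_zero.mpr (Matrix.det_vandermonde_ne_zero_iff.mpr hθ)

private lemma cm_trace_Mmat_nod (hθ : Function.Injective θ) (T : L[X]) :
    (Mmat n (nod θ) T).trace = ∑ i, T.eval (θ i) := by
  have hV := cm_isUnit_V hθ
  have h1 := vandermonde_mul_Mmat θ T
  have h2 : Mmat n (nod θ) T = (Matrix.vandermonde θ)⁻¹ *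
      (Matrix.diagonal (fun i => T.eval (θ i)) * Matrix.vandermonde θ) := by
    rw [← h1, Matrix.nonsing_inv_mul_cancel_left _ _ hV]
  rw [h2, Matrix.trace_mul_comm, Matrix.mul_nonsing_inv_cancel_right _ _ hV, Matrix.trace_diagonal]

private lemma cm_pS_nod (hθ : Function.Injective θ) (k : ℕ) :
    pS n (nod θ) k = ∑ i, θ i ^ k := by
  rw [pS, cm_trace_Mmat_nod hθ]
  simp

private lemma cm_Amat_nod (hθ : Function.Injective θ) :
    Amat n (nod θ) = (Matrix.vandermonde θ).transpose * Matrix.vandermonde (fun i => - θ i) := by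
  ext i j
  simp only [Amat, Matrix.of_apply, Matrix.mul_apply, cm_pS_nod hθ, Finset.mul_sum,
    Matrix.transpose_apply, Matrix.vandermonde_apply]
  refine Finset.sum_congr rfl fun k _ => ?_
  rw [neg_pow, pow_add]
  ring

private lemma cm_Amat_nod_det (hθ : Function.Injective θ) : (Amat n (nod θ)).det ≠ 0 := by
  rw [cm_Amat_nod hθ, Matrix.det_mul, Matrix.det_transpose]
  refine mul_ne_zero (Matrix.det_vandermonde_ne_zero_iff.mpr hθ)
    (Matrix.det_vandermonde_ne_zero_iff.mpr fun i j h => hθ (neg_injective h))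

end Inj

private lemma cm_Amat_det {K : Type*} [Field K] {n : ℕ} {g : K[X]} (hg : g.Monic)
    (hn : g.natDegree = n) (hs : g.Separable) : (Amat n g).det ≠ 0 := by
  obtain ⟨θ, hθ, h1⟩ := exists_nod (algebraMap K (AlgebraicClosure K)) hg hn hs
  have h2 := cm_Amat_nod_det hθ
  rw [← h1, ← cm_map_Amat _ hg, ← cm_map_det] at h2
  exact fun h => h2 (by rw [h, map_zero])

private lemma cm_charT_mod {R : Type*} [CommRing R] {n : ℕ} {f : R[X]} (hf : f.Monic) (T : R[X]) :
    charT n f (T %ₘ f) = charT n f T := by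
  have h1 : Mmat n f (T %ₘ f) = Mmat n f T := by
    ext i j
    simp only [Mmat, Matrix.of_apply]
    have h2 : (X ^ (j : ℕ) * (T %ₘ f)) %ₘ f = (X ^ (j : ℕ) * T) %ₘ f := by
      apply modByMonic_eq_of_dvd_sub hf
      rw [← mul_sub]
      refine Dvd.dvd.mul_left ?_ _
      have := modByMonic_add_div T f
      exact ⟨- (T /ₘ f), by linear_combination this⟩
    rw [h2]
  rw [charT, charT, h1]

/-- Every polynomial is obtained from the parametrisation and a change of generator. -/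
theorem exists_cpT {K : Type*} [Field K] [CharZero K] {n : ℕ} {F : K[X]} (hF : F.Monic)
    (hn : F.natDegree = n) (hs : F.Separable) :
    ∃ c p T : K[X], c.Monic ∧ c.natDegree = n / 2 ∧ c.Separable ∧ c.coeff 0 ≠ 0 ∧
      p.degree < (((n + 1) / 2 : ℕ) : WithBot ℕ) ∧ T.degree < (n : WithBot ℕ) ∧
      (fcp n c p).Separable ∧ charT n (fcp n c p) T = F := by
  let L := AlgebraicClosure K
  let φ : K →+* L := algebraMap K L
  have hL : CharZero L := charZero_of_injective_algebraMap (algebraMap K L).injective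
  obtain ⟨θ, hθ, h1⟩ := exists_nod φ hF hn hs
  obtain ⟨T1, hinj, hCx⟩ := exists_gen_Cx (K := K) hθ
  have haev : (fun i => aeval (θ i) T1) = fun i => (T1.map φ).eval (θ i) := by
    funext i
    rw [aeval_def, eval_map]
  rw [haev] at hinj hCx
  obtain ⟨x, hx⟩ : ∃ x : Fin n → L, x = fun i => (T1.map φ).eval (θ i) := ⟨_, rfl⟩
  rw [← hx] at hinj hCx
  have hF1m : (charT n F T1).Monic := charT_monic _ _ _
  have hF1n : (charT n F T1).natDegree = n := natDegree_charT _ _ _
  have hmap : (charT n F T1).map φ = nod x := by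
    rw [map_charT φ hF, h1, charT_nod hθ, hx]
  have hF1s : (charT n F T1).Separable := by
    have := nod_separable hinj
    rw [← hmap, separable_map] at this
    exact this
  have hB : (Bmat n F T1).det ≠ 0 := by
    intro h
    have h2 := det_Bmat_nod θ (T1.map φ)
    rw [← h1, ← map_det_Bmat φ hF, h, map_zero, mul_zero] at h2
    have h3 := Matrix.det_vandermonde_ne_zero_iff.mpr hinj
    rw [hx] at h3
    exact h3 h2.symm
  obtain ⟨T', hT', -⟩ := exists_inv_T hF hn hs hB
  generalize charT n F T1 = F1 at hF1m hF1n hmap hF1s hT'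
  have hY : (Ymat n F1).charpoly.Separable := by
    rw [← separable_map φ, ← Matrix.charpoly_map, cm_map_Ymat φ hF1m, hmap]
    have hV := cm_isUnit_V hinj
    obtain ⟨V, hV'⟩ := (Matrix.isUnit_iff_isUnit_det _).mpr hV
    have h2 := vandermonde_mul_Ymat hinj
    rw [← hV'] at h2
    have h3 : Cx x = V.val * Ymat n (nod x) * V⁻¹.val := by
      rw [h2, Matrix.mul_assoc, Units.mul_inv, Matrix.mul_one]
    have h4 := Matrix.charpoly_units_conj V (Ymat n (nod x))
    rw [← Matrix.coe_units_inv, ← h3] at h4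
    rw [← h4]
    exact hCx
  obtain ⟨hpar, q, hq, hqe, hXf⟩ := exists_params hF1m hF1n hF1s hY
  obtain ⟨c, hc, hcd, hcs, hc0, hcg⟩ := exists_gof (Matrix.charpoly_monic _)
    (by rw [Matrix.charpoly_natDegree_eq_dim, Fintype.card_fin]) hY hpar
  obtain ⟨p, hp, hpq⟩ := exists_even hq hqe
  have hfcp : fcp n c p = F1 := by rw [fcp, hcg, hpq, hXf]
  refine ⟨c, p, T' %ₘ F1, hc, hcd, hcs, hc0, hp, ?_, ?_, ?_⟩
  · have := degree_modByMonic_lt T' hF1m
    rwa [degree_eq_natDegree hF1m.ne_zero, hF1n] at this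
  · rw [hfcp]; exact hF1s
  · rw [hfcp, cm_charT_mod hF1m, hT']

/-- Continuity of the parametrisation. -/
theorem ct_fcp {K : Type*} [NormedField K] [CharZero K] {n : ℕ} {α : Type*} {l : Filter α}
    {c p : α → K[X]} {c0 p0 : K[X]} (hc : CTB l c c0) (hp : CTB l p p0)
    (hcm : ∀ a, (c a).Monic) (hcd : ∀ a, (c a).natDegree = n / 2) (hc0 : c0.Monic)
    (hcd0 : c0.natDegree = n / 2) (hs : c0.Separable) (h0 : c0.coeff 0 ≠ 0) :
    CTB l (fun a => fcp n (c a) (p a)) (fcp n c0 p0) ∧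
      Tendsto (fun a => kcp n (c a) (p a)) l (𝓝 (kcp n c0 p0)) := by
  have hA := cm_Amat_det (gof_monic n hc0) (natDegree_gof hc0 hcd0) (separable_gof hc0 hcd0 hs h0)
  have hX : Tendsto (fun a => Xmat n (gof n (c a)) (expand K 2 (p a))) l
      (𝓝 (Xmat n (gof n c0) (expand K 2 p0))) :=
    cm_t_Xmat (cm_ctb_gof hc n) (fun a => gof_monic n (hcm a))
      (fun a => natDegree_gof (hcm a) (hcd a)) (gof_monic n hc0) (natDegree_gof hc0 hcd0) hA
      (cm_ctb_expand hp)
  refine ⟨cm_ctb_charpoly hX, ?_⟩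
  unfold kcp
  exact (((hc.1.discr hcm hcd hc0 hcd0).const_mul _).mul ((hc.coeff 0).pow _)).mul (cm_t_Krm hX)

lemma map_fcp {K L : Type*} [Field K] [Field L] (φ : K →+* L) {n : ℕ} {c p : K[X]}
    (hc : c.Monic) : (fcp n c p).map φ = fcp n (c.map φ) (p.map φ) ∧
      φ (kcp n c p) = kcp n (c.map φ) (p.map φ) := by
  constructor
  · rw [fcp, fcp, ← Matrix.charpoly_map, cm_map_Xcp φ hc]
  · rw [kcp, kcp, ← cm_map_Xcp φ hc, ← cm_map_Krm φ, ← cm_map_det φ, discr_map_monic φ hc,
      coeff_map, map_mul, map_mul, map_mul, map_pow, map_pow, map_ofNat]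

private lemma cm_toPoly_ctb {k K : Type*} [Field k] [NormedField K] (φ : k →+* K) {N : ℕ}
    {u : Fin N → ℕ → k} {a : Fin N → K}
    (h : ∀ m, Tendsto (fun j => φ (u m j)) atTop (𝓝 (a m))) :
    CTB atTop (fun j => (toPoly fun m => u m j).map φ) (toPoly a) := by
  have h1 : ∀ j, (toPoly fun m => u m j).map φ = ∑ m : Fin N, C (φ (u m j)) * X ^ (m : ℕ) := by
    intro j
    rw [map_toPoly]
    rfl
  simp only [h1]
  exact CTB.sum _ fun m _ => (CTB.C (h m)).mul (CTB.const _)

private lemma cm_monic_dec {K : Type*} [Field K] {N : ℕ} {g : K[X]} (hg : g.Monic)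
    (hn : g.natDegree = N) : g = X ^ N + toPoly fun m : Fin N => g.coeff m := by
  have h1 : (g - X ^ N).degree < ((N : ℕ) : WithBot ℕ) := by
    have h2 : g.degree = N := by rw [degree_eq_natDegree hg.ne_zero, hn]
    have := degree_sub_lt_left (p := g) (q := X ^ N) (by rw [h2, degree_X_pow])
      hg.ne_zero (by rw [hg.leadingCoeff, leadingCoeff_X_pow])
    rwa [h2] at this
  have h3 := toPoly_coeff h1
  have h4 : (fun m : Fin N => (g - X ^ N).coeff m) = fun m : Fin N => g.coeff m := by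
    ext m
    rw [coeff_sub, coeff_X_pow, if_neg (by have := m.2; omega), sub_zero]
  rw [h4] at h3
  rw [h3]; ring

private lemma cm_monic_toPoly {R : Type*} [CommRing R] [Nontrivial R] {N : ℕ} (c : Fin N → R) :
    (X ^ N + toPoly c).Monic ∧ (X ^ N + toPoly c).natDegree = N := by
  have h1 : (toPoly c).degree < (X ^ N : R[X]).degree := by
    rw [degree_X_pow]; exact degree_toPoly_lt c
  refine ⟨monic_X_pow_add (degree_toPoly_lt c), ?_⟩
  rw [natDegree_add_eq_left_of_degree_lt h1, natDegree_X_pow]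

/-- The local parameters for a given square root of the discriminant. -/
private lemma cm_local {K : Type*} [Field K] [CharZero K] {n : ℕ} {F : K[X]} {d Y : K}
    (hF : F.Monic) (hn : F.natDegree = n) (hd : d ≠ 0) (hY : Y ≠ 0)
    (hdisc : F.discr = d * Y ^ 2) :
    ∃ c p T : K[X], ∃ z : K, c.Monic ∧ c.natDegree = n / 2 ∧ c.Separable ∧ c.coeff 0 ≠ 0 ∧
      p.degree < (((n + 1) / 2 : ℕ) : WithBot ℕ) ∧ T.degree < (n : WithBot ℕ) ∧
      (fcp n c p).Separable ∧ charT n (fcp n c p) T = F ∧ c.coeff 0 = d * z ^ 2 ∧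
      z * kcp n c p * (Bmat n (fcp n c p) T).det = Y := by
  have hdY : d * Y ^ 2 ≠ 0 := mul_ne_zero hd (pow_ne_zero 2 hY)
  have hs : F.Separable := separable_of_discr_ne_zero hF (by rw [hdisc]; exact hdY)
  obtain ⟨c, p, T, hc, hcd, hcs, hc0, hp, hT, hfs, hch⟩ := exists_cpT hF hn hs
  have h1 : F.discr = c.coeff 0 * kcp n c p ^ 2 * (Bmat n (fcp n c p) T).det ^ 2 := by
    have hm : (fcp n c p).Monic := Matrix.charpoly_monic _
    have hd : (fcp n c p).natDegree = n := by
      rw [fcp, Matrix.charpoly_natDegree_eq_dim, Fintype.card_fin]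
    rw [← hch, discr_charT hm hd hfs, discr_fcp hc hcd hcs hc0 hfs]
  rw [hdisc] at h1
  obtain ⟨k, hk⟩ : ∃ k : K, k = kcp n c p := ⟨_, rfl⟩
  obtain ⟨B, hB⟩ : ∃ B : K, B = (Bmat n (fcp n c p) T).det := ⟨_, rfl⟩
  rw [← hk, ← hB] at h1
  have hk0 : k ≠ 0 := by
    intro h; rw [h] at h1; apply hdY; rw [h1]; ring
  have hB0 : B ≠ 0 := by
    intro h; rw [h] at h1; apply hdY; rw [h1]; ring
  refine ⟨c, p, T, Y / (k * B), hc, hcd, hcs, hc0, hp, hT, hfs, hch, ?_, ?_⟩
  · field_simp
    linear_combination -h1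
  · rw [← hk, ← hB]
    field_simp

theorem global_CM {k : Type*} [Field k] [CharZero k] {ι : Type*} [Fintype ι] [Nonempty ι]
    (K : ι → Type*) [∀ i, NormedField (K i)] [∀ i, CharZero (K i)] (φ : ∀ i, k →+* K i)
    (hdense : DenseRange (fun (q : k) (i : ι) => φ i q)) {n : ℕ} (hn : 2 ≤ n)
    {d : k} (hd : d ≠ 0) (F : ∀ i, (K i)[X]) (Y : ∀ i, K i) (hF : ∀ i, (F i).Monic)
    (hFn : ∀ i, (F i).natDegree = n)
    (hdisc : ∀ i, (F i).discr = φ i d * Y i ^ 2) (hY : ∀ i, Y i ≠ 0) {ε : ℝ} (hε : 0 < ε) :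
    ∃ (P : k[X]) (y : k), P.Monic ∧ P.natDegree = n ∧ P.discr = d * y ^ 2 ∧ y ≠ 0 ∧
      ∀ i, (∀ m, ‖φ i (P.coeff m) - (F i).coeff m‖ < ε) ∧ ‖φ i y - Y i‖ < ε := by
  -- sequences
  have hseq : ∀ x : ∀ i, K i, ∃ u : ℕ → k, ∀ i, Tendsto (fun j => φ i (u j)) atTop (𝓝 (x i)) := by
    intro x
    have hx : x ∈ closure (Set.range fun (q : k) (i : ι) => φ i q) := hdense x
    obtain ⟨w, hw, hlim⟩ := mem_closure_iff_seq_limit.mp hx
    choose u hu using hw
    refine ⟨u, fun i => ?_⟩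
    have := (tendsto_pi_nhds.mp hlim) i
    refine this.congr fun j => ?_
    rw [← hu j]
  have hφd : ∀ i, φ i d ≠ 0 := fun i => (map_ne_zero (φ i)).mpr hd
  choose c p T z hc hcd hcs hc0 hp hT hfs hch hcz hzY using
    fun i => cm_local (hF i) (hFn i) (hφd i) (hY i) (hdisc i)
  choose uc huc using fun m : Fin (n / 2) => hseq fun i => (c i).coeff m
  choose up hup using fun m : Fin ((n + 1) / 2) => hseq fun i => (p i).coeff m
  choose uT huT using fun m : Fin n => hseq fun i => (T i).coeff m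
  obtain ⟨us, hus⟩ := hseq z
  have hn0 : 0 < n / 2 := Nat.div_pos hn two_pos
  -- the coefficients of `c`
  let vc : Fin (n / 2) → ℕ → k := fun m j => if (m : ℕ) = 0 then d * us j ^ 2 else uc m j
  have hvc : ∀ i m, Tendsto (fun j => φ i (vc m j)) atTop (𝓝 ((c i).coeff m)) := by
    intro i m
    by_cases hm : (m : ℕ) = 0
    · simp only [vc, if_pos hm, map_mul, map_pow]
      rw [hm, hcz i]
      exact ((hus i).pow 2).const_mul _
    · simp only [vc, if_neg hm]
      exact huc m i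
  obtain ⟨cq, hcq⟩ : ∃ cq : ℕ → k[X], cq = fun j => X ^ (n / 2) + toPoly fun m => vc m j :=
    ⟨_, rfl⟩
  obtain ⟨pq, hpq⟩ : ∃ pq : ℕ → k[X], pq = fun j => toPoly fun m => up m j := ⟨_, rfl⟩
  obtain ⟨Tq, hTq⟩ : ∃ Tq : ℕ → k[X], Tq = fun j => toPoly fun m => uT m j := ⟨_, rfl⟩
  have hcqm : ∀ j, (cq j).Monic := fun j => by rw [hcq]; exact (cm_monic_toPoly _).1
  have hcqd : ∀ j, (cq j).natDegree = n / 2 := fun j => by rw [hcq]; exact (cm_monic_toPoly _).2
  have hcq0 : ∀ j, (cq j).coeff 0 = d * us j ^ 2 := by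
    intro j
    have h1 : (toPoly fun m => vc m j).coeff 0 = vc ⟨0, hn0⟩ j := by
      have := coeff_toPoly (fun m => vc m j) ⟨0, hn0⟩
      exact this
    rw [hcq]
    dsimp only
    rw [coeff_add, coeff_X_pow, if_neg hn0.ne, zero_add, h1]
    exact if_pos rfl
  -- convergence at each place
  have hCc : ∀ i, CTB atTop (fun j => (cq j).map (φ i)) (c i) := by
    intro i
    rw [cm_monic_dec (hc i) (hcd i), hcq]
    simp only [Polynomial.map_add, Polynomial.map_pow, Polynomial.map_X]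
    exact (CTB.const _).add (cm_toPoly_ctb (φ i) (hvc i))
  have hCp : ∀ i, CTB atTop (fun j => (pq j).map (φ i)) (p i) := by
    intro i
    rw [← toPoly_coeff (hp i), hpq]
    exact cm_toPoly_ctb (φ i) fun m => hup m i
  have hCT : ∀ i, CTB atTop (fun j => (Tq j).map (φ i)) (T i) := by
    intro i
    rw [← toPoly_coeff (hT i), hTq]
    exact cm_toPoly_ctb (φ i) fun m => huT m i
  clear hcq hpq hTq
  have hm' : ∀ i j, ((cq j).map (φ i)).Monic := fun i j => (hcqm j).map _
  have hd' : ∀ i j, ((cq j).map (φ i)).natDegree = n / 2 := fun i j => by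
    rw [natDegree_map, hcqd]
  have hfm : ∀ j, (fcp n (cq j) (pq j)).Monic := fun j => Matrix.charpoly_monic _
  have hfd : ∀ j, (fcp n (cq j) (pq j)).natDegree = n := fun j => by
    rw [fcp, Matrix.charpoly_natDegree_eq_dim, Fintype.card_fin]
  have hfm0 : ∀ i, (fcp n (c i) (p i)).Monic := fun i => Matrix.charpoly_monic _
  have hfd0 : ∀ i, (fcp n (c i) (p i)).natDegree = n := fun i => by
    rw [fcp, Matrix.charpoly_natDegree_eq_dim, Fintype.card_fin]
  have hcf := fun i => ct_fcp (hCc i) (hCp i) (hm' i) (hd' i) (hc i) (hcd i) (hcs i) (hc0 i)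
  have hCf : ∀ i, CTB atTop (fun j => (fcp n (cq j) (pq j)).map (φ i)) (fcp n (c i) (p i)) := by
    intro i
    simp only [(map_fcp (φ i) (hcqm _)).1]
    exact (hcf i).1
  have hCP : ∀ i, CT atTop (fun j => (charT n (fcp n (cq j) (pq j)) (Tq j)).map (φ i))
      (F i) := by
    intro i
    have h1 := ctb_charT (n := n) (hCf i) (fun j => (hfm j).map _)
      (fun j => by rw [natDegree_map]; exact hfd j) (hfm0 i) (hfd0 i) (hCT i)
    rw [hch i] at h1
    intro m
    refine (h1 m).congr fun j => ?_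
    dsimp only
    rw [map_charT (φ i) (hfm j)]
  obtain ⟨yq, hyq⟩ : ∃ yq : ℕ → k, yq = fun j => us j * kcp n (cq j) (pq j) *
    (Bmat n (fcp n (cq j) (pq j)) (Tq j)).det := ⟨_, rfl⟩
  have hyY : ∀ i, Tendsto (fun j => φ i (yq j)) atTop (𝓝 (Y i)) := by
    intro i
    have h2 := tendsto_det_Bmat (n := n) (hCf i) (fun j => (hfm j).map _)
      (fun j => by rw [natDegree_map]; exact hfd j) (hfm0 i) (hfd0 i) (hCT i)
    have h3 := ((hus i).mul (hcf i).2).mul h2
    rw [hzY i] at h3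
    refine h3.congr fun j => ?_
    rw [hyq]
    dsimp only
    rw [map_mul, map_mul, (map_fcp (φ i) (hcqm j)).2, map_det_Bmat (φ i) (hfm j)]
  -- choose a good index
  obtain ⟨i₀⟩ := ‹Nonempty ι›
  have ev1 : ∀ᶠ j in atTop, yq j ≠ 0 := by
    have := (hyY i₀).eventually_ne (hY i₀)
    filter_upwards [this] with j hj h
    exact hj (by rw [h, map_zero])
  have ev2 : ∀ᶠ j in atTop, (cq j).discr ≠ 0 := by
    have h1 := ((hCc i₀).1.discr (hm' i₀) (hd' i₀) (hc i₀) (hcd i₀)).eventually_ne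
      (discr_ne_zero_of_separable (hc i₀) (hcs i₀))
    filter_upwards [h1] with j hj h
    apply hj
    rw [discr_map_monic (φ i₀) (hcqm j), h, map_zero]
  have ev3 : ∀ᶠ j in atTop, (fcp n (cq j) (pq j)).discr ≠ 0 := by
    have h1 := ((hCf i₀).1.discr (fun j => (hfm j).map _)
      (fun j => by rw [natDegree_map]; exact hfd j) (hfm0 i₀) (hfd0 i₀)).eventually_ne
      (discr_ne_zero_of_separable (hfm0 i₀) (hfs i₀))
    filter_upwards [h1] with j hj h
    apply hj
    rw [discr_map_monic (φ i₀) (hfm j), h, map_zero]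
  have ev4 : ∀ᶠ j in atTop, ∀ i, ‖φ i (yq j) - Y i‖ < ε := by
    rw [eventually_all]
    intro i
    have := (Metric.tendsto_nhds.mp (hyY i)) ε hε
    simpa only [dist_eq_norm] using this
  have ev5 : ∀ᶠ j in atTop, ∀ i, ∀ m : Fin (n + 1),
      ‖φ i ((charT n (fcp n (cq j) (pq j)) (Tq j)).coeff m) - (F i).coeff m‖ < ε := by
    rw [eventually_all]
    intro i
    rw [eventually_all]
    intro m
    have := (Metric.tendsto_nhds.mp (hCP i m)) ε hε
    simpa only [dist_eq_norm, coeff_map] using this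
  obtain ⟨j, hj1, hj2, hj3, hj4, hj5⟩ := (ev1.and (ev2.and (ev3.and (ev4.and ev5)))).exists
  have hus0 : us j ≠ 0 := by
    intro h
    apply hj1
    rw [hyq]
    dsimp only
    rw [h, zero_mul, zero_mul]
  have hcqs : (cq j).Separable := separable_of_discr_ne_zero (hcqm j) hj2
  have hcq0' : (cq j).coeff 0 ≠ 0 := by
    rw [hcq0 j]; exact mul_ne_zero hd (pow_ne_zero 2 hus0)
  have hfsep : (fcp n (cq j) (pq j)).Separable := separable_of_discr_ne_zero (hfm j) hj3
  refine ⟨charT n (fcp n (cq j) (pq j)) (Tq j), yq j, charT_monic _ _ _,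
    natDegree_charT _ _ _, ?_, hj1, fun i => ⟨fun m => ?_, hj4 i⟩⟩
  · rw [discr_charT (hfm j) (hfd j) hfsep, discr_fcp (hcqm j) (hcqd j) hcqs hcq0' hfsep, hcq0 j,
      hyq]
    ring
  · by_cases hm : m < n + 1
    · exact hj5 i ⟨m, hm⟩
    · have h1 : (charT n (fcp n (cq j) (pq j)) (Tq j)).coeff m = 0 := by
        apply coeff_eq_zero_of_natDegree_lt
        rw [natDegree_charT]; omega
      have h2 : (F i).coeff m = 0 := by
        apply coeff_eq_zero_of_natDegree_lt
        rw [hFn i]; omega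
      rw [h1, h2, map_zero, sub_zero, norm_zero]
      exact hε

end Pool.Agent.Lib.MP_12adaf_nt
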