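import Mathlib
import Pool.Agent.Lib.MP_12adaf_nt.CM.Parity
import Pool.Agent.Lib.MP_12adaf_nt.CM.Main

section

/-!
# The other composition: `(g, q) ↦ f ↦ (g, q)` is the identity
-/

namespace Pool.Agent.Lib.MP_12adaf_nt

set_option linter.unusedSectionVars false
set_option linter.unusedVariables false

open Finset Polynomial

section Nod

variable {L : Type*} [Field L] [CharZero L] {n : ℕ} {x y : Fin n → L}

lemma Krm_Mmat_nod (hx : Function.Injective x) : Krm (Mmat n (nod x) X) = 1 := by
  have hV := isUnit_vandermonde hx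
  have h2 : Matrix.vandermonde x * Mmat n (nod x) X =
      Matrix.diagonal x * Matrix.vandermonde x := by
    have := vandermonde_mul_Mmat x X
    simpa only [eval_X] using this
  have h3 : ∀ j : ℕ, Matrix.vandermonde x * Mmat n (nod x) X ^ j =
      Matrix.diagonal x ^ j * Matrix.vandermonde x := by
    intro j
    induction j with
    | zero => simp
    | succ j ih => rw [pow_succ, ← mul_assoc, ih, mul_assoc, h2, ← mul_assoc, ← pow_succ]
  have h1 : Matrix.vandermonde x * Krm (Mmat n (nod x) X) = Matrix.vandermonde x * 1 := by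
    rw [mul_one]
    ext i j
    have h4 : (Matrix.vandermonde x * Krm (Mmat n (nod x) X)) i j =
        ((Matrix.vandermonde x * Mmat n (nod x) X ^ (j : ℕ)).mulVec (e0 n)) i := by
      rw [← Matrix.mulVec_mulVec]
      rfl
    rw [h4, h3, ← Matrix.mulVec_mulVec, vandermonde_e0, Matrix.diagonal_pow,
      Matrix.mulVec_diagonal, mul_one, Matrix.vandermonde_apply]
    rfl
  have h5 := congrArg (fun M => (Matrix.vandermonde x)⁻¹ * M) h1
  simpa only [← mul_assoc, Matrix.nonsing_inv_mul _ hV, one_mul] using h5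

lemma Krm_conj {Q G : Matrix (Fin n) (Fin n) L} (hQ : IsUnit Q.det)
    (hQe : Q.mulVec (e0 n) = e0 n) : Krm (Q⁻¹ * G * Q) = Q⁻¹ * Krm G := by
  have h1 : ∀ j : ℕ, (Q⁻¹ * G * Q) ^ j = Q⁻¹ * G ^ j * Q := by
    intro j
    induction j with
    | zero => rw [pow_zero, pow_zero, mul_one, Matrix.nonsing_inv_mul _ hQ]
    | succ j ih =>
      rw [pow_succ, ih, pow_succ]
      calc Q⁻¹ * G ^ j * Q * (Q⁻¹ * G * Q) = Q⁻¹ * G ^ j * (Q * Q⁻¹) * (G * Q) := by
            noncomm_ring
        _ = Q⁻¹ * (G ^ j * G) * Q := by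
            rw [Matrix.mul_nonsing_inv _ hQ]; noncomm_ring
  ext i j
  have h4 : (Q⁻¹ * Krm G) i j = ((Q⁻¹ * G ^ (j : ℕ)).mulVec (e0 n)) i := by
    rw [← Matrix.mulVec_mulVec]
    rfl
  rw [h4, Krm, Matrix.of_apply, h1, ← Matrix.mulVec_mulVec, hQe]

lemma toPoly_Mmat_e0_nod {q : L[X]} (hq : q.degree < (n : WithBot ℕ)) :
    toPoly ((Mmat n (nod x) q).mulVec (e0 n)) = q := by
  have h1 : (Mmat n (nod x) q).mulVec (e0 n) = fun i : Fin n => q.coeff i := by
    ext i
    rw [mulVec_e0, Mmat, Matrix.of_apply]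
    have h2 : q %ₘ nod x = q := by
      rw [modByMonic_eq_self_iff (nod_monic x), degree_eq_natDegree (nod_monic x).ne_zero,
        natDegree_nod, Fintype.card_fin]
      exact hq
    simp [h2]
  rw [h1, toPoly_coeff hq]

/-- The parameters are recovered from `f`. -/
theorem reverse_nod (hx : Function.Injective x)
    (hpar : (nod x).comp (-X) = (-1) ^ n * nod x) {q : L[X]} (hq : q.comp (-X) = q)
    (hy : Function.Injective y) (hf : (Xmat n (nod x) q).charpoly = nod y) :
    (Ymat n (nod y)).charpoly = nod x ∧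
      (q.degree < (n : WithBot ℕ) → qof n (nod y) = q) := by
  have hcomm := Xmat_comm_nod hx hpar q
  have hAs := Amat_transpose_nod hx hpar
  have hAM := Amat_mul_Xmat_nod hx hpar hq
  have hAe := Amat_e0 n (nod x)
  have hMQ : Xmat n (nod x) q * Krm (Xmat n (nod x) q) =
      Krm (Xmat n (nod x) q) * Mmat n (nod y) X := by
    rw [← hf]; exact mul_Krm _
  have hform : (Krm (Xmat n (nod x) q)).transpose * Amat n (nod x) * Krm (Xmat n (nod x) q) =
      Hmat n (nod y) := by
    ext i j
    rw [Krm_form_self hAs hAM hAe i j, ← trace_pow_X hcomm, trace_pow_of_charpoly hy hf, Hmat,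
      Matrix.of_apply, pS_nod hy]
  have htr : ∀ j : Fin n, ((Krm (Xmat n (nod x) q)).transpose.mulVec
      (fun k : Fin n => pS n (nod x) k)) j = pS n (nod y) j := by
    intro j
    rw [pS_nod hy, ← trace_pow_of_charpoly hy hf, trace_pow_X hcomm, Matrix.mulVec, dotProduct,
      dotProduct]
    refine Finset.sum_congr rfl fun k _ => ?_
    rw [Matrix.transpose_apply, Krm, Matrix.of_apply, mul_comm]
  have hQe := Krm_e0 (Xmat n (nod x) q)
  have hHu := isUnit_Hmat_nod hy
  have hQ : IsUnit (Krm (Xmat n (nod x) q)).det := by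
    have h1 := congrArg Matrix.det hform
    rw [← h1, Matrix.det_mul] at hHu
    exact isUnit_of_mul_isUnit_right hHu
  have hAG : Amat n (nod x) * Mmat n (nod x) X =
      - ((Mmat n (nod x) X).transpose * Amat n (nod x)) := by
    have h := Amat_mul_Mmat_nod hx hpar X
    have h2 : Mmat n (nod x) ((X : L[X]).comp (-X)) = - Mmat n (nod x) X := by
      ext i j
      simp only [Mmat, Matrix.of_apply, Matrix.neg_apply, X_comp, mul_neg]
      rw [← coeff_neg]
      congr 1
      rw [neg_modByMonic]
    rw [h, h2, Matrix.transpose_neg, neg_mul]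
  have hYcomm := Ymat_comm_nod hy
  have hHY := Hmat_mul_Ymat_nod hy
  have hHT := fun T : L[X] => Hmat_mul_Mmat_nod hy T
  have hchG : (Mmat n (nod x) X).charpoly = nod x := by
    have := charT_nod hx (X : L[X])
    simpa only [charT, eval_X] using this
  have hKG := Krm_Mmat_nod hx
  set M := Xmat n (nod x) q with hMdef
  set Q := Krm M with hQdef
  set A := Amat n (nod x) with hAdef
  set G := Mmat n (nod x) X with hGdef
  set My := Mmat n (nod y) X with hMydef
  set H := Hmat n (nod y) with hHdef
  set Y := Ymat n (nod y) with hYdef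
  set Z := Q⁻¹ * G * Q with hZ
  have hQZ : Q * Z = G * Q := by
    rw [hZ, ← mul_assoc, ← mul_assoc, Matrix.mul_nonsing_inv _ hQ, one_mul]
  have hZcomm : My * Z - Z * My + 1 =
      Matrix.vecMulVec (e0 n) (fun k : Fin n => pS n (nod y) k) := by
    have h1 : Q * (My * Z - Z * My + 1) =
        Q * Matrix.vecMulVec (e0 n) (fun k : Fin n => pS n (nod y) k) := by
      have p1 : Q * (My * Z) = M * G * Q := by
        rw [← mul_assoc Q My Z, ← hMQ, mul_assoc M Q Z, hQZ, ← mul_assoc M G Q]
      have p2 : Q * (Z * My) = G * M * Q := by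
        rw [← mul_assoc Q Z My, hQZ, mul_assoc G Q My, ← hMQ, ← mul_assoc G M Q]
      have p3 : Q * (My * Z - Z * My + 1) = (M * G - G * M + 1) * Q := by
        rw [mul_add, mul_sub, p1, p2, mul_one, add_mul, sub_mul, one_mul]
      rw [p3, hcomm, Matrix.mul_vecMulVec, hQe, Matrix.vecMulVec_mul, ← Matrix.mulVec_transpose]
      congr 1
      ext j
      exact htr j
    have h5 := congrArg (fun M => Q⁻¹ * M) h1
    simpa only [← mul_assoc, Matrix.nonsing_inv_mul _ hQ, one_mul] using h5
  have hRcomm : (Z - Y) * My = My * (Z - Y) := by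
    have h1 : My * Z - Z * My = My * Y - Y * My := by
      have := hZcomm.trans hYcomm.symm
      exact add_right_cancel this
    rw [sub_mul, mul_sub]
    rw [sub_eq_sub_iff_add_eq_add] at h1 ⊢
    calc Z * My + My * Y = My * Y + Z * My := by abel
      _ = My * Z + Y * My := h1.symm
  have hR := commute_eq_Mmat_nod hy hRcomm
  have hself : H * (Z - Y) = (Z - Y).transpose * H := by
    rw [hR]
    exact hHT _
  have hskew : H * (Z - Y) = - ((Z - Y).transpose * H) := by
    have p1 : H * Z = Q.transpose * A * (G * Q) := by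
      rw [← hform, mul_assoc (Q.transpose * A) Q Z, hQZ]
    have p2 : Z.transpose * H = Q.transpose * G.transpose * (A * Q) := by
      rw [← hform, mul_assoc Q.transpose A Q, ← mul_assoc Z.transpose, ← Matrix.transpose_mul Q Z,
        hQZ, Matrix.transpose_mul G Q]
    have p3 : H * Z = - (Z.transpose * H) := by
      rw [p1, p2, mul_assoc Q.transpose A, ← mul_assoc A G Q, hAG, mul_assoc Q.transpose,
        neg_mul, mul_neg, mul_assoc G.transpose A Q]
    rw [mul_sub, p3, hHY, Matrix.transpose_sub, sub_mul]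
    abel
  have hZY : Z = Y := by
    have h1 : (2 : L) • (H * (Z - Y)) = 0 := by
      rw [two_smul]
      nth_rewrite 1 [hskew]
      rw [hself, neg_add_cancel]
    have h2 : H * (Z - Y) = 0 := by
      rcases smul_eq_zero.mp h1 with h3 | h3
      · exact absurd h3 two_ne_zero
      · exact h3
    have h5 := congrArg (fun M => H⁻¹ * M) h2
    simp only [← mul_assoc, Matrix.nonsing_inv_mul _ hHu, one_mul, mul_zero] at h5
    exact sub_eq_zero.mp h5
  have hch : Y.charpoly = nod x := by
    rw [← hchG, ← hZY]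
    exact charpoly_conj hQ hQZ
  refine ⟨hch, fun hdeg => ?_⟩
  have hKY : Krm Y = Q⁻¹ := by
    rw [← hZY, hZ, Krm_conj hQ hQe, hKG, mul_one]
  have h6 : (Krm Y)⁻¹ * My * Krm Y = M := by
    rw [hKY, Matrix.nonsing_inv_nonsing_inv _ hQ, ← hMQ, mul_assoc, Matrix.mul_nonsing_inv _ hQ,
      mul_one]
  rw [qof, ← hMydef, ← hYdef, h6, hch, hMdef, Xmat_eq, add_sub_cancel_left]
  exact toPoly_Mmat_e0_nod hdeg

end Nod

/-- The parameters are recovered from `f`. -/
theorem reverse_params {K : Type*} [Field K] [CharZero K] {n : ℕ} {g q : K[X]} (hg : g.Monic)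
    (hn : g.natDegree = n) (hs : g.Separable) (hpar : g.comp (-X) = (-1) ^ n * g)
    (hq : q.comp (-X) = q) (hd : q.degree < (n : WithBot ℕ))
    (hf : (Xmat n g q).charpoly.Separable) :
    (Ymat n (Xmat n g q).charpoly).charpoly = g ∧ qof n (Xmat n g q).charpoly = q := by
  let L := AlgebraicClosure K
  let φ : K →+* L := algebraMap K L
  have : CharZero L := charZero_of_injective_algebraMap (algebraMap K L).injective
  obtain ⟨x, hx, h1⟩ := exists_nod φ hg hn hs
  obtain ⟨y, hy, h2⟩ := exists_nod φ (Matrix.charpoly_monic _)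
    (by rw [Matrix.charpoly_natDegree_eq_dim, Fintype.card_fin]) hf
  have hpar' : (nod x).comp (-X) = (-1) ^ n * nod x := by
    have := congrArg (Polynomial.map φ) hpar
    rw [Polynomial.map_comp, Polynomial.map_neg, Polynomial.map_X, Polynomial.map_mul,
      Polynomial.map_pow, Polynomial.map_neg, Polynomial.map_one, h1] at this
    exact this
  have hq' : (q.map φ).comp (-X) = q.map φ := by
    have := congrArg (Polynomial.map φ) hq
    rwa [Polynomial.map_comp, Polynomial.map_neg, Polynomial.map_X] at this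
  have h3 : (Xmat n (nod x) (q.map φ)).charpoly = nod y := by
    rw [← h2, ← Matrix.charpoly_map, map_Xmat φ hg, h1]
  obtain ⟨p1, p2⟩ := reverse_nod hx hpar' hq' hy h3
  constructor
  · apply Polynomial.map_injective φ φ.injective
    rw [← Matrix.charpoly_map, map_Ymat φ (Matrix.charpoly_monic _), h2, h1]
    exact p1
  · apply Polynomial.map_injective φ φ.injective
    rw [map_qof φ (Matrix.charpoly_monic _), h2]
    refine p2 ?_
    rw [degree_map]
    exact hd

end Pool.Agent.Lib.MP_12adaf_nt
end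

section

/-!
# Generic parameters
-/

namespace Pool.Agent.Lib.MP_12adaf_nt

set_option linter.unusedSectionVars false
set_option linter.unusedVariables false

open Finset Polynomial

lemma sep_iff_res {K : Type*} [Field K] {f : K[X]} (hf : f.Monic) :
    f.Separable ↔ resultant f (derivative f) f.natDegree (f.natDegree - 1) ≠ 0 := by
  rw [resultant_deriv_monic hf rfl]
  constructor
  · intro h
    exact mul_ne_zero (pow_ne_zero _ (neg_ne_zero.mpr one_ne_zero))
      (discr_ne_zero_of_separable hf h)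
  · intro h
    exact separable_of_discr_ne_zero hf (right_ne_zero_of_mul h)

/-- A polynomial which is separable at a point is generically separable. -/
lemma sep_transfer {R F L : Type*} [CommRing R] [Field F] [Field L] {ι : R →+* F}
    (hι : Function.Injective ι) (σ : R →+* L) {f : R[X]} (hf : f.Monic)
    (h : (f.map σ).Separable) : (f.map ι).Separable := by
  rw [sep_iff_res (hf.map _), hf.natDegree_map, derivative_map, resultant_map_map] at h ⊢
  intro h0
  apply h
  rw [hι (h0.trans (map_zero ι).symm), map_zero]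

section Pm

variable {R S : Type*} [CommRing R] [CommRing S]

/-- A multiple of `Xmat` without denominators. -/
noncomputable def Pm (n : ℕ) (g q : R[X]) : Matrix (Fin n) (Fin n) R :=
  (Amat n g).det • Dmat n g + (Amat n g).adjugate * (Dmat n g).transpose * Amat n g +
    (2 * (Amat n g).det) • Mmat n g q

lemma map_Pm (φ : R →+* S) {n : ℕ} {g : R[X]} (hg : g.Monic) (q : R[X]) :
    (Pm n g q).map φ = Pm n (g.map φ) (q.map φ) := by
  have h1 : φ (Amat n g).det = (Amat n (g.map φ)).det := by
    rw [← map_Amat φ hg, RingHom.map_det]; rfl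
  have h2 : (Amat n (g.map φ)).adjugate = (Amat n g).adjugate.map φ := by
    rw [← map_Amat φ hg]
    exact (RingHom.map_adjugate φ _).symm
  rw [Pm, Pm, ← h1, h2, ← map_Dmat φ hg, ← map_Amat φ hg, map_Mmat φ hg]
  ext i j
  simp only [Matrix.map_apply, Matrix.add_apply, Matrix.smul_apply, smul_eq_mul, map_add, map_mul,
    map_ofNat, Matrix.mul_apply, map_sum, Matrix.transpose_apply]

lemma Pm_eq {K : Type*} [Field K] [CharZero K] {n : ℕ} {g : K[X]} (hA : (Amat n g).det ≠ 0)
    (q : K[X]) : Pm n g q = (2 * (Amat n g).det) • Xmat n g q := by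
  rw [Pm, Xmat, smul_add, smul_smul, Matrix.inv_def, Ring.inverse_eq_inv']
  congr 1
  rw [show 2 * (Amat n g).det * 2⁻¹ = (Amat n g).det by field_simp, smul_add]
  congr 1
  rw [Matrix.smul_mul, Matrix.smul_mul, smul_smul, mul_inv_cancel₀ hA, one_smul]

end Pm

lemma charpoly_smul_nod {L : Type*} [Field L] {n : ℕ} {y : Fin n → L}
    {M : Matrix (Fin n) (Fin n) L} (hy : Function.Injective y) (h : M.charpoly = nod y) (s : L) :
    (s • M).charpoly = nod (fun i => s * y i) := by
  obtain ⟨W, hW, hMW⟩ := exists_diag hy h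
  have h1 : W * Matrix.diagonal (fun i => s * y i) = (s • M) * W := by
    rw [Matrix.smul_mul, hMW]
    ext i j
    rw [Matrix.mul_diagonal, Matrix.smul_apply, Matrix.mul_diagonal, smul_eq_mul]
    ring
  rw [← charpoly_conj hW h1, Matrix.charpoly_diagonal]
  rfl

lemma separable_smul {K : Type*} [Field K] {n : ℕ} {M : Matrix (Fin n) (Fin n) K} {s : K}
    (hs : s ≠ 0) (h : M.charpoly.Separable) : (s • M).charpoly.Separable := by
  let L := AlgebraicClosure K
  let φ : K →+* L := algebraMap K L
  obtain ⟨y, hy, h2⟩ := exists_nod φ (Matrix.charpoly_monic M)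
    (by rw [Matrix.charpoly_natDegree_eq_dim, Fintype.card_fin]) h
  rw [← Matrix.charpoly_map] at h2
  have h3 := charpoly_smul_nod hy h2 (φ s)
  have h4 : (s • M).map φ = φ s • M.map φ := by
    ext i j
    simp [Matrix.map_apply, Matrix.smul_apply]
  rw [← separable_map φ, ← Matrix.charpoly_map, h4, h3]
  refine nod_separable fun i j hij => hy ?_
  exact mul_left_cancel₀ ((_root_.map_ne_zero φ).mpr hs) hij

section Param

variable {R S : Type*} [CommRing R] [CommRing S]

/-- The polynomial `c` with parameters `t`, `c(0) = d t₀²`. -/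
noncomputable def cOf (n : ℕ) (d : R) (t : Fin n → R) : R[X] :=
  X ^ (n / 2) + toPoly (fun i : Fin (n / 2) =>
    if (i : ℕ) = 0 then d * t ⟨i, by have := i.2; omega⟩ ^ 2 else t ⟨i, by have := i.2; omega⟩)

/-- The polynomial `p` with parameters `t`. -/
noncomputable def pOf (n : ℕ) (t : Fin n → R) : R[X] :=
  toPoly (fun j : Fin (n - n / 2) => t ⟨n / 2 + j, by have := j.2; omega⟩)

lemma cOf_monic (n : ℕ) (d : R) (t : Fin n → R) : (cOf n d t).Monic :=
  monic_X_pow_add (degree_toPoly_lt _)

lemma natDegree_cOf [Nontrivial R] (n : ℕ) (d : R) (t : Fin n → R) :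
    (cOf n d t).natDegree = n / 2 := by
  rw [cOf, natDegree_add_eq_left_of_degree_lt, natDegree_X_pow]
  rw [degree_X_pow]; exact degree_toPoly_lt _

lemma map_cOf (φ : R →+* S) (n : ℕ) (d : R) (t : Fin n → R) :
    (cOf n d t).map φ = cOf n (φ d) (fun i => φ (t i)) := by
  rw [cOf, cOf, Polynomial.map_add, Polynomial.map_pow, Polynomial.map_X, map_toPoly]
  congr 2
  ext i
  split_ifs <;> simp

lemma map_pOf (φ : R →+* S) (n : ℕ) (t : Fin n → R) :
    (pOf n t).map φ = pOf n (fun i => φ (t i)) := by
  rw [pOf, pOf, map_toPoly]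

lemma coeff_cOf {n : ℕ} (d : R) (t : Fin n → R) (i : Fin n) (hi : (i : ℕ) < n / 2) :
    (cOf n d t).coeff i = if (i : ℕ) = 0 then d * t i ^ 2 else t i := by
  rw [cOf, coeff_add, coeff_X_pow, if_neg hi.ne, zero_add]
  exact coeff_toPoly (fun i : Fin (n / 2) =>
    if (i : ℕ) = 0 then d * t ⟨i, by have := i.2; omega⟩ ^ 2 else t ⟨i, by have := i.2; omega⟩)
    ⟨i, hi⟩

lemma coeff_pOf {n : ℕ} (t : Fin n → R) (i : Fin n) (hi : n / 2 ≤ (i : ℕ)) :
    (pOf n t).coeff (i - n / 2) = t i := by
  have h1 : (i : ℕ) - n / 2 < n - n / 2 := by have := i.2; omega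
  have h2 := coeff_toPoly (fun j : Fin (n - n / 2) => t ⟨n / 2 + j, by have := j.2; omega⟩)
    ⟨i - n / 2, h1⟩
  rw [pOf]
  refine h2.trans ?_
  congr 1
  ext
  simp only
  omega

end Param

lemma det_Amat_gof_ne {E : Type*} [Field E] [CharZero E] {n : ℕ} {c : E[X]} (h1 : c.Monic)
    (h2 : c.natDegree = n / 2) (h3 : c.Separable) (h4 : c.coeff 0 ≠ 0) :
    (Amat n (gof n c)).det ≠ 0 := by
  have h5 := separable_gof h1 h2 h3 h4
  let E' := AlgebraicClosure E
  let ψ : E →+* E' := algebraMap E E'
  have : CharZero E' := charZero_of_injective_algebraMap (algebraMap E E').injective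
  obtain ⟨x, hx, h6⟩ := exists_nod ψ (gof_monic n h1) (natDegree_gof h1 h2) h5
  have h7 := (isUnit_Amat_nod hx).ne_zero
  rw [← h6, ← map_Amat ψ (gof_monic n h1)] at h7
  intro h8
  apply h7
  have h9 := RingHom.map_det ψ (Amat n (gof n c))
  rw [h8, map_zero] at h9
  exact h9.symm

/-- A point with separable `f`. -/
lemma exists_point {L : Type*} [Field L] [CharZero L] [IsAlgClosed L] {n : ℕ} (hn : 2 ≤ n)
    {d : L} (hd : d ≠ 0) : ∃ t : Fin n → L, (cOf n d t).Separable ∧ (cOf n d t).coeff 0 ≠ 0 ∧
      (fcp n (cOf n d t) (pOf n t)).Separable := by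
  obtain ⟨F, hF, hx⟩ := exists_cert n L
  obtain ⟨x, hx0⟩ : ∃ x : Fin n → L, MvPolynomial.eval x F ≠ 0 := by
    by_contra h
    push Not at h
    exact hF (MvPolynomial.funext fun x => by rw [h x, map_zero])
  obtain ⟨hxi, hxs⟩ := hx x hx0
  have hG : (Ymat n (nod x)).charpoly = (Cx x).charpoly :=
    charpoly_conj (isUnit_vandermonde hxi) (vandermonde_mul_Ymat hxi)
  have hfm := nod_monic x
  have hfn : (nod x).natDegree = n := by rw [natDegree_nod, Fintype.card_fin]
  have hYs : (Ymat n (nod x)).charpoly.Separable := by rw [hG]; exact hxs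
  obtain ⟨hpar, q, hqd, hqe, hqf⟩ := exists_params hfm hfn (nod_separable hxi) hYs
  obtain ⟨c, hcm, hcd, hcs, hc0, hcg⟩ := exists_gof (Matrix.charpoly_monic _)
    (by rw [Matrix.charpoly_natDegree_eq_dim, Fintype.card_fin]) hYs hpar
  obtain ⟨p, hpd, hpq⟩ := exists_even hqd hqe
  obtain ⟨z, hz⟩ := IsAlgClosed.exists_pow_nat_eq (c.coeff 0 / d) (two_pos)
  have hm0 : 0 < n / 2 := by omega
  let t : Fin n → L := fun i => if (i : ℕ) = 0 then z else if (i : ℕ) < n / 2 then c.coeff i else
    p.coeff (i - n / 2)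
  have hcOf : cOf n d t = c := by
    have h1 : c = X ^ (n / 2) + toPoly (fun i : Fin (n / 2) => c.coeff i) := by
      have h2 : (c - X ^ (n / 2)).degree < ((n / 2 : ℕ) : WithBot ℕ) := by
        have h3 : c.degree = (n / 2 : ℕ) := by rw [degree_eq_natDegree hcm.ne_zero, hcd]
        have := degree_sub_lt_left (p := c) (q := X ^ (n / 2)) (by rw [h3, degree_X_pow])
          hcm.ne_zero (by rw [hcm.leadingCoeff, leadingCoeff_X_pow])
        rwa [h3] at this
      have h3 := toPoly_coeff h2
      have h4 : (fun m : Fin (n / 2) => (c - X ^ (n / 2)).coeff m) =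
          fun m : Fin (n / 2) => c.coeff m := by
        ext m
        rw [coeff_sub, coeff_X_pow, if_neg (by have := m.2; omega), sub_zero]
      rw [h4] at h3
      rw [h3]; ring
    rw [cOf]
    conv_rhs => rw [h1]
    congr 2
    ext i
    by_cases hi : (i : ℕ) = 0
    · rw [if_pos hi]
      simp only [t, hi, if_true]
      rw [hz]
      field_simp
    · rw [if_neg hi]
      simp only [t, hi, if_false]
      rw [if_pos i.2]
  have hpOf : pOf n t = p := by
    rw [pOf]
    have h1 : p.degree < ((n - n / 2 : ℕ) : WithBot ℕ) := by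
      have : (n + 1) / 2 = n - n / 2 := by omega
      rwa [this] at hpd
    conv_rhs => rw [← toPoly_coeff h1]
    congr 1
    ext j
    have hj : ¬ (n / 2 + (j : ℕ) = 0) := by omega
    have hj' : ¬ (n / 2 + (j : ℕ) < n / 2) := by omega
    simp only [t, hj, hj', if_false]
    congr 1
    omega
  refine ⟨t, by rw [hcOf]; exact hcs, by rw [hcOf]; exact hc0, ?_⟩
  rw [hcOf, hpOf, fcp, hcg, hpq, hqf]
  exact nod_separable hxi

/-- Generic parameters give separable polynomials. -/
theorem generic_sep {K F : Type*} [Field K] [CharZero K] [Field F] [Algebra K F] {n : ℕ}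
    (hn : 2 ≤ n) {d : K} (hd : d ≠ 0) {t : Fin n → F} (ht : AlgebraicIndependent K t) :
    (cOf n (algebraMap K F d) t).Separable ∧ (cOf n (algebraMap K F d) t).coeff 0 ≠ 0 ∧
      (fcp n (cOf n (algebraMap K F d) t) (pOf n t)).Separable := by
  let L := AlgebraicClosure K
  let φ : K →+* L := algebraMap K L
  have : CharZero L := charZero_of_injective_algebraMap (algebraMap K L).injective
  have : CharZero F := charZero_of_injective_algebraMap (algebraMap K F).injective
  have hdL : φ d ≠ 0 := (_root_.map_ne_zero φ).mpr hd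
  obtain ⟨t0, hc, hc0, hf⟩ := exists_point (n := n) hn hdL
  let R := MvPolynomial (Fin n) K
  let ι : R →+* F := (MvPolynomial.aeval t : R →ₐ[K] F).toRingHom
  have hι : Function.Injective ι := ht
  let σ : R →+* L := (MvPolynomial.aeval t0 : R →ₐ[K] L).toRingHom
  let cR : R[X] := cOf n (MvPolynomial.C d) MvPolynomial.X
  let pR : R[X] := pOf n MvPolynomial.X
  have hcι : cR.map ι = cOf n (algebraMap K F d) t := by
    simp only [cR, map_cOf]
    congr 1
    · exact MvPolynomial.aeval_C t d
    · ext i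
      exact MvPolynomial.aeval_X t i
  have hcσ : cR.map σ = cOf n (φ d) t0 := by
    simp only [cR, map_cOf]
    congr 1
    · exact MvPolynomial.aeval_C t0 d
    · ext i
      exact MvPolynomial.aeval_X t0 i
  have hpι : pR.map ι = pOf n t := by
    simp only [pR, map_pOf]
    congr 1
    ext i
    exact MvPolynomial.aeval_X t i
  have hpσ : pR.map σ = pOf n t0 := by
    simp only [pR, map_pOf]
    congr 1
    ext i
    exact MvPolynomial.aeval_X t0 i
  have hcm : cR.Monic := cOf_monic _ _ _
  have hcs : (cOf n (algebraMap K F d) t).Separable := by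
    rw [← hcι]
    exact sep_transfer hι σ hcm (by rw [hcσ]; exact hc)
  have hm0 : 0 < n / 2 := by omega
  have hc0F : (cOf n (algebraMap K F d) t).coeff 0 ≠ 0 := by
    rw [← hcι, coeff_map]
    intro h
    apply hc0
    rw [← hcσ, coeff_map, hι (h.trans (map_zero ι).symm), map_zero]
  refine ⟨hcs, hc0F, ?_⟩
  have hgm : (gof n cR).Monic := gof_monic n hcm
  have hAF : (Amat n (gof n (cOf n (algebraMap K F d) t))).det ≠ 0 :=
    det_Amat_gof_ne (cOf_monic _ _ _) (natDegree_cOf _ _ _) hcs hc0F
  have hAL : (Amat n (gof n (cOf n (φ d) t0))).det ≠ 0 :=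
    det_Amat_gof_ne (cOf_monic _ _ _) (natDegree_cOf _ _ _) hc hc0
  let PR := Pm n (gof n cR) (expand R 2 pR)
  have hPF : PR.map ι = (2 * (Amat n (gof n (cOf n (algebraMap K F d) t))).det) •
      Xmat n (gof n (cOf n (algebraMap K F d) t)) (expand F 2 (pOf n t)) := by
    simp only [PR]
    rw [map_Pm ι hgm, map_gof, map_expand, hcι, hpι, Pm_eq hAF]
  have hPL : PR.map σ = (2 * (Amat n (gof n (cOf n (φ d) t0))).det) •
      Xmat n (gof n (cOf n (φ d) t0)) (expand L 2 (pOf n t0)) := by
    simp only [PR]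
    rw [map_Pm σ hgm, map_gof, map_expand, hcσ, hpσ, Pm_eq hAL]
  have h1 : (PR.charpoly.map σ).Separable := by
    rw [← Matrix.charpoly_map, hPL]
    exact separable_smul (mul_ne_zero two_ne_zero hAL) hf
  have h2 : (PR.charpoly.map ι).Separable := sep_transfer hι σ (Matrix.charpoly_monic _) h1
  rw [← Matrix.charpoly_map, hPF] at h2
  have h3 := separable_smul (s := (2 * (Amat n (gof n (cOf n (algebraMap K F d) t))).det)⁻¹)
    (inv_ne_zero (mul_ne_zero two_ne_zero hAF)) h2
  rw [smul_smul, inv_mul_cancel₀ (mul_ne_zero two_ne_zero hAF), one_smul] at h3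
  exact h3

end Pool.Agent.Lib.MP_12adaf_nt
end

section

/-!
# Rationality of `d y ^ 2 = disc P`
-/

namespace Pool.Agent.Lib.MP_12adaf_nt

set_option linter.unusedSectionVars false
set_option linter.unusedVariables false

open Finset Polynomial

/-- A polynomial with coefficients in a subfield. -/
lemma exists_map_of_coeff {K F : Type*} [Field K] [Field F] [Algebra K F]
    {E : IntermediateField K F} {f : F[X]} (h : ∀ i, f.coeff i ∈ E) :
    ∃ g : E[X], g.map (algebraMap E F) = f := by
  have h1 : f ∈ Polynomial.lifts (algebraMap E F) := by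
    rw [Polynomial.lifts_iff_coeff_lifts]
    intro i
    exact ⟨⟨f.coeff i, h i⟩, rfl⟩
  obtain ⟨g, hg⟩ := (Polynomial.mem_lifts _).mp h1
  exact ⟨g, hg⟩

/-- The parameters are rational functions of `(a, y)`. -/
theorem param_mem {K F : Type*} [Field K] [CharZero K] [Field F] [CharZero F] [Algebra K F] {n : ℕ}
    (hn : 2 ≤ n) {d : K} {t : Fin n → F} {E : IntermediateField K F}
    (hcs : (cOf n (algebraMap K F d) t).Separable)
    (hc0 : (cOf n (algebraMap K F d) t).coeff 0 ≠ 0)
    (hfs : (fcp n (cOf n (algebraMap K F d) t) (pOf n t)).Separable)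
    (hf : ∀ i, (fcp n (cOf n (algebraMap K F d) t) (pOf n t)).coeff i ∈ E)
    (hy : t ⟨0, by omega⟩ * kcp n (cOf n (algebraMap K F d) t) (pOf n t) ∈ E) :
    ∀ i, t i ∈ E := by
  obtain ⟨c, hc⟩ : ∃ c, c = cOf n (algebraMap K F d) t := ⟨_, rfl⟩
  obtain ⟨p, hp⟩ : ∃ p, p = pOf n t := ⟨_, rfl⟩
  rw [← hc] at hcs hc0
  rw [← hc, ← hp] at hfs hf hy
  have hcm : c.Monic := by rw [hc]; exact cOf_monic _ _ _
  have hcd : c.natDegree = n / 2 := by rw [hc]; exact natDegree_cOf _ _ _
  have hgs := separable_gof hcm hcd hcs hc0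
  have hpd : (expand F 2 p).degree < (n : WithBot ℕ) := by
    rw [degree_lt_iff_coeff_zero]
    intro m hm
    rw [coeff_expand two_pos]
    split_ifs with h2
    · have h3 : p.degree < ((n - n / 2 : ℕ) : WithBot ℕ) := by rw [hp]; exact degree_toPoly_lt _
      rw [degree_lt_iff_coeff_zero] at h3
      apply h3
      omega
    · rfl
  obtain ⟨r1, r2⟩ := reverse_params (gof_monic n hcm) (natDegree_gof hcm hcd) hgs
    (gof_comp_neg n c) (expand_two_comp_neg p) hpd hfs
  obtain ⟨f0, hf0⟩ := exists_map_of_coeff hf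
  have hf0' : f0.map (algebraMap E F) = (Xmat n (gof n c) (expand F 2 p)).charpoly := hf0
  have hf0m : f0.Monic := by
    have h1 : (f0.map (algebraMap E F)).Monic := by
      rw [hf0']; exact Matrix.charpoly_monic _
    exact ((algebraMap E F).injective.monic_map_iff).mpr h1
  have hg : ∀ i, (gof n c).coeff i ∈ E := by
    intro i
    rw [← r1, ← hf0', ← map_Ymat (algebraMap E F) hf0m, Matrix.charpoly_map, coeff_map]
    exact ((Ymat n f0).charpoly.coeff i).2
  have hq : ∀ i, (expand F 2 p).coeff i ∈ E := by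
    intro i
    have h1 : qof n (f0.map (algebraMap E F)) = expand F 2 p := by rw [hf0']; exact r2
    rw [← h1, ← map_qof (algebraMap E F) hf0m, coeff_map]
    exact ((qof n f0).coeff i).2
  have hpc : ∀ i, p.coeff i ∈ E := by
    intro i
    have h1 := hq (i * 2)
    rwa [coeff_expand_mul two_pos] at h1
  have hcc : ∀ i, c.coeff i ∈ E := by
    intro i
    have h1 := hg (i * 2 + n % 2)
    rwa [gof, coeff_mul_X_pow, coeff_expand_mul two_pos] at h1
  obtain ⟨c0, hc0E⟩ := exists_map_of_coeff hcc
  obtain ⟨p0, hp0E⟩ := exists_map_of_coeff hpc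
  have hc0m : c0.Monic := by
    have h1 : (c0.map (algebraMap E F)).Monic := by rw [hc0E]; exact hcm
    exact ((algebraMap E F).injective.monic_map_iff).mpr h1
  have hk : kcp n c p ∈ E := by
    rw [← hc0E, ← hp0E, ← (map_fcp (algebraMap E F) hc0m).2]
    exact (kcp n c0 p0).2
  have hdisc := discr_fcp hcm hcd hcs hc0 hfs
  have hk0 : kcp n c p ≠ 0 := by
    intro h
    have h1 := discr_ne_zero_of_separable (Matrix.charpoly_monic _) hfs
    change (fcp n c p).discr ≠ 0 at h1
    rw [hdisc, h] at h1
    apply h1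
    ring
  intro i
  by_cases hi : (i : ℕ) < n / 2
  · by_cases hi0 : (i : ℕ) = 0
    · have h1 : i = ⟨0, by omega⟩ := Fin.ext hi0
      rw [h1]
      have h2 := E.mul_mem hy (E.inv_mem hk)
      rwa [mul_assoc, mul_inv_cancel₀ hk0, mul_one] at h2
    · have h1 := coeff_cOf (algebraMap K F d) t i hi
      rw [if_neg hi0, ← hc] at h1
      rw [← h1]
      exact hcc _
  · have h1 := coeff_pOf t i (not_lt.mp hi)
    rw [← hp] at h1
    rw [← h1]
    exact hpc _

/-- `n` elements over which a field of transcendence degree `n` is algebraic are algebraically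
independent. -/
lemma algInd_of_adjoin {K F : Type*} [Field K] [Field F] [Algebra K F] {n : ℕ} {t : Fin n → F}
    (ht : IsTranscendenceBasis K t) {a : Fin n → F} {y : F}
    (hy : IsAlgebraic (Algebra.adjoin K (Set.range a)) y)
    (htop : IntermediateField.adjoin K (insert y (Set.range a)) = ⊤) :
    AlgebraicIndependent K a := by
  have halg : Algebra.IsAlgebraic (Algebra.adjoin K (Set.range a)) F := by
    constructor
    intro z
    have hz : z ∈ IntermediateField.adjoin K (insert y (Set.range a)) := by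
      rw [htop]; trivial
    induction hz using IntermediateField.adjoin_induction with
    | mem z hz =>
      rcases Set.mem_insert_iff.mp hz with h | h
      · rw [h]; exact hy
      · exact isAlgebraic_algebraMap
          (⟨z, Algebra.subset_adjoin h⟩ : Algebra.adjoin K (Set.range a))
    | algebraMap z =>
      exact isAlgebraic_algebraMap (algebraMap K (Algebra.adjoin K (Set.range a)) z)
    | add z w _ _ hz hw => exact hz.add hw
    | inv z _ hz => exact hz.inv
    | mul z w _ _ hz hw => exact hz.mul hw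
  have h1 := ht.lift_cardinalMk_eq_trdeg
  exact (Algebra.IsAlgebraic.isTranscendenceBasis_of_lift_le_trdeg_of_finite K a h1.le).1

/-- The discriminant lies in the ring generated by the coefficients. -/
lemma discr_mem_adjoin {K F : Type*} [Field K] [Field F] [Algebra K F] {n : ℕ} {P : F[X]}
    (hP : P.Monic) (hn : P.natDegree = n) :
    ∃ r : Algebra.adjoin K (Set.range fun i : Fin n => P.coeff i), (r : F) = P.discr := by
  set A := Algebra.adjoin K (Set.range fun i : Fin n => P.coeff i) with hA
  have hco : ∀ i, P.coeff i ∈ A := by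
    intro i
    rcases lt_trichotomy i n with h | h | h
    · exact Algebra.subset_adjoin ⟨⟨i, h⟩, rfl⟩
    · rw [h]
      have h1 : P.coeff n = 1 := by
        conv_lhs => rw [← hn]
        exact hP.coeff_natDegree
      rw [h1]; exact A.one_mem
    · rw [coeff_eq_zero_of_natDegree_lt (by rw [hn]; exact h)]
      exact A.zero_mem
  have h1 : P ∈ Polynomial.lifts (algebraMap A F) := by
    rw [Polynomial.lifts_iff_coeff_lifts]
    intro i
    exact ⟨⟨P.coeff i, hco i⟩, rfl⟩
  obtain ⟨P0, hP0⟩ := (Polynomial.mem_lifts _).mp h1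
  have h2 := resultant_deriv_monic hP hn
  have h3 : P.discr = (-1) ^ (n * (n - 1) / 2) * resultant P (derivative P) n (n - 1) := by
    rw [h2, ← mul_assoc, ← mul_pow]
    simp
  refine ⟨(-1) ^ (n * (n - 1) / 2) * resultant P0 (derivative P0) n (n - 1), ?_⟩
  rw [h3, ← hP0, derivative_map, resultant_map_map]
  rfl

/-- Rationality of `d y ^ 2 = disc P`. -/
theorem rational_CM {K F : Type*} [Field K] [CharZero K] [Field F] [Algebra K F]
    {n : ℕ} (hn : 2 ≤ n) {d : K} (hd : d ≠ 0) {t : Fin n → F} (htb : IsTranscendenceBasis K t)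
    (hgen : IntermediateField.adjoin K (Set.range t) = ⊤) :
    ∃ (P : F[X]) (y : F),
      P.Monic ∧ P.natDegree = n ∧ P.discr = algebraMap K F d * y ^ 2 ∧ y ≠ 0 ∧
      AlgebraicIndependent K (fun i : Fin n => P.coeff i) ∧
      IntermediateField.adjoin K (insert y (Set.range fun i : Fin n => P.coeff i)) = ⊤ := by
  have : CharZero F := charZero_of_injective_algebraMap (algebraMap K F).injective
  obtain ⟨hcs, hc0, hfs⟩ := generic_sep (F := F) hn hd htb.1
  obtain ⟨c, hc⟩ : ∃ c, c = cOf n (algebraMap K F d) t := ⟨_, rfl⟩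
  obtain ⟨p, hp⟩ : ∃ p, p = pOf n t := ⟨_, rfl⟩
  have hm0 : 0 < n / 2 := by omega
  have hn0 : 0 < n := by omega
  have hc0' : c.coeff 0 = algebraMap K F d * t ⟨0, hn0⟩ ^ 2 := by
    have h1 := coeff_cOf (algebraMap K F d) t ⟨0, hn0⟩ hm0
    rw [hc]
    simpa using h1
  have hcm : c.Monic := by rw [hc]; exact cOf_monic _ _ _
  have hcd : c.natDegree = n / 2 := by rw [hc]; exact natDegree_cOf _ _ _
  have hPm : (fcp n c p).Monic := Matrix.charpoly_monic _
  have hPn : (fcp n c p).natDegree = n := by
    rw [fcp, Matrix.charpoly_natDegree_eq_dim, Fintype.card_fin]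
  have hdisc : (fcp n c p).discr =
      algebraMap K F d * (t ⟨0, hn0⟩ * kcp n c p) ^ 2 := by
    rw [discr_fcp hcm hcd (by rw [hc]; exact hcs) (by rw [hc]; exact hc0)
      (by rw [hc, hp]; exact hfs), hc0']
    ring
  have hdisc0 : (fcp n c p).discr ≠ 0 :=
    discr_ne_zero_of_separable hPm (by rw [hc, hp]; exact hfs)
  have hy0 : t ⟨0, hn0⟩ * kcp n c p ≠ 0 := by
    intro h
    apply hdisc0
    rw [hdisc, h]
    ring
  obtain ⟨P, hPdef⟩ : ∃ P, P = fcp n c p := ⟨_, rfl⟩
  obtain ⟨y, hydef⟩ : ∃ y, y = t ⟨0, hn0⟩ * kcp n c p := ⟨_, rfl⟩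
  rw [← hPdef] at hPm hPn hdisc hdisc0
  rw [← hydef] at hdisc hy0
  have htop : IntermediateField.adjoin K (insert y (Set.range fun i : Fin n => P.coeff i)) =
      ⊤ := by
    set E := IntermediateField.adjoin K (insert y (Set.range fun i : Fin n => P.coeff i)) with hE
    have hsub : ∀ i, t i ∈ E := by
      refine param_mem hn hcs hc0 hfs ?_ ?_
      · intro i
        rw [← hc, ← hp, ← hPdef]
        rcases lt_trichotomy i n with h | h | h
        · exact IntermediateField.subset_adjoin K _ (Set.mem_insert_of_mem _ ⟨⟨i, h⟩, rfl⟩)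
        · rw [h]
          have h1 : P.coeff n = 1 := by
            conv_lhs => rw [← hPn]
            exact hPm.coeff_natDegree
          rw [h1]; exact E.one_mem
        · rw [coeff_eq_zero_of_natDegree_lt (by rw [hPn]; exact h)]
          exact E.zero_mem
      · rw [← hc, ← hp, ← hydef]
        exact IntermediateField.subset_adjoin K _ (Set.mem_insert _ _)
    rw [eq_top_iff, ← hgen, IntermediateField.adjoin_le_iff]
    rintro _ ⟨i, rfl⟩
    exact hsub i
  refine ⟨P, y, hPm, hPn, hdisc, hy0, ?_, htop⟩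
  refine algInd_of_adjoin htb ?_ htop
  obtain ⟨r, hr⟩ := discr_mem_adjoin (K := K) hPm hPn
  refine ⟨C (algebraMap K _ d) * X ^ 2 - C r, ?_, ?_⟩
  · intro h
    have h1 := congrArg (fun q => q.coeff 2) h
    simp only [coeff_sub, coeff_C_mul, coeff_X_pow, if_true, mul_one, coeff_zero] at h1
    rw [coeff_C, if_neg two_ne_zero, sub_zero] at h1
    apply hd
    have h2 := congrArg (algebraMap _ F) h1
    rw [← IsScalarTower.algebraMap_apply, map_zero] at h2
    exact (map_eq_zero _).mp h2
  · rw [map_sub, map_mul, aeval_C, map_pow, aeval_X, aeval_C, ← IsScalarTower.algebraMap_apply]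
    have h3 : algebraMap (Algebra.adjoin K (Set.range fun i : Fin n => P.coeff i)) F r =
        (r : F) := rfl
    rw [h3, hr, hdisc, sub_self]

/-- The function field version. -/
theorem rational_CM_frac {K : Type*} [Field K] [CharZero K] {n : ℕ} (hn : 2 ≤ n) {d : K}
    (hd : d ≠ 0) :
    ∃ (P : (FractionRing (MvPolynomial (Fin n) K))[X]) (y : FractionRing (MvPolynomial (Fin n) K)),
      P.Monic ∧ P.natDegree = n ∧ P.discr = algebraMap K _ d * y ^ 2 ∧ y ≠ 0 ∧
      AlgebraicIndependent K (fun i : Fin n => P.coeff i) ∧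
      IntermediateField.adjoin K (insert y (Set.range fun i : Fin n => P.coeff i)) = ⊤ := by
  have halg : Algebra.IsAlgebraic (MvPolynomial (Fin n) K)
      (FractionRing (MvPolynomial (Fin n) K)) :=
    (IsFractionRing.comap_isAlgebraic_iff (K := FractionRing (MvPolynomial (Fin n) K))).mpr
      inferInstance
  have htb : IsTranscendenceBasis K (algebraMap (MvPolynomial (Fin n) K)
      (FractionRing (MvPolynomial (Fin n) K)) ∘ MvPolynomial.X) :=
    (IsTranscendenceBasis.mvPolynomial (Fin n) K).algebraMap_comp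
  refine rational_CM hn hd htb ?_
  rw [eq_top_iff]
  intro z _
  obtain ⟨a, b, hb, rfl⟩ := IsFractionRing.div_surjective (A := MvPolynomial (Fin n) K) z
  have hR : ∀ a : MvPolynomial (Fin n) K, algebraMap (MvPolynomial (Fin n) K)
      (FractionRing (MvPolynomial (Fin n) K)) a ∈ IntermediateField.adjoin K
        (Set.range (algebraMap (MvPolynomial (Fin n) K)
          (FractionRing (MvPolynomial (Fin n) K)) ∘ MvPolynomial.X)) := by
    intro a
    induction a using MvPolynomial.induction_on with
    | C a => exact IntermediateField.algebraMap_mem _ a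
    | add a b ha hb => rw [map_add]; exact IntermediateField.add_mem _ ha hb
    | mul_X a i ha =>
      rw [map_mul]
      exact IntermediateField.mul_mem _ ha (IntermediateField.subset_adjoin K _ ⟨i, rfl⟩)
  exact IntermediateField.div_mem _ (hR a) (hR b)

end Pool.Agent.Lib.MP_12adaf_nt
end
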