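import Mathlib
import Pool.Agent.Lib.MP_12adaf_nt.CM.Rational

section

/-!
# Speiser's lemma for monomial actions
-/

namespace Pool.Agent.Lib.MP_12adaf_nt

set_option linter.unusedSectionVars false
set_option linter.unusedVariables false

open Finset

section Speiser

variable {M G B : Type*} [Field M] [CharZero M] [Group G] [Fintype G] [MulSemiringAction G M]
  [Fintype B] [DecidableEq B] [MulAction G B]

/-- Invariant vectors span. -/
theorem speiser_functional (ε : G → B → ℤˣ)
    (hε : ∀ g h b, ε (g * h) b = ε g (h • b) * ε h b)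
    (hN : ∀ g : G, (∀ m : M, g • m = m) → ∀ b, g • b = b ∧ ε g b = 1)
    {a : B → M}
    (ha : ∀ e : B → M, (∀ g b, g • e b = ((ε g b : ℤ) : M) * e (g • b)) → ∑ b, a b * e b = 0) :
    a = 0 := by
  classical
  have hsq : ∀ u : ℤˣ, ((u : ℤ) : M) * ((u : ℤ) : M) = 1 := by
    intro u
    rcases Int.units_eq_one_or u with h | h <;> simp [h]
  have hfix : ∀ (g : G) (u : ℤˣ), g • ((u : ℤ) : M) = ((u : ℤ) : M) := by
    intro g u
    rcases Int.units_eq_one_or u with h | h <;> simp [h, smul_neg]
  funext b1
  -- the invariant vector attached to `m` at `b1`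
  have key : ∀ m : M, ∑ g : G, a (g • b1) * (((ε g b1 : ℤ) : M) * g • m) = 0 := by
    intro m
    let e : B → M := fun b => ∑ g : G, if g • b1 = b then ((ε g b1 : ℤ) : M) * g • m else 0
    have he : ∀ g b, g • e b = ((ε g b : ℤ) : M) * e (g • b) := by
      intro h b
      simp only [e]
      rw [smul_sum, mul_sum]
      refine Fintype.sum_bijective (fun g => h * g) (Group.mulLeft_bijective h) _ _ fun g => ?_
      by_cases hg : g • b1 = b
      · rw [if_pos hg, if_pos (by rw [mul_smul, hg]), smul_mul', hfix, hε, hg, ← mul_assoc,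
          mul_smul]
        push_cast
        rw [← mul_assoc, hsq, one_mul]
      · rw [if_neg hg, if_neg, smul_zero, mul_zero]
        intro h1
        apply hg
        rw [mul_smul] at h1
        exact MulAction.injective h h1
    have h1 := ha e he
    simp only [e] at h1
    have h2 : ∀ b, a b * ∑ g : G, (if g • b1 = b then ((ε g b1 : ℤ) : M) * g • m else 0) =
        ∑ g : G, if g • b1 = b then a (g • b1) * (((ε g b1 : ℤ) : M) * g • m) else 0 := by
      intro b
      rw [mul_sum]
      refine sum_congr rfl fun g _ => ?_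
      by_cases hg : g • b1 = b
      · rw [if_pos hg, if_pos hg, hg]
      · rw [if_neg hg, if_neg hg, mul_zero]
    simp_rw [h2] at h1
    rw [sum_comm] at h1
    simpa using h1
  -- independence of characters
  let Φ : G → (M →* M) := fun g => (MulSemiringAction.toRingHom G M g : M →* M)
  have hΦ : ∀ g m, Φ g m = g • m := fun g m => rfl
  have hli := linearIndependent_monoidHom M M
  rw [linearIndependent_iff'] at hli
  have h3 := hli (univ.image Φ)
    (fun φ => ∑ g ∈ univ.filter (fun g => Φ g = φ), a (g • b1) * ((ε g b1 : ℤ) : M)) ?_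
    (Φ 1) (mem_image_of_mem _ (mem_univ _))
  · have h4 : ∀ g ∈ univ.filter (fun g => Φ g = Φ 1), a (g • b1) * ((ε g b1 : ℤ) : M) = a b1 := by
      intro g hg
      have h5 : Φ g = Φ 1 := (mem_filter.mp hg).2
      have h6 : ∀ m : M, g • m = m := by
        intro m
        have := DFunLike.congr_fun h5 m
        rw [hΦ, hΦ, one_smul] at this
        exact this
      obtain ⟨h7, h8⟩ := hN g h6 b1
      rw [h7, h8]
      simp
    rw [sum_congr rfl h4, sum_const, nsmul_eq_mul] at h3
    rcases mul_eq_zero.mp h3 with h5 | h5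
    · exfalso
      have h6 : (univ.filter (fun g => Φ g = Φ 1)).card ≠ 0 := by
        rw [Finset.card_ne_zero]
        exact ⟨1, mem_filter.mpr ⟨mem_univ _, rfl⟩⟩
      exact h6 (by exact_mod_cast h5)
    · exact h5
  · funext m
    have h4 := key m
    rw [← sum_fiberwise_of_maps_to (s := univ) (t := univ.image Φ) (g := Φ)
      (fun g _ => mem_image_of_mem _ (mem_univ _))] at h4
    rw [Finset.sum_apply, Pi.zero_apply, ← h4]
    refine sum_congr rfl fun φ _ => ?_
    rw [Pi.smul_apply, smul_eq_mul, sum_mul]
    refine sum_congr rfl fun g hg => ?_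
    rw [← (mem_filter.mp hg).2, hΦ]
    ring

/-- An invariant vector without zero coordinates. -/
theorem exists_invariant_ne_zero (ε : G → B → ℤˣ)
    (hε : ∀ g h b, ε (g * h) b = ε g (h • b) * ε h b)
    (hN : ∀ g : G, (∀ m : M, g • m = m) → ∀ b, g • b = b ∧ ε g b = 1) :
    ∃ e : B → M, (∀ g b, g • e b = ((ε g b : ℤ) : M) * e (g • b)) ∧ ∀ b, e b ≠ 0 := by
  classical
  have h1 : ∀ b1 : B, ∃ e : B → M, (∀ g b, g • e b = ((ε g b : ℤ) : M) * e (g • b)) ∧
      e b1 ≠ 0 := by
    intro b1
    by_contra hcon
    push Not at hcon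
    have h2 : (fun b => if b = b1 then (1 : M) else 0) = 0 := by
      refine speiser_functional ε hε hN fun e he => ?_
      simp [hcon e he]
    have h3 := congrFun h2 b1
    simp at h3
  choose E hE hE0 using h1
  let rep : B → B := fun b => (Quotient.out (Quotient.mk (MulAction.orbitRel G B) b))
  have hrep : ∀ (g : G) (b : B), rep (g • b) = rep b := by
    intro g b
    have : Quotient.mk (MulAction.orbitRel G B) (g • b) =
        Quotient.mk (MulAction.orbitRel G B) b := Quotient.sound ⟨g, rfl⟩
    simp only [rep, this]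
  refine ⟨fun b => E (rep b) b, fun g b => ?_, fun b => ?_⟩
  · have h2 := hE (rep b) g b
    rw [h2]
    dsimp only
    rw [hrep]
  · have h2 : (MulAction.orbitRel G B).r (rep b) b :=
      Quotient.exact (Quotient.out_eq (Quotient.mk (MulAction.orbitRel G B) b))
    obtain ⟨g, hg⟩ := h2
    dsimp only at hg
    have h3 := hE0 (rep b)
    have h4 := hE (rep b) g b
    rw [hg] at h4
    intro h5
    have h5' : E (rep b) b = 0 := h5
    rw [h5', smul_zero] at h4
    rcases mul_eq_zero.mp h4.symm with h6 | h6
    · rcases Int.units_eq_one_or (ε g b) with h | h <;> simp [h] at h6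
    · exact h3 h6

/-- A basis of invariant vectors for a permutation action. -/
theorem exists_invariant_basis (hN : ∀ g : G, (∀ m : M, g • m = m) → ∀ b : B, g • b = b) :
    ∃ w : B → B → M, (∀ (j : B) (g : G) (b : B), g • w j b = w j (g • b)) ∧
      (Matrix.of w).det ≠ 0 := by
  classical
  let S : Set (B → M) := {e | ∀ (g : G) b, g • e b = e (g • b)}
  have hspan : Submodule.span M S = ⊤ := by
    by_contra hcon
    obtain ⟨f, hf0, hf⟩ := Submodule.exists_le_ker_of_lt_top _ (lt_top_iff_ne_top.mpr hcon)
    have h1 : (fun b => f (Pi.single b 1)) = 0 := by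
      refine speiser_functional (G := G) (M := M) (fun _ _ => 1) (fun _ _ _ => by simp)
        (fun g hg b => ⟨hN g hg b, rfl⟩) fun e he => ?_
      have h2 : e ∈ S := by
        intro g b
        simpa using he g b
      have h3 := hf (Submodule.subset_span h2)
      rw [LinearMap.mem_ker] at h3
      rw [← h3]
      conv_rhs => rw [← Finset.univ_sum_single e]
      rw [map_sum]
      refine sum_congr rfl fun b _ => ?_
      have : Pi.single b (e b) = e b • (Pi.single b (1 : M) : B → M) := by
        ext c
        by_cases hc : c = b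
        · subst hc; simp
        · simp [Pi.single_eq_of_ne hc]
      rw [this, map_smul, smul_eq_mul, mul_comm]
    apply hf0
    refine LinearMap.pi_ext' fun b => ?_
    ext
    simpa using congrFun h1 b
  obtain ⟨b, hbS, hbspan, hbli⟩ := exists_linearIndependent M S
  rw [hspan] at hbspan
  let bas : Module.Basis b M (B → M) := Module.Basis.mk hbli (by
    rw [Subtype.range_coe]; exact hbspan.ge)
  have : Fintype b := FiniteDimensional.fintypeBasisIndex bas
  have hcard : Fintype.card b = Fintype.card B := by
    rw [← Module.finrank_eq_card_basis bas, Module.finrank_fintype_fun_eq_card]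
  let eq : B ≃ b := Fintype.equivOfCardEq hcard.symm
  refine ⟨fun j => (eq j : B → M), fun j g c => hbS (eq j).2 g c, ?_⟩
  have h1 : LinearIndependent M (fun j : B => ((eq j : b) : B → M)) :=
    hbli.comp eq eq.injective
  have h2 : IsUnit (Matrix.of fun j => ((eq j : b) : B → M)) :=
    Matrix.linearIndependent_rows_iff_isUnit.mp h1
  exact ((Matrix.isUnit_iff_isUnit_det _).mp h2).ne_zero

end Speiser

end Pool.Agent.Lib.MP_12adaf_nt
end

section

/-!
# The parameters of a polynomial as explicit functions
-/

namespace Pool.Agent.Lib.MP_12adaf_nt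

set_option linter.unusedSectionVars false
set_option linter.unusedVariables false

open Finset Polynomial

/-- The parameters of `f`. -/
theorem params_qof {K : Type*} [Field K] [CharZero K] {n : ℕ} {f : K[X]} (hf : f.Monic)
    (hn : f.natDegree = n) (hs : f.Separable) (hY : (Ymat n f).charpoly.Separable) :
    (Ymat n f).charpoly.comp (-X) = (-1) ^ n * (Ymat n f).charpoly ∧
    (qof n f).degree < (n : WithBot ℕ) ∧ (qof n f).comp (-X) = qof n f ∧
      (Xmat n (Ymat n f).charpoly (qof n f)).charpoly = f := by
  let L := AlgebraicClosure K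
  let φ : K →+* L := algebraMap K L
  have : CharZero L := charZero_of_injective_algebraMap (algebraMap K L).injective
  obtain ⟨y, hy, h1⟩ := exists_nod φ hf hn hs
  obtain ⟨x, hx, h2⟩ := exists_nod φ (Matrix.charpoly_monic _)
    (by rw [Matrix.charpoly_natDegree_eq_dim, Fintype.card_fin]) hY
  have hG : (Ymat n (nod y)).charpoly = nod x := by
    rw [← h2, ← Matrix.charpoly_map, map_Ymat φ hf, h1]
  obtain ⟨p1, p2, p3⟩ := params_nod hy hx hG
  have hpar := parity_Ymat_nod hy
  refine ⟨?_, degree_toPoly_lt _, ?_, ?_⟩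
  · apply Polynomial.map_injective φ φ.injective
    rw [Polynomial.map_comp, Polynomial.map_neg, Polynomial.map_X, Polynomial.map_mul,
      Polynomial.map_pow, Polynomial.map_neg, Polynomial.map_one, h2, ← hG]
    exact hpar
  · apply Polynomial.map_injective φ φ.injective
    rw [Polynomial.map_comp, Polynomial.map_neg, Polynomial.map_X, map_qof φ hf, h1]
    exact p1
  · apply Polynomial.map_injective φ φ.injective
    rw [← Matrix.charpoly_map, map_Xmat φ (Matrix.charpoly_monic _), h2, map_qof φ hf, h1]
    exact p3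

section Defs

variable {L : Type*} [Field L]

/-- The polynomial `c` attached to `P`. -/
noncomputable def cP (n : ℕ) (P : L[X]) : L[X] :=
  X ^ (n / 2) + toPoly (fun i : Fin (n / 2) => (Ymat n P).charpoly.coeff (2 * i + n % 2))

/-- The polynomial `p` attached to `P`. -/
noncomputable def pP (n : ℕ) (P : L[X]) : L[X] :=
  toPoly (fun j : Fin (n - n / 2) => (qof n P).coeff (2 * j))

/-- The parameters of `(P, y)`. -/
noncomputable def tP (n : ℕ) (P : L[X]) (y : L) : Fin n → L := fun i =>
  if (i : ℕ) = 0 then y / kcp n (cP n P) (pP n P) else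
    if (i : ℕ) < n / 2 then (cP n P).coeff i else (pP n P).coeff (i - n / 2)

lemma cP_monic (n : ℕ) (P : L[X]) : (cP n P).Monic := monic_X_pow_add (degree_toPoly_lt _)

lemma natDegree_cP (n : ℕ) (P : L[X]) : (cP n P).natDegree = n / 2 := by
  rw [cP, natDegree_add_eq_left_of_degree_lt, natDegree_X_pow]
  rw [degree_X_pow]; exact degree_toPoly_lt _

variable {L' : Type*} [Field L'] (φ : L →+* L')

lemma map_cP {n : ℕ} {P : L[X]} (hP : P.Monic) : (cP n P).map φ = cP n (P.map φ) := by
  rw [cP, cP, Polynomial.map_add, Polynomial.map_pow, Polynomial.map_X, map_toPoly,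
    ← map_Ymat φ hP, Matrix.charpoly_map]
  congr 2
  ext i
  rw [coeff_map]

lemma map_pP {n : ℕ} {P : L[X]} (hP : P.Monic) : (pP n P).map φ = pP n (P.map φ) := by
  rw [pP, pP, map_toPoly, ← map_qof φ hP]
  congr 1
  ext i
  rw [coeff_map]

lemma map_tP {n : ℕ} {P : L[X]} (hP : P.Monic) (y : L) (i : Fin n) :
    φ (tP n P y i) = tP n (P.map φ) (φ y) i := by
  have hk := (map_fcp φ (cP_monic n P) (n := n) (p := pP n P)).2
  rw [map_cP φ hP, map_pP φ hP] at hk
  rw [tP, tP]
  split_ifs
  · rw [map_div₀, hk]
  · rw [← coeff_map, map_cP φ hP]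
  · rw [← coeff_map, map_pP φ hP]

end Defs

section Facts

variable {L : Type*} [Field L] [CharZero L] {n : ℕ} {P : L[X]}

lemma gof_cP (hP : P.Monic) (hn : P.natDegree = n) (hs : P.Separable)
    (hY : (Ymat n P).charpoly.Separable) :
    gof n (cP n P) = (Ymat n P).charpoly ∧ (cP n P).Separable ∧ (cP n P).coeff 0 ≠ 0 := by
  obtain ⟨h1, _, _, _⟩ := params_qof hP hn hs hY
  obtain ⟨c, hc, hcd, hcs, hc0, hcg⟩ := exists_gof (Matrix.charpoly_monic _)
    (by rw [Matrix.charpoly_natDegree_eq_dim, Fintype.card_fin]) hY h1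
  have h2 : cP n P = c := by
    have h3 : ∀ i, (Ymat n P).charpoly.coeff (2 * i + n % 2) = c.coeff i := by
      intro i
      rw [← hcg, gof, coeff_mul_X_pow, mul_comm, coeff_expand_mul two_pos]
    rw [cP]
    simp_rw [h3]
    have h4 : (c - X ^ (n / 2)).degree < ((n / 2 : ℕ) : WithBot ℕ) := by
      have h3 : c.degree = (n / 2 : ℕ) := by rw [degree_eq_natDegree hc.ne_zero, hcd]
      have := degree_sub_lt_left (p := c) (q := X ^ (n / 2)) (by rw [h3, degree_X_pow])
        hc.ne_zero (by rw [hc.leadingCoeff, leadingCoeff_X_pow])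
      rwa [h3] at this
    have h5 := toPoly_coeff h4
    have h6 : (fun m : Fin (n / 2) => (c - X ^ (n / 2)).coeff m) =
        fun m : Fin (n / 2) => c.coeff m := by
      ext m
      rw [coeff_sub, coeff_X_pow, if_neg (by have := m.2; omega), sub_zero]
    rw [h6] at h5
    rw [h5]; ring
  rw [h2]
  exact ⟨hcg, hcs, hc0⟩

lemma expand_pP (hP : P.Monic) (hn : P.natDegree = n) (hs : P.Separable)
    (hY : (Ymat n P).charpoly.Separable) : expand L 2 (pP n P) = qof n P := by
  obtain ⟨_, h1, h2, _⟩ := params_qof hP hn hs hY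
  obtain ⟨p, hpd, hpq⟩ := exists_even h1 h2
  have h3 : pP n P = p := by
    have h3 : ∀ i, (qof n P).coeff (2 * i) = p.coeff i := by
      intro i
      rw [← hpq, mul_comm, coeff_expand_mul two_pos]
    rw [pP]
    simp_rw [h3]
    apply toPoly_coeff
    have : (n + 1) / 2 = n - n / 2 := by omega
    rwa [this] at hpd
  rw [h3, hpq]

lemma fcp_cP (hP : P.Monic) (hn : P.natDegree = n) (hs : P.Separable)
    (hY : (Ymat n P).charpoly.Separable) : fcp n (cP n P) (pP n P) = P := by
  rw [fcp, (gof_cP hP hn hs hY).1, expand_pP hP hn hs hY]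
  exact (params_qof hP hn hs hY).2.2.2

/-- The parametrisation. -/
theorem tP_spec (hn2 : 2 ≤ n) (hP : P.Monic) (hn : P.natDegree = n)
    (hY : (Ymat n P).charpoly.Separable) {d y : L} (hd : d ≠ 0) (hy : y ≠ 0)
    (hdisc : P.discr = d * y ^ 2) :
    cOf n d (tP n P y) = cP n P ∧ pOf n (tP n P y) = pP n P ∧
      fcp n (cOf n d (tP n P y)) (pOf n (tP n P y)) = P ∧
      tP n P y ⟨0, by omega⟩ * kcp n (cOf n d (tP n P y)) (pOf n (tP n P y)) = y := by
  have hs : P.Separable := separable_of_discr_ne_zero hP (by
    rw [hdisc]; exact mul_ne_zero hd (pow_ne_zero 2 hy))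
  obtain ⟨h1, h2, h3⟩ := gof_cP hP hn hs hY
  have h4 := fcp_cP hP hn hs hY
  have h5 := discr_fcp (cP_monic n P) (natDegree_cP n P) h2 h3 (by rw [h4]; exact hs)
  rw [h4, hdisc] at h5
  have hk : kcp n (cP n P) (pP n P) ≠ 0 := by
    intro h
    rw [h] at h5
    exact mul_ne_zero hd (pow_ne_zero 2 hy) (by rw [h5]; ring)
  have h6 : (cP n P).coeff 0 = d * (y / kcp n (cP n P) (pP n P)) ^ 2 := by
    rw [div_pow, mul_div_assoc', h5, mul_div_assoc, div_self (pow_ne_zero 2 hk), mul_one]
  have h7 : cOf n d (tP n P y) = cP n P := by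
    conv_rhs => rw [cP]
    rw [cOf]
    congr 2
    ext i
    by_cases hi : (i : ℕ) = 0
    · rw [if_pos hi]
      have h8 : tP n P y ⟨i, by have := i.2; omega⟩ = y / kcp n (cP n P) (pP n P) := by
        rw [tP]; exact if_pos hi
      rw [h8, ← h6]
      have h9 := coeff_toPoly (fun i : Fin (n / 2) =>
        (Ymat n P).charpoly.coeff (2 * i + n % 2)) i
      rw [cP, coeff_add, coeff_X_pow, if_neg (by have := i.2; omega), zero_add]
      rw [hi] at h9 ⊢
      exact h9
    · rw [if_neg hi]
      have h8 : tP n P y ⟨i, by have := i.2; omega⟩ = (cP n P).coeff i := by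
        rw [tP]
        dsimp only
        rw [if_neg hi, if_pos i.2]
      rw [h8, cP, coeff_add, coeff_X_pow, if_neg (by have := i.2; omega), zero_add]
      exact coeff_toPoly (fun i : Fin (n / 2) => (Ymat n P).charpoly.coeff (2 * i + n % 2)) i
  have h8 : pOf n (tP n P y) = pP n P := by
    conv_rhs => rw [pP]
    rw [pOf]
    congr 1
    ext j
    have hj : ¬ (n / 2 + (j : ℕ) = 0) := by omega
    have hj' : ¬ (n / 2 + (j : ℕ) < n / 2) := by omega
    rw [tP]
    dsimp only
    rw [if_neg hj, if_neg hj', Nat.add_sub_cancel_left, pP]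
    exact coeff_toPoly (fun j : Fin (n - n / 2) => (qof n P).coeff (2 * j)) j
  refine ⟨h7, h8, by rw [h7, h8, h4], ?_⟩
  rw [h7, h8]
  have h9 : tP n P y ⟨0, by omega⟩ = y / kcp n (cP n P) (pP n P) := by
    rw [tP]; exact if_pos rfl
  rw [h9]
  field_simp

end Facts

end Pool.Agent.Lib.MP_12adaf_nt
end

section

/-!
# Fields of invariants modulo normal subgroups which are products of alternating groups: algebra
-/

namespace Pool.Agent.Lib.MP_12adaf_nt

set_option linter.unusedSectionVars false
set_option linter.unusedVariables false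

open Finset Polynomial

/-- Generic points have a separable dual polynomial. -/
lemma generic_x {M E : Type*} [Field M] [CharZero M] [Field E] [Algebra M E] {n : ℕ}
    {x : Fin n → E} (hx : AlgebraicIndependent M x) :
    Function.Injective x ∧ (Cx x).charpoly.Separable := by
  have : CharZero E := charZero_of_injective_algebraMap (algebraMap M E).injective
  rw [← cert5_ne_zero_iff]
  have h1 : (cert5 fun i : Fin n => (MvPolynomial.X i : MvPolynomial (Fin n) M)) ≠ 0 := by
    intro h
    apply cert5_nat_ne_zero n M
    have h2 := map_cert5 (MvPolynomial.eval fun i : Fin n => ((i : ℕ) : M))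
      (fun i : Fin n => (MvPolynomial.X i : MvPolynomial (Fin n) M))
    rw [h, map_zero] at h2
    rw [h2]
    congr 1
    ext i
    simp
  have h2 := map_cert5 (MvPolynomial.aeval x : MvPolynomial (Fin n) M →ₐ[M] E).toRingHom
    (fun i : Fin n => (MvPolynomial.X i : MvPolynomial (Fin n) M))
  have h3 : ((MvPolynomial.aeval x : MvPolynomial (Fin n) M →ₐ[M] E).toRingHom ∘
      fun i : Fin n => (MvPolynomial.X i : MvPolynomial (Fin n) M)) = x := by
    ext i
    simp
  rw [h3] at h2
  rw [← h2]
  intro h4
  apply h1
  have hinj : Function.Injective (MvPolynomial.aeval x : MvPolynomial (Fin n) M →ₐ[M] E) := hx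
  exact hinj (h4.trans (map_zero _).symm)

section Setup

variable {M E G B : Type*} [Field M] [CharZero M] [Field E] [Algebra M E] [Group G]
  [MulSemiringAction G M] [MulSemiringAction G E] [MulAction G B] {n : ℕ} {x : B → Fin n → E}
  {κ : G → B → Equiv.Perm (Fin n)}

lemma kappa_mul (hinj : Function.Injective fun p : B × Fin n => x p.1 p.2)
    (hgx : ∀ g b i, g • x b i = x (g • b) (κ g b i)) (g h : G) (b : B) :
    κ (g * h) b = κ g (h • b) * κ h b := by
  ext1 i
  have h1 : (g * h) • x b i = g • h • x b i := mul_smul g h _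
  rw [hgx, hgx, hgx, mul_smul] at h1
  have h2 := hinj (a₁ := (g • h • b, κ (g * h) b i)) (a₂ := (g • h • b, κ g (h • b) (κ h b i))) h1
  rw [Prod.mk.injEq] at h2
  exact h2.2

lemma smul_Delta (hgx : ∀ g b i, g • x b i = x (g • b) (κ g b i)) (g : G) (b : B) :
    g • (Matrix.vandermonde (x b)).det =
      ((Equiv.Perm.sign (κ g b) : ℤ) : E) * (Matrix.vandermonde (x (g • b))).det := by
  have h1 : g • (Matrix.vandermonde (x b)).det =
      ((MulSemiringAction.toRingHom G E g).mapMatrix (Matrix.vandermonde (x b))).det := by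
    rw [← RingHom.map_det]; rfl
  have h2 : (MulSemiringAction.toRingHom G E g).mapMatrix (Matrix.vandermonde (x b)) =
      (Matrix.vandermonde (x (g • b))).submatrix (κ g b) id := by
    ext i j
    rw [RingHom.mapMatrix_apply, Matrix.map_apply, Matrix.vandermonde_apply, map_pow,
      Matrix.submatrix_apply, Matrix.vandermonde_apply, id_eq]
    congr 1
    exact hgx g b i
  rw [h1, h2, Matrix.det_permute]

lemma map_nod_smul (hgx : ∀ g b i, g • x b i = x (g • b) (κ g b i)) (g : G) (b : B) :
    (nod (x b)).map (MulSemiringAction.toRingHom G E g) = nod (x (g • b)) := by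
  rw [nod, nod, Polynomial.map_prod,
    ← Equiv.prod_comp (κ g b) (fun i => (X - C (x (g • b) i) : E[X]))]
  refine Finset.prod_congr rfl fun i _ => ?_
  rw [Polynomial.map_sub, Polynomial.map_X, Polynomial.map_C]
  congr 2
  exact hgx g b i

end Setup

/-- Parameters of all blocks. -/
theorem exists_block_params {M E G B : Type*} [Field M] [CharZero M] [Field E] [Algebra M E]
    [Group G] [Fintype G] [MulSemiringAction G M] [MulSemiringAction G E] [Fintype B]
    [DecidableEq B] [MulAction G B] {n : ℕ} (hn : 2 ≤ n) {x : B → Fin n → E}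
    {κ : G → B → Equiv.Perm (Fin n)}
    (hact : ∀ (g : G) (m : M), g • algebraMap M E m = algebraMap M E (g • m))
    (hx : AlgebraicIndependent M fun p : B × Fin n => x p.1 p.2)
    (hgx : ∀ g b i, g • x b i = x (g • b) (κ g b i))
    (h1 : ∀ g : G, (∀ m : M, g • m = m) → ∀ b, g • b = b ∧ κ g b ∈ alternatingGroup (Fin n)) :
    ∃ (e : B → M) (t : B → Fin n → E), (∀ b, e b ≠ 0) ∧
      (∀ (g : G) (b : B) (i : Fin n), g • t b i = t (g • b) i) ∧
      ∀ b, nod (x b) = fcp n (cOf n (algebraMap M E (e b) ^ 2) (t b)) (pOf n (t b)) ∧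
        (Matrix.vandermonde (x b)).det = algebraMap M E (e b) * (t b ⟨0, by omega⟩ *
          kcp n (cOf n (algebraMap M E (e b) ^ 2) (t b)) (pOf n (t b))) := by
  have : CharZero E := charZero_of_injective_algebraMap (algebraMap M E).injective
  have hinj : Function.Injective fun p : B × Fin n => x p.1 p.2 := hx.injective
  obtain ⟨e, he, he0⟩ := exists_invariant_ne_zero (M := M) (G := G) (B := B)
    (fun g b => Equiv.Perm.sign (κ g b))
    (fun g h b => by
      rw [kappa_mul hinj hgx, Equiv.Perm.sign_mul])
    (fun g hg b => ⟨(h1 g hg b).1, Equiv.Perm.mem_alternatingGroup.mp (h1 g hg b).2⟩)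
  have hxb : ∀ b, AlgebraicIndependent M (x b) := fun b =>
    hx.comp (fun i => (b, i)) fun i j h => by simpa using h
  have hxi : ∀ b, Function.Injective (x b) := fun b => (generic_x (hxb b)).1
  have hY : ∀ b, (Ymat n (nod (x b))).charpoly.Separable := by
    intro b
    rw [charpoly_conj (isUnit_vandermonde (hxi b)) (vandermonde_mul_Ymat (hxi b))]
    exact (generic_x (hxb b)).2
  let y : B → E := fun b => (Matrix.vandermonde (x b)).det / algebraMap M E (e b)
  have heE : ∀ b, algebraMap M E (e b) ≠ 0 := fun b => (_root_.map_ne_zero _).mpr (he0 b)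
  have hΔ : ∀ b, (Matrix.vandermonde (x b)).det ≠ 0 := fun b =>
    Matrix.det_vandermonde_ne_zero_iff.mpr (hxi b)
  have hy : ∀ b, y b ≠ 0 := fun b => div_ne_zero (hΔ b) (heE b)
  have hgy : ∀ (g : G) (b : B), g • y b = y (g • b) := by
    intro g b
    have h3 : g • y b = (g • (Matrix.vandermonde (x b)).det) / (g • algebraMap M E (e b)) :=
      map_div₀ (MulSemiringAction.toRingHom G E g) _ _
    rw [h3, smul_Delta hgx, hact, he]
    simp only [y]
    rw [map_mul]
    have h4 : ((Equiv.Perm.sign (κ g b) : ℤ) : E) ≠ 0 := by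
      rcases Int.units_eq_one_or (Equiv.Perm.sign (κ g b)) with h | h <;> simp [h]
    have h5 : algebraMap M E ((Equiv.Perm.sign (κ g b) : ℤ) : M) =
        ((Equiv.Perm.sign (κ g b) : ℤ) : E) := by simp
    rw [h5, mul_div_mul_left _ _ h4]
  have hdisc : ∀ b, (nod (x b)).discr = algebraMap M E (e b) ^ 2 * y b ^ 2 := by
    intro b
    rw [discr_nod]
    simp only [y]
    have := heE b
    field_simp
  have hspec := fun b => tP_spec hn (nod_monic (x b)) (by rw [natDegree_nod, Fintype.card_fin])
    (hY b) (pow_ne_zero 2 (heE b)) (hy b) (hdisc b)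
  refine ⟨e, fun b => tP n (nod (x b)) (y b), he0, ?_, ?_⟩
  · intro g b i
    have h3 := map_tP (MulSemiringAction.toRingHom G E g) (n := n) (nod_monic (x b)) (y b) i
    rw [map_nod_smul hgx] at h3
    have h4 : (MulSemiringAction.toRingHom G E g) (y b) = y (g • b) := hgy g b
    rw [h4] at h3
    exact h3
  · intro b
    obtain ⟨_, _, h3, h4⟩ := hspec b
    refine ⟨h3.symm, ?_⟩
    dsimp only
    rw [h4]
    simp only [y]
    have := heE b
    field_simp

end Pool.Agent.Lib.MP_12adaf_nt
end

section

/-!
# Fields of invariants modulo normal subgroups which are products of alternating groups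
-/

namespace Pool.Agent.Lib.MP_12adaf_nt

set_option linter.unusedSectionVars false
set_option linter.unusedVariables false

open Finset Polynomial

open scoped IntermediateField.algebraAdjoinAdjoin

section Trdeg

variable {M E ι : Type*} [Field M] [Field E] [Algebra M E]

lemma isTranscendenceBasis_of_adjoin {x : ι → E} (hx : AlgebraicIndependent M x)
    (hgen : IntermediateField.adjoin M (Set.range x) = ⊤) : IsTranscendenceBasis M x := by
  rw [isTranscendenceBasis_iff_algebraicIndependent_isAlgebraic]
  refine ⟨hx, ?_⟩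
  constructor
  intro z
  have hz : z ∈ IntermediateField.adjoin M (Set.range x) := by rw [hgen]; trivial
  have h1 := (Algebra.IsAlgebraic.isAlgebraic (R := Algebra.adjoin M (Set.range x))
    (⟨z, hz⟩ : IntermediateField.adjoin M (Set.range x)))
  exact h1.algebraMap (A := E)

lemma algInd_of_card [Finite ι] {x t : ι → E} (hx : AlgebraicIndependent M x)
    (hgen : IntermediateField.adjoin M (Set.range x) = ⊤)
    (halg : Algebra.IsAlgebraic (IntermediateField.adjoin M (Set.range t)) E) :
    AlgebraicIndependent M t := by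
  have h0 := (isTranscendenceBasis_of_adjoin hx hgen).lift_cardinalMk_eq_trdeg
  have h1 : Algebra.IsAlgebraic (Algebra.adjoin M (Set.range t)) E :=
    Algebra.IsAlgebraic.trans _ (IntermediateField.adjoin M (Set.range t)) _
  exact (Algebra.IsAlgebraic.isTranscendenceBasis_of_lift_le_trdeg_of_finite M t h0.le).1

end Trdeg

/-- The fixed elements of `M(t)` when `G` acts through `M`. -/
lemma fixed_mem_adjoin {K M E G ι : Type*} [Field K] [Field M] [CharZero M] [Field E]
    [Algebra K M] [Algebra M E] [Algebra K E] [IsScalarTower K M E] [Group G] [Fintype G]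
    [MulSemiringAction G M] [MulSemiringAction G E] [SMulCommClass G K M]
    [Algebra.IsInvariant K M G]
    (hact : ∀ (g : G) (m : M), g • algebraMap M E m = algebraMap M E (g • m))
    {t : ι → E} (ht : ∀ (g : G) (i : ι), g • t i = t i) {z : E}
    (hz : z ∈ IntermediateField.adjoin M (Set.range t)) (hgz : ∀ g : G, g • z = z) :
    z ∈ IntermediateField.adjoin K (Set.range t) := by
  set F := IntermediateField.adjoin K (Set.range t) with hF
  have hFfix : ∀ f ∈ F, ∀ g : G, g • f = f := by
    intro f hf g
    induction hf using IntermediateField.adjoin_induction with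
    | mem z hz => obtain ⟨i, rfl⟩ := hz; exact ht g i
    | algebraMap a =>
      rw [IsScalarTower.algebraMap_apply K M E, hact, smul_algebraMap]
    | add a b _ _ ha hb => rw [smul_add, ha, hb]
    | inv a _ ha =>
      have : g • a⁻¹ = (g • a)⁻¹ := map_inv₀ (MulSemiringAction.toRingHom G E g) a
      rw [this, ha]
    | mul a b _ _ ha hb => rw [smul_mul', ha, hb]
  have hint : Algebra.IsIntegral K M := Algebra.IsInvariant.isIntegral K M G
  have : CharZero E := charZero_of_injective_algebraMap (algebraMap M E).injective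
  -- `z` lies in the field generated by `F` and `M`
  have h1 : ∀ z ∈ IntermediateField.adjoin M (Set.range t),
      z ∈ IntermediateField.adjoin F (Set.range (algebraMap M E)) := by
    intro z hz
    induction hz using IntermediateField.adjoin_induction with
    | mem z hz =>
      exact (IntermediateField.adjoin F _).algebraMap_mem
        ⟨z, IntermediateField.subset_adjoin K _ hz⟩
    | algebraMap a => exact IntermediateField.subset_adjoin F _ ⟨a, rfl⟩
    | add a b _ _ ha hb => exact add_mem ha hb
    | inv a _ ha => exact inv_mem ha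
    | mul a b _ _ ha hb => exact mul_mem ha hb
  have h2 : (IntermediateField.adjoin F (Set.range (algebraMap M E))).toSubalgebra =
      Algebra.adjoin F (Set.range (algebraMap M E)) := by
    apply IntermediateField.adjoin_toSubalgebra_of_isAlgebraic
    rintro _ ⟨m, rfl⟩
    have h3 : IsAlgebraic K (algebraMap M E m) :=
      ((Algebra.IsIntegral.isIntegral (R := K) m).isAlgebraic).algebraMap
    exact h3.tower_top F
  have h3 : z ∈ Submodule.span F (Set.range (algebraMap M E)) := by
    have h4 : z ∈ Algebra.adjoin F (Set.range (algebraMap M E)) := by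
      rw [← h2]; exact h1 z hz
    have h5 := Algebra.adjoin_eq_span F (Set.range (algebraMap M E))
    have h6 : (Submonoid.closure (Set.range (algebraMap M E)) : Set E) =
        Set.range (algebraMap M E) := by
      have := (MonoidHom.mrange (algebraMap M E : M →* E)).closure_eq
      rw [MonoidHom.coe_mrange] at this
      exact congrArg (fun S : Submonoid E => (S : Set E)) this
    rw [h6] at h5
    rw [← h5]
    exact h4
  -- averages lie in `F`
  have h4 : ∀ a ∈ Submodule.span F (Set.range (algebraMap M E)), ∑ g : G, g • a ∈ F := by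
    intro a ha
    induction ha using Submodule.span_induction with
    | mem a ha =>
      obtain ⟨m, rfl⟩ := ha
      have h5 : ∑ g : G, g • algebraMap M E m = algebraMap M E (∑ g : G, g • m) := by
        rw [map_sum]
        exact Finset.sum_congr rfl fun g _ => hact g m
      obtain ⟨k, hk⟩ := Algebra.IsInvariant.isInvariant (A := K) (G := G) (∑ g : G, g • m)
        (fun h => by
          rw [Finset.smul_sum]
          exact Fintype.sum_bijective (fun g => h * g) (Group.mulLeft_bijective h) _ _
            fun g => (mul_smul h g m).symm)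
      rw [h5, ← hk, ← IsScalarTower.algebraMap_apply]
      exact F.algebraMap_mem k
    | zero => simp
    | add a b _ _ ha hb =>
      simp_rw [smul_add]
      rw [Finset.sum_add_distrib]
      exact add_mem ha hb
    | smul f a _ ha =>
      have h5 : ∑ g : G, g • (f • a) = (f : E) * ∑ g : G, g • a := by
        rw [Finset.mul_sum]
        refine Finset.sum_congr rfl fun g _ => ?_
        rw [show f • a = (f : E) * a from rfl, smul_mul', hFfix f f.2]
      rw [h5]
      exact mul_mem f.2 ha
  have h5 := h4 z h3
  simp_rw [hgz] at h5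
  rw [Finset.sum_const, Finset.card_univ, nsmul_eq_mul] at h5
  have h6 : ((Fintype.card G : ℕ) : E) ≠ 0 := by
    exact_mod_cast Fintype.card_ne_zero
  have h7 : ((Fintype.card G : ℕ) : E) ∈ F := natCast_mem F _
  have h8 := mul_mem (inv_mem h7) h5
  rwa [← mul_assoc, inv_mul_cancel₀ h6, one_mul] at h8

end Pool.Agent.Lib.MP_12adaf_nt
end

section

/-!
# Fields of invariants modulo normal subgroups which are products of alternating groups: theorem
-/

namespace Pool.Agent.Lib.MP_12adaf_nt

set_option linter.unusedSectionVars false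
set_option linter.unusedVariables false

open Finset Polynomial

/-- Lift of the polynomials and of the square roots of the discriminants to a subfield. -/
lemma exists_lift_block {M E : Type*} [Field M] [Field E] [Algebra M E] {n : ℕ} (hn : 2 ≤ n)
    {x : Fin n → E} {e : M} {t : Fin n → E}
    (h1 : nod x = fcp n (cOf n (algebraMap M E e ^ 2) t) (pOf n t))
    (h2 : (Matrix.vandermonde x).det = algebraMap M E e * (t ⟨0, by omega⟩ *
      kcp n (cOf n (algebraMap M E e ^ 2) t) (pOf n t)))
    {E1 : IntermediateField M E} (ht : ∀ i, t i ∈ E1) :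
    (∃ P1 : E1[X], P1.map (algebraMap E1 E) = nod x) ∧ (Matrix.vandermonde x).det ∈ E1 := by
  let tE : Fin n → E1 := fun i => ⟨t i, ht i⟩
  let eE : E1 := algebraMap M E1 e
  have h3 : (cOf n (eE ^ 2) tE).map (algebraMap E1 E) = cOf n (algebraMap M E e ^ 2) t := by
    rw [map_cOf]
    rfl
  have h4 : (pOf n tE).map (algebraMap E1 E) = pOf n t := by
    rw [map_pOf]
    rfl
  obtain ⟨h5, h6⟩ := map_fcp (algebraMap E1 E) (cOf_monic n (eE ^ 2) tE) (n := n) (p := pOf n tE)
  rw [h3, h4] at h5 h6
  refine ⟨⟨_, h5.trans h1.symm⟩, ?_⟩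
  rw [h2, ← h6]
  exact mul_mem (E1.algebraMap_mem e) (mul_mem (ht _) (kcp n (cOf n (eE ^ 2) tE) (pOf n tE)).2)

/-- The elements fixed by the even block permutations. -/
theorem fixed_mem_E1 {M E G B : Type*} [Field M] [CharZero M] [Field E] [Algebra M E]
    [Group G] [MulSemiringAction G M] [MulSemiringAction G E] [Fintype B] [DecidableEq B]
    [MulAction G B] {n : ℕ} {x : B → Fin n → E} {κ : G → B → Equiv.Perm (Fin n)}
    (hact : ∀ (g : G) (m : M), g • algebraMap M E m = algebraMap M E (g • m))
    (hinj : Function.Injective fun p : B × Fin n => x p.1 p.2)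
    (hgen : IntermediateField.adjoin M (Set.range fun p : B × Fin n => x p.1 p.2) = ⊤)
    (hgx : ∀ (g : G) (b : B) (i : Fin n), g • x b i = x (g • b) (κ g b i))
    (h1 : ∀ g : G, (∀ m : M, g • m = m) → ∀ b, g • b = b ∧ κ g b ∈ alternatingGroup (Fin n))
    (h2 : ∀ τ : B → alternatingGroup (Fin n), ∃ g : G, (∀ m : M, g • m = m) ∧
      ∀ b, κ g b = τ b)
    {E1 : IntermediateField M E}
    (hP : ∀ b, ∃ P1 : E1[X], P1.map (algebraMap E1 E) = nod (x b))
    (hD : ∀ b, (Matrix.vandermonde (x b)).det ∈ E1) :
    Algebra.IsAlgebraic E1 E ∧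
      ∀ z : E, (∀ g : G, (∀ m : M, g • m = m) → g • z = z) → z ∈ E1 := by
  have : CharZero E := charZero_of_injective_algebraMap (algebraMap M E).injective
  have hxi : ∀ b, Function.Injective (x b) := fun b i j h => by
    have := hinj (a₁ := (b, i)) (a₂ := (b, j)) h
    rw [Prod.mk.injEq] at this
    exact this.2
  choose P1 hP1 using hP
  have hroot : ∀ b i, aeval (x b i) (P1 b) = 0 := by
    intro b i
    rw [aeval_def, ← eval_map, hP1, eval_nod_self]
  have hmap : (∏ b, P1 b).map (algebraMap E1 E) = ∏ b, nod (x b) := by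
    rw [Polynomial.map_prod]
    exact Finset.prod_congr rfl fun b _ => hP1 b
  have hne : (∏ b, P1 b).map (algebraMap E1 E) ≠ 0 := by
    rw [hmap, Finset.prod_ne_zero_iff]
    exact fun b _ => (nod_monic (x b)).ne_zero
  have hspl : (∏ b, P1 b).IsSplittingField E1 E := by
    rw [isSplittingField_iff_intermediateField]
    constructor
    · rw [hmap]
      exact Splits.prod fun b _ => splits_nod (x b)
    · have h3 : (⊤ : IntermediateField M E) ≤
          (IntermediateField.adjoin E1 ((∏ b, P1 b).rootSet E)).restrictScalars M := by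
        rw [← hgen, IntermediateField.adjoin_le_iff]
        rintro _ ⟨p, rfl⟩
        apply IntermediateField.subset_adjoin E1
        rw [mem_rootSet']
        refine ⟨hne, ?_⟩
        rw [map_prod]
        exact Finset.prod_eq_zero (Finset.mem_univ p.1) (hroot p.1 p.2)
      rw [eq_top_iff]
      intro z _
      exact h3 (by trivial : z ∈ (⊤ : IntermediateField M E))
  have hfd : FiniteDimensional E1 E := IsSplittingField.finiteDimensional E (∏ b, P1 b)
  have hnorm : Normal E1 E := Normal.of_isSplittingField (∏ b, P1 b)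
  have hgal : IsGalois E1 E := ⟨⟩
  refine ⟨inferInstance, fun z hz => ?_⟩
  have hmem : z ∈ (⊥ : IntermediateField E1 E) := by
    rw [IsGalois.mem_bot_iff_fixed]
    intro γ
    -- `γ` permutes the variables in each block
    have h3 : ∀ b i, ∃ j, γ (x b i) = x b j := by
      intro b i
      have h4 : (nod (x b)).eval (γ (x b i)) = 0 := by
        rw [← hP1, eval_map, ← aeval_def]
        have : aeval (γ (x b i)) (P1 b) = γ (aeval (x b i) (P1 b)) :=
          aeval_algHom_apply γ.toAlgHom (x b i) (P1 b)
        rw [this, hroot, map_zero]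
      rw [eval_nod] at h4
      obtain ⟨j, _, hj⟩ := Finset.prod_eq_zero_iff.mp h4
      exact ⟨j, sub_eq_zero.mp hj⟩
    choose s hs using h3
    have hsi : ∀ b, Function.Injective (s b) := by
      intro b i j hij
      apply hxi b
      apply γ.injective
      rw [hs, hs, hij]
    let σ : B → Equiv.Perm (Fin n) := fun b =>
      Equiv.ofBijective (s b) (Finite.injective_iff_bijective.mp (hsi b))
    have hσ : ∀ b i, γ (x b i) = x b (σ b i) := fun b i => hs b i
    have hsign : ∀ b, σ b ∈ alternatingGroup (Fin n) := by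
      intro b
      rw [Equiv.Perm.mem_alternatingGroup]
      have h5 : γ (Matrix.vandermonde (x b)).det =
          ((Equiv.Perm.sign (σ b) : ℤ) : E) * (Matrix.vandermonde (x b)).det := by
        have h6 : γ (Matrix.vandermonde (x b)).det =
            ((γ : E →+* E).mapMatrix (Matrix.vandermonde (x b))).det := by
          rw [← RingHom.map_det]; rfl
        have h7 : (γ : E →+* E).mapMatrix (Matrix.vandermonde (x b)) =
            (Matrix.vandermonde (x b)).submatrix (σ b) id := by
          ext i j
          rw [RingHom.mapMatrix_apply, Matrix.map_apply, Matrix.vandermonde_apply, map_pow,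
            Matrix.submatrix_apply, Matrix.vandermonde_apply, id_eq]
          congr 1
          exact hσ b i
        rw [h6, h7, Matrix.det_permute]
      have h8 : γ (Matrix.vandermonde (x b)).det = (Matrix.vandermonde (x b)).det :=
        γ.commutes ⟨_, hD b⟩
      have h9 : (Matrix.vandermonde (x b)).det ≠ 0 :=
        Matrix.det_vandermonde_ne_zero_iff.mpr (hxi b)
      rw [h8] at h5
      have h10 : ((Equiv.Perm.sign (σ b) : ℤ) : E) = 1 := by
        have h11 : (((Equiv.Perm.sign (σ b) : ℤ) : E) - 1) *
            (Matrix.vandermonde (x b)).det = 0 := by linear_combination -h5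
        rcases mul_eq_zero.mp h11 with h12 | h12
        · exact sub_eq_zero.mp h12
        · exact absurd h12 h9
      rcases Int.units_eq_one_or (Equiv.Perm.sign (σ b)) with h | h
      · exact h
      · exfalso
        rw [h] at h10
        norm_num at h10
    obtain ⟨g, hgM, hgκ⟩ := h2 fun b => ⟨σ b, hsign b⟩
    -- `g` and `γ` agree
    have hagree : ∀ w : E, g • w = γ w := by
      intro w
      have hw : w ∈ IntermediateField.adjoin M (Set.range fun p : B × Fin n => x p.1 p.2) := by
        rw [hgen]; trivial
      induction hw using IntermediateField.adjoin_induction with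
      | mem w hw =>
        obtain ⟨p, rfl⟩ := hw
        dsimp only
        rw [hgx, hσ, (h1 g hgM p.1).1, hgκ]
      | algebraMap m =>
        rw [hact, hgM]
        exact (γ.commutes (algebraMap M E1 m)).symm
      | add a b _ _ ha hb => rw [smul_add, map_add, ha, hb]
      | inv a _ ha =>
        have : g • a⁻¹ = (g • a)⁻¹ := map_inv₀ (MulSemiringAction.toRingHom G E g) a
        rw [this, map_inv₀, ha]
      | mul a b _ _ ha hb => rw [smul_mul', map_mul, ha, hb]
    rw [← hagree, hz g hgM]
  obtain ⟨z1, hz1⟩ := IntermediateField.mem_bot.mp hmem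
  rw [← hz1]
  exact z1.2

/-- **Main theorem.** -/
theorem gversion {K M E G B : Type*} [Field K] [Field M] [CharZero M] [Field E]
    [Algebra K M] [Algebra M E] [Algebra K E] [IsScalarTower K M E] [Group G] [Fintype G]
    [MulSemiringAction G M] [MulSemiringAction G E] [SMulCommClass G K M]
    [Algebra.IsInvariant K M G] [Fintype B] [DecidableEq B]
    [MulAction G B] {n : ℕ} (hn : 2 ≤ n) {x : B → Fin n → E} {κ : G → B → Equiv.Perm (Fin n)}
    (hact : ∀ (g : G) (m : M), g • algebraMap M E m = algebraMap M E (g • m))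
    (hx : AlgebraicIndependent M fun p : B × Fin n => x p.1 p.2)
    (hgen : IntermediateField.adjoin M (Set.range fun p : B × Fin n => x p.1 p.2) = ⊤)
    (hgx : ∀ (g : G) (b : B) (i : Fin n), g • x b i = x (g • b) (κ g b i))
    (h1 : ∀ g : G, (∀ m : M, g • m = m) → ∀ b, g • b = b ∧ κ g b ∈ alternatingGroup (Fin n))
    (h2 : ∀ τ : B → alternatingGroup (Fin n), ∃ g : G, (∀ m : M, g • m = m) ∧
      ∀ b, κ g b = τ b) :
    ∃ t : B × Fin n → E, (∀ (g : G) (p : B × Fin n), g • t p = t p) ∧
      AlgebraicIndependent K t ∧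
      ∀ z : E, (∀ g : G, g • z = z) → z ∈ IntermediateField.adjoin K (Set.range t) := by
  classical
  have hinj : Function.Injective fun p : B × Fin n => x p.1 p.2 := hx.injective
  obtain ⟨e, t, he0, hgt, hbt⟩ := exists_block_params hn hact hx hgx h1
  obtain ⟨w, hw, hwdet⟩ := exists_invariant_basis (M := M) (G := G) (B := B)
    fun g hg b => (h1 g hg b).1
  let t' : B × Fin n → E := fun p => ∑ b, algebraMap M E (w p.1 b) * t b p.2
  have hgt' : ∀ (g : G) (p : B × Fin n), g • t' p = t' p := by
    intro g p
    simp only [t']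
    rw [Finset.smul_sum]
    refine Fintype.sum_bijective (fun b => g • b) (MulAction.bijective g) _ _ fun b => ?_
    rw [smul_mul', hact, hw, hgt]
  set E1 := IntermediateField.adjoin M (Set.range t') with hE1
  have ht : ∀ b i, t b i ∈ E1 := by
    intro b i
    have hWu : IsUnit (Matrix.of w).det := isUnit_iff_ne_zero.mpr hwdet
    have h3 : t b i = ∑ j, algebraMap M E ((Matrix.of w)⁻¹ b j) * t' (j, i) := by
      simp only [t']
      simp_rw [Finset.mul_sum]
      rw [Finset.sum_comm]
      have h4 : ∀ c, ∑ j, algebraMap M E ((Matrix.of w)⁻¹ b j) *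
          (algebraMap M E (w j c) * t c i) =
          algebraMap M E (((Matrix.of w)⁻¹ * Matrix.of w) b c) * t c i := by
        intro c
        rw [Matrix.mul_apply, map_sum, Finset.sum_mul]
        refine Finset.sum_congr rfl fun j _ => ?_
        rw [map_mul, Matrix.of_apply, mul_assoc]
      simp_rw [h4]
      rw [Matrix.nonsing_inv_mul _ hWu]
      rw [Finset.sum_eq_single b]
      · rw [Matrix.one_apply_eq, map_one, one_mul]
      · intro c _ hc
        rw [Matrix.one_apply_ne hc.symm, map_zero, zero_mul]
      · intro h; exact absurd (Finset.mem_univ b) h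
    rw [h3]
    exact sum_mem fun j _ => mul_mem (E1.algebraMap_mem _)
      (IntermediateField.subset_adjoin M _ ⟨(j, i), rfl⟩)
  have hlift := fun b => exists_lift_block hn (hbt b).1 (hbt b).2 (ht b)
  obtain ⟨halg, hfix⟩ := fixed_mem_E1 (G := G) hact hinj hgen hgx h1 h2
    (fun b => (hlift b).1) (fun b => (hlift b).2)
  have hind : AlgebraicIndependent M t' := algInd_of_card hx hgen halg
  refine ⟨t', hgt', hind.restrictScalars (algebraMap K M).injective, fun z hz => ?_⟩
  exact fixed_mem_adjoin hact hgt' (hfix z fun g _ => hz g) hz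

end Pool.Agent.Lib.MP_12adaf_nt
end
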